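import Pool.Agent.H981R2.TP.Defs
import Pool.Agent.H988R2.Perc.T23
import Pool.Agent.H988R2.Perc.T24

/-! Project TP: statements of the tasks. -/

namespace Pool.Agent.H981R2.TP

open Pool.Agent.H988R2.Perc hiding X
open Pool.Agent.H492C
open Pool.Agent.H980R3.Slit (GP)
open Finset Polynomial Filter Topology MeasureTheory Relation

/-! ### Part A -/

def S_A1 : Prop := ∀ (u v B : List ℂ) (x y : ℂ), Even (u.length + v.length) → Odd B.length → x ≠ 0 →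
      y ≠ 0 → (∀ z ∈ u ++ v ++ B, z ≠ 0) → GR2 (u ++ y :: x :: v) B = GR2 (u ++ x :: y :: v) B
def S_A2 : Prop := ∀ (A u v : List ℂ) (x y : ℂ), Even A.length → Odd (u.length + v.length) → x ≠ 0 →
      y ≠ 0 → (∀ z ∈ A ++ u ++ v, z ≠ 0) → GR2 A (u ++ y :: x :: v) = GR2 A (u ++ x :: y :: v)
def S_A3 : Prop :=
  (∀ (A B : List ℂ) (x : ℂ), Odd A.length → Odd B.length → x ≠ 0 → (∀ z ∈ A ++ B, z ≠ 0) →
      GR2 (x :: A) B = x^(B.length + 3) * GR2 (x⁻¹ :: A) B) ∧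
  (∀ (A B : List ℂ) (x : ℂ), Even A.length → Even B.length → x ≠ 0 → (∀ z ∈ A ++ B, z ≠ 0) →
      GR2 A (B ++ [x]) = x^(A.length + 2) * GR2 A (B ++ [x⁻¹]))
def S_A4 : Prop := ∀ (A B : List ℂ) (x : ℂ), Even A.length → Odd B.length → x ≠ 0 →
      (∀ z ∈ A ++ B, z ≠ 0) → GR2 (x :: (q^2 * x) :: A) B =
        fac x (A ++ 1 :: 1 :: (B ++ [0])) * fac (q^2 * x)⁻¹ (A.map (fun x => x⁻¹)) * GR2 A B
def S_A5 : Prop := ∀ (A B : List ℂ) (x : ℂ), Even A.length → Odd B.length → x ≠ 0 →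
      (∀ z ∈ A ++ B, z ≠ 0) → GR2 A (x :: (q^2 * x) :: B) =
        fac x (A ++ 1 :: 1 :: (B ++ [0])) * fac (q^2 * x)⁻¹ (B.map (fun x => x⁻¹) ++ [0]) * GR2 A B
def S_A6 : Prop := ∀ (A B : List ℂ), Odd A.length → Odd B.length → (∀ z ∈ A ++ B, z ≠ 0) →
  ∃ P : ℂ[X], P.natDegree ≤ 2 * A.length + 1 + B.length ∧
        ∀ t, t ≠ 0 → P.eval t = t^(A.length - 1) * GR2 (t :: A) B
def S_A7 : Prop := ∀ (A B : List ℂ), Even A.length → Even B.length → (∀ z ∈ A ++ B, z ≠ 0) →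
  ∃ P : ℂ[X], P.natDegree ≤ 2 * B.length + 2 + A.length ∧
        (∀ t, t ≠ 0 → P.eval t = t^B.length * GR2 A (B ++ [t])) ∧ P.eval 0 = 0
/-- smallest case -/
def S_A8 : Prop := ∀ y : ℂ, y ≠ 0 → GR2 [] [y] = RH [] [y]
/-- one more point in the case `(2,1)`: a cup with the tip -/
def S_A9 : Prop := ∀ x y : ℂ, x ≠ 0 → y ≠ 0 → GR2 [x, q] [y] = RH [x, q] [y]
/-- symmetry, inversion of the closed formula -/
def S_R1 : Prop :=
  (∀ (u v B : List ℂ) (x y : ℂ), Even (u.length + v.length) → Odd B.length → x ≠ 0 →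
      y ≠ 0 → (∀ z ∈ u ++ v ++ B, z ≠ 0) → RH (u ++ y :: x :: v) B = RH (u ++ x :: y :: v) B) ∧
  (∀ (A u v : List ℂ) (x y : ℂ), Even A.length → Odd (u.length + v.length) → x ≠ 0 →
      y ≠ 0 → (∀ z ∈ A ++ u ++ v, z ≠ 0) → RH A (u ++ y :: x :: v) = RH A (u ++ x :: y :: v)) ∧
  (∀ (A B : List ℂ) (x : ℂ), Odd A.length → Odd B.length → x ≠ 0 → (∀ z ∈ A ++ B, z ≠ 0) →
      RH (x :: A) B = x^(B.length + 3) * RH (x⁻¹ :: A) B) ∧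
  (∀ (A B : List ℂ) (x : ℂ), Even A.length → Even B.length → x ≠ 0 → (∀ z ∈ A ++ B, z ≠ 0) →
      RH A (B ++ [x]) = x^(A.length + 2) * RH A (B ++ [x⁻¹]))
/-- recursions of the closed formula -/
def S_R2 : Prop :=
  (∀ (A B : List ℂ) (x : ℂ), Even A.length → Odd B.length → x ≠ 0 → (∀ z ∈ A ++ B, z ≠ 0) →
      RH (x :: (q^2 * x) :: A) B =
        fac x (A ++ 1 :: 1 :: (B ++ [0])) * fac (q^2 * x)⁻¹ (A.map (fun x => x⁻¹)) * RH A B) ∧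
  (∀ (A B : List ℂ) (x : ℂ), Even A.length → Odd B.length → x ≠ 0 → (∀ z ∈ A ++ B, z ≠ 0) →
      RH A (x :: (q^2 * x) :: B) =
        fac x (A ++ 1 :: 1 :: (B ++ [0])) * fac (q^2 * x)⁻¹ (B.map (fun x => x⁻¹) ++ [0]) * RH A B)
/-- the closed formula is polynomial -/
def S_R3 : Prop :=
  (∀ (A B : List ℂ), Odd A.length → Odd B.length → (∀ z ∈ A ++ B, z ≠ 0) → ∃ P : ℂ[X],
      P.natDegree ≤ 2 * A.length + 1 + B.length ∧
        ∀ t, t ≠ 0 → P.eval t = t^(A.length - 1) * RH (t :: A) B) ∧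
  (∀ (A B : List ℂ), Even A.length → Even B.length → (∀ z ∈ A ++ B, z ≠ 0) → ∃ P : ℂ[X],
      P.natDegree ≤ 2 * B.length + 2 + A.length ∧
        (∀ t, t ≠ 0 → P.eval t = t^B.length * RH A (B ++ [t])) ∧ P.eval 0 = 0)
/-- both functions are good, hence the difference is -/
def S_G : Prop := Good (fun A B => GR2 A B - RH A B)
/-- the case `(2,1)` -/
def S_B21 : Prop := ∀ D : List ℂ → List ℂ → ℂ, Good D → (∀ y : ℂ, y ≠ 0 → D [] [y] = 0) →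
  (∀ x y : ℂ, x ≠ 0 → y ≠ 0 → D [x, q] [y] = 0) →
  ∀ x x' y : ℂ, x ≠ 0 → x' ≠ 0 → y ≠ 0 → D [x, x'] [y] = 0
/-- uniqueness -/
def S_U : Prop := ∀ D : List ℂ → List ℂ → ℂ, Good D → (∀ y : ℂ, y ≠ 0 → D [] [y] = 0) →
  (∀ x x' y : ℂ, x ≠ 0 → x' ≠ 0 → y ≠ 0 → D [x, x'] [y] = 0) →
  ∀ A B : List ℂ, Even A.length → Odd B.length → (∀ z ∈ A ++ B, z ≠ 0) → D A B = 0
/-- the inhomogeneous formula -/
def S_F : Prop := ∀ A B : List ℂ, Even A.length → Odd B.length → (∀ z ∈ A ++ B, z ≠ 0) →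
  GR2 A B = RH A B
/-- the homogeneous point -/
def S_H : Prop := ∀ a b : ℕ, Even a → Odd b →
  GR2 (List.replicate a 1) (List.replicate b 1) =
    (tipFormula a b : ℂ) * (mass (psi1 (a+b+2)) * mass (psi0 a) * mass (psi1 b))

/-! ### Part C -/

def S_C1 : Prop := ∀ (a M : ℕ) (ω : Conf) (x y : ℕ), Even a → x % 2 = 1 → y % 2 = 1 → x ≤ a → y ≤ a →
  ((Pool.Agent.H988R2.Perc.X a (actBit (oFut ω M)) M).rel x y ↔ EqvGen (F1 a M ω) ((x : ℤ), 0) ((y : ℤ), 0))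
def S_C2 : Prop := ∀ (a b M : ℕ) (ω : Conf) (x y : ℕ), Even a → Odd b → x % 2 = 1 → y % 2 = 1 →
  x ≤ a + b + 2 → y ≤ a + b + 2 →
  ((Pool.Agent.H988R2.Perc.X (a+b+2) (actBit (oPast ω M)) M).rel x y ↔ EqvGen (F0 a b M ω) ((x : ℤ), 0) ((y : ℤ), 0))
def S_C3 : Prop := ∀ (a b M : ℕ) (ω : Conf) (x y : ℕ), Even a → Odd b → x % 2 = 1 → y % 2 = 1 →
  x ≤ b → y ≤ b →
  ((Pool.Agent.H988R2.Perc.X b (actBit (oFutR2 a ω M)) M).rel x y ↔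
    EqvGen (F2 a b M ω) ((x : ℤ) + (a + 2), 0) ((y : ℤ) + (a + 2), 0))
def S_C4 : Prop := ∀ (a b M : ℕ) (ω : Conf), Even a → Odd b → ω ∈ WinT a b M →
  EqvGen (FF a b M ω) ((a : ℤ) + 1, 0) ((a : ℤ) + b + 2, 0)
def S_C5 : Prop := ∀ (a b M : ℕ) (ω : Conf), Even a → Odd b →
  EqvGen (FF a b M ω) ((a : ℤ) + 1, 0) ((a : ℤ) + b + 2, 0) → ω ∈ WinT a b M
def S_C6 : Prop := ∀ (a b M : ℕ) (ω : Conf), Even a → Odd b →
  EqvGen (FF a b M ω) ((a : ℤ) + 1, 0) ((a : ℤ) + b + 2, 0) → ω ∈ TipArm a b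
def S_C7 : Prop := ∀ (a b : ℕ) (ω : Conf), Even a → Odd b → ω ∈ TipArm a b →
  ∃ M, EqvGen (FF a b M ω) ((a : ℤ) + 1, 0) ((a : ℤ) + b + 2, 0)

/-- upper right bits as a set -/
def tR2 (a b M : ℕ) (ω : Conf) : Finset (ℕ × ℕ) :=
  (T23.SS b M).filter (fun j => ω (edgeOf ((j.2 : ℤ) + (a + 2)) (2 * (M : ℤ) - 1 - j.1)) = true)

/-- a cell of the partition by the values of all the bits of the window -/
def cell4 (a b M : ℕ) (p0 p1 p2 : Finset (ℕ × ℕ)) : Set Conf :=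
  {ω | T23.tP (a+b+2) M ω = p0 ∧ T23.tF a M ω = p1 ∧ tR2 a b M ω = p2}

def S_C8 : Prop := ∀ (a b M : ℕ) (p0 p1 p2 : Finset (ℕ × ℕ)), p0 ⊆ T23.SS (a+b+2) M → p1 ⊆ T23.SS a M →
  p2 ⊆ T23.SS b M → MeasurableSet (cell4 a b M p0 p1 p2) ∧
  perc (cell4 a b M p0 p1 p2) = (1/2) ^ (2*M*(a+b+2) + 2*M*a + 2*M*b)

open Classical in
def S_C9 : Prop := ∀ (a b : ℕ) (α β γ : ℂ) (P0 P1 P2 : Finset (Finset (ℕ × ℕ)))
  (R0 R1 R2 : Finset (ℕ × ℕ) → St),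
  pair4 a b (α • ∑ t ∈ P0, Finsupp.single (R0 t) (1:ℂ)) (β • ∑ t ∈ P1, Finsupp.single (R1 t) (1:ℂ))
    (γ • ∑ t ∈ P2, Finsupp.single (R2 t) (1:ℂ)) =
  α * β * γ * ∑ t0 ∈ P0, ∑ t1 ∈ P1, ∑ t2 ∈ P2, (if conn4 a b (R0 t0) (R1 t1) (R2 t2) then 1 else 0)

/-- the probability of the window event -/
def S_C10 : Prop := ∀ (a b M : ℕ), Even a → Odd b → ((perc.real (WinT a b M) : ℝ) : ℂ) =
  pair4 a b (law (a+b+2) M) (law a M) (law b M)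

/-- trilinearity and bound -/
def S_C11 : Prop := (∀ (a b : ℕ) (f f' g h : St →₀ ℂ),
    pair4 a b (f + f') g h = pair4 a b f g h + pair4 a b f' g h) ∧
  (∀ (a b : ℕ) (f g g' h : St →₀ ℂ),
    pair4 a b f (g + g') h = pair4 a b f g h + pair4 a b f g' h) ∧
  (∀ (a b : ℕ) (f g h h' : St →₀ ℂ),
    pair4 a b f g (h + h') = pair4 a b f g h + pair4 a b f g h') ∧
  (∀ (a b : ℕ) (c : ℂ) (f g h : St →₀ ℂ), pair4 a b (c • f) g h = c * pair4 a b f g h) ∧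
  (∀ (a b : ℕ) (c : ℂ) (f g h : St →₀ ℂ), pair4 a b f (c • g) h = c * pair4 a b f g h) ∧
  (∀ (a b : ℕ) (c : ℂ) (f g h : St →₀ ℂ), pair4 a b f g (c • h) = c * pair4 a b f g h) ∧
  (∀ (a b : ℕ) (f g h : St →₀ ℂ), ‖pair4 a b f g h‖ ≤ T24.nrm f * T24.nrm g * T24.nrm h)

/-- stationarity of the even vector -/
def S_C12a : Prop := ∀ a : ℕ, Even a → Tvec a (psi0 a) = psi0 a

/-- the law of the state of the even strip converges -/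
def S_C12 : Prop := ∀ a : ℕ, Even a →
  Tendsto (fun M => T24.nrm (law a M + (-1 : ℂ) • ((mass (psi0 a))⁻¹ • psi0 a))) atTop (𝓝 0)

/-- convergence of the pairing -/
def S_C13 : Prop := ∀ (a b : ℕ) (f0 f1 f2 : ℕ → St →₀ ℂ) (w0 w1 w2 : St →₀ ℂ),
  Tendsto (fun M => T24.nrm (f0 M + (-1 : ℂ) • w0)) atTop (𝓝 0) →
  Tendsto (fun M => T24.nrm (f1 M + (-1 : ℂ) • w1)) atTop (𝓝 0) →
  Tendsto (fun M => T24.nrm (f2 M + (-1 : ℂ) • w2)) atTop (𝓝 0) →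
  Tendsto (fun M => pair4 a b (f0 M) (f1 M) (f2 M)) atTop (𝓝 (pair4 a b w0 w1 w2))

/-- the output of part (C) -/
def S_C14 : Prop := ∀ (a b : ℕ), Even a → Odd b →
  ((perc.real (TipArm a b) : ℝ) : ℂ) =
    pair4 a b (psi1 (a+b+2)) (psi0 a) (psi1 b) /
      (mass (psi1 (a+b+2)) * mass (psi0 a) * mass (psi1 b))

/-- bridge between the two forms of the gluing -/
def S_C15 : Prop := ∀ (a b : ℕ), Even a → Odd b →
  pair4 a b (psi1 (a+b+2)) (psi0 a) (psi1 b) = GR2 (List.replicate a 1) (List.replicate b 1)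

/-! ### Part D: asymptotics -/

def S_D1 : Prop := ∃ Ce : ℝ, 0 < Ce ∧
  Tendsto (fun n : ℕ => chi (2*n+1) / chi (2*n) / ((81/16 : ℝ)^n * (n:ℝ)^((1:ℝ)/6))) atTop (𝓝 Ce)
def S_D2 : Prop := ∃ Co : ℝ, 0 < Co ∧
  Tendsto (fun n : ℕ => chi (2*n+2) / chi (2*n+1) / ((81/16 : ℝ)^n / (n:ℝ)^((1:ℝ)/6))) atTop (𝓝 Co)
/-- conformal covariance of the tip arm: `P ~ C (a / (b (a+b)))^(1/6)` -/
def S_D3 : Prop := ∃ C : ℝ, 0 < C ∧ ∀ a b : ℕ → ℕ, (∀ n, Even (a n)) → (∀ n, Odd (b n)) →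
  Tendsto a atTop atTop → Tendsto b atTop atTop →
  Tendsto (fun n => tipFormula (a n) (b n) * ((b n : ℝ) * (a n + b n) / a n)^((1:ℝ)/6)) atTop (𝓝 C)

/-! ### the theorems -/

def S_Exact : Prop := ∀ a b : ℕ, Even a → Odd b → perc.real (TipArm a b) = tipFormula a b

def S_Limit : Prop := ∃ C : ℝ, 0 < C ∧ ∀ a b : ℕ → ℕ, (∀ n, Even (a n)) → (∀ n, Odd (b n)) →
  Tendsto a atTop atTop → Tendsto b atTop atTop →
  Tendsto (fun n => perc.real (TipArm (a n) (b n)) *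
    ((b n : ℝ) * (a n + b n) / a n)^((1:ℝ)/6)) atTop (𝓝 C)

theorem exact_of (hH : S_H) (h14 : S_C14) (h15 : S_C15)
    (hm : ∀ a b : ℕ, Even a → Odd b → mass (psi1 (a+b+2)) * mass (psi0 a) * mass (psi1 b) ≠ 0) :
    S_Exact := by
  intro a b ha hb
  have h := h14 a b ha hb
  rw [h15 a b ha hb, hH a b ha hb, mul_div_assoc, div_self (hm a b ha hb), mul_one] at h
  exact_mod_cast h

theorem limit_of (hE : S_Exact) (hD : S_D3) : S_Limit := by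
  obtain ⟨C, hC, h⟩ := hD
  refine ⟨C, hC, fun a b ha hb ta tb => ?_⟩
  refine (h a b ha hb ta tb).congr fun n => ?_
  rw [hE _ _ (ha n) (hb n)]

end Pool.Agent.H981R2.TP
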