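import Pool.Agent.H981R2.TP.Stubs
import Pool.Agent.H492C.P1
import Pool.Agent.H492C.P2
import Pool.Agent.H988R2.Perc.T19

/-! Task A5: pair annihilation in the second group. -/

namespace Pool.Agent.H981R2.TP

open Pool.Agent.H988R2.Perc hiding X
open Pool.Agent.H492C
open Finset Polynomial

theorem t_A5 : S_A5 := by
  intro A B x hA hB hx _
  have hq0 := q_ne_zero
  have hq3 := q_cube
  set y' := (q^2 * x)⁻¹ with hy'
  have hy'0 : y' ≠ 0 := inv_ne_zero (mul_ne_zero (pow_ne_zero _ hq0) hx)
  have hxy : x⁻¹ = q^2 * y' := by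
    rw [hy', mul_inv, ← mul_assoc, mul_inv_cancel₀ (pow_ne_zero _ hq0), one_mul]
  obtain ⟨k, hk⟩ : ∃ k, A.length + 2 = 2 * k := by
    obtain ⟨m, hm⟩ := hA
    exact ⟨m + 1, by omega⟩
  have hk2 : A.length / 2 + 1 = k := by omega
  have hul : (A ++ [1, 1]).length = 2 * k := by
    rw [List.length_append]; simpa using hk
  have hpar : Even ((A ++ [1, 1]).length + (B ++ [0]).length) := by
    rw [hul, List.length_append, List.length_singleton]
    exact (even_two_mul k).add (Odd.add_one hB)
  have hpar' : Even (([] : List ℂ).length + (B.map (fun x => x⁻¹) ++ [0]).length) := by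
    rw [List.length_nil, zero_add, List.length_append, List.length_map, List.length_singleton]
    exact Odd.add_one hB
  have r1 := Psi_rec (A ++ [1, 1]) (B ++ [0]) x hpar
  have r2 := Psi_rec [] (B.map (fun x => x⁻¹) ++ [0]) y' hpar'
  have e1 := Psi_exch [] (B.map (fun x => x⁻¹) ++ [0]) (q^2 * y') y' hpar'
  set G := Psi ([] ++ (q^2 * y') :: y' :: (B.map (fun x => x⁻¹) ++ [0])) with hG
  have hc1 : q * (q^2 * y') - q^2 * y' = (1 - q^2) * y' := by
    linear_combination y' * hq3
  have hc2 : q * y' - q^2 * (q^2 * y') = 0 := by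
    linear_combination (-q * y') * hq3
  have hc3 : y' - q^2 * y' = (1 - q^2) * y' := by ring
  rw [hc1, hc2, hc3, zero_smul, zero_add] at e1
  have hne : (1 - q^2) * y' ≠ 0 :=
    mul_ne_zero (sub_ne_zero.2 (Ne.symm q_sq_ne_one)) hy'0
  have e2 : Psi ([] ++ y' :: (q^2 * y') :: (B.map (fun x => x⁻¹) ++ [0])) =
      Finsupp.mapDomain (St.act ([] : List ℂ).length) G := by
    have := congrArg (fun F => ((1 - q^2) * y')⁻¹ • F) e1
    simp only [smul_smul, inv_mul_cancel₀ hne, one_smul] at this
    exact this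
  rw [e2] at r2
  simp only [List.nil_append, List.length_nil] at r2
  rw [hul] at r1
  have t1 : up1 (x :: (q^2 * x) :: B) = G := by
    unfold up1
    rw [hG]
    congr 1
    simp only [List.map_cons, List.cons_append, List.nil_append, ← hxy, ← hy']
  have t2 : Psi (A ++ 1 :: 1 :: ((x :: (q^2 * x) :: B) ++ [0])) =
      fac x (A ++ 1 :: 1 :: (B ++ [0])) •
        Finsupp.mapDomain (St.ins (2 * k)) (Psi (A ++ 1 :: 1 :: (B ++ [0]))) := by
    have a1 : A ++ 1 :: 1 :: ((x :: (q^2 * x) :: B) ++ [0]) =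
        (A ++ [1, 1]) ++ x :: (q^2 * x) :: (B ++ [0]) := by simp
    have a2 : A ++ 1 :: 1 :: (B ++ [0]) = (A ++ [1, 1]) ++ (B ++ [0]) := by simp
    rw [a1, a2, r1]
  unfold GR2
  rw [t1, t2, hk2, pairG_smul_left, mul_assoc]
  congr 1
  set H := Psi (A ++ 1 :: 1 :: (B ++ [0])) with hH
  have s1 : Finsupp.mapDomain (St.ins (2 * k)) H =
      Finsupp.mapDomain (St.act (2 * k)) (Finsupp.mapDomain (St.ins (2 * k)) H) := by
    rw [← Finsupp.mapDomain_comp]
    congr 1
    funext R
    exact (St.act_ins_self (2 * k) R).symm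
  have hlen : A.length + 2 + (x :: (q^2 * x) :: B).length = 2 * k + B.length + 2 := by
    simp only [List.length_cons]
    omega
  have hlen' : A.length + 2 + B.length = 2 * k + B.length := by omega
  have hBpos : 1 ≤ B.length := hB.pos
  have e3 : St.up (2 * k) (A.length + 1) = A.length + 1 := by
    unfold St.up
    rw [if_pos (by omega)]
  have e4 : St.up (2 * k) (2 * k + B.length) = 2 * k + B.length + 2 := by
    unfold St.up
    rw [if_neg (by omega)]
  have e5 := pairG_ins (p := A.length + 1) (r := 2 * k + B.length) (i := 2 * k) (even_two_mul k) H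
    (comb2 k (Psi (A.map (fun x => x⁻¹))) (up1 B))
  rw [e3, e4] at e5
  have e6 := comb2_act_right k 0 (Psi (A.map (fun x => x⁻¹))) G
  rw [zero_add] at e6
  have e7 : up1 B = Psi (B.map (fun x => x⁻¹) ++ [0]) := rfl
  rw [hlen, hlen', s1, pairG_act (by omega) (by omega), ← e6, r2, comb2_smul_right,
    pairG_smul_right, comb2_ins_right, ← e7, e5]

end Pool.Agent.H981R2.TP
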