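import Pool.Agent.H981R2.TP.Stubs
import Pool.Agent.H492C.G4

/-! Task A6 (helper399, adapted from helper28's G4): `GR2` is a polynomial in the first `A`. -/

namespace Pool.Agent.H981R2.TP

open Pool.Agent.H988R2.Perc hiding X
open Pool.Agent.H492C
open Finset Polynomial

theorem t_A6 : S_A6 := by
  intro A B hA hB _
  obtain ⟨S, h1, h2, h3⟩ := g4_supp (A.length + (B.length + 3) + 1) (A.length + 1) (B.length + 1)
  obtain ⟨P, hP, hP'⟩ := g4_poly (A.length + 1 + 1) (A.length + 1 + 2 + B.length)
    ((A.length + 1) / 2 + 1)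
    (f := fun t => Psi (t :: (A ++ 1 :: 1 :: (B ++ [0]))))
    (g := fun t => Psi (t :: A.map (fun x => x⁻¹))) (h := fun _ => up1 B) (S := S)
    (d1 := A.length + B.length + 2) (d2 := A.length - 1) (d3 := 0)
    (fun t => h1 _ (by simp)) (fun _ => h2 _ (by simp)) (fun _ => h3 _ (by simp))
    (fun R => by
      obtain ⟨P, hP, hP'⟩ := g4_pd [] (A ++ 1 :: 1 :: (B ++ [0])) (by
        simp only [List.length_append, List.length_nil, List.length_cons]
        obtain ⟨a, ha⟩ := hA
        obtain ⟨b, hb⟩ := hB
        exact ⟨a + b + 3, by omega⟩) R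
      refine ⟨P, ?_, hP'⟩
      simp only [List.length_append, List.length_nil, List.length_cons] at hP
      omega)
    (fun R => by
      obtain ⟨P, hP, hP'⟩ := g4_pd [] (A.map (fun x => x⁻¹)) (by
        simp only [List.length_nil, List.length_map]
        obtain ⟨a, ha⟩ := hA
        exact ⟨a + 1, by omega⟩) R
      refine ⟨P, ?_, hP'⟩
      simp only [List.length_nil, List.length_map] at hP
      omega)
    (fun R => g4_const _ R)
  refine ⟨P, by obtain ⟨a, ha⟩ := hA; omega, fun t ht => ?_⟩
  rw [← hP' t]
  have e := Psi_inv1 t (A.map (fun x => x⁻¹)) ht (by rw [List.length_map]; exact hA)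
  rw [List.length_map] at e
  rw [e, g4_smul_left, g4_pair_smul]
  unfold GR2
  simp only [List.length_cons, List.map_cons, List.cons_append]

end Pool.Agent.H981R2.TP
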