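import Pool.Agent.H981R2.TP.Stubs
import Pool.Agent.H492C.G4

/-! task A7: `GR2` is a polynomial in the last `B`, value `0` at `0` (adapted from H492C/G4) -/

namespace Pool.Agent.H981R2.TP

open Pool.Agent.H988R2.Perc hiding X
open Pool.Agent.H492C
open Finset Polynomial

theorem t_A7 : S_A7 := by
  intro A B hA hB _
  obtain ⟨S, h1, h2, h3⟩ := g4_supp (A.length + 2 + (B.length + 2)) A.length (B.length + 2)
  obtain ⟨P, hP, hP'⟩ := g4_poly (A.length + 1) (A.length + 2 + (B.length + 1)) (A.length / 2 + 1)
    (f := fun t => Psi ((A ++ 1 :: 1 :: B) ++ t :: [0]))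
    (g := fun _ => Psi (A.map (fun x => x⁻¹)))
    (h := fun t => Psi (B.map (fun x => x⁻¹) ++ t :: [0])) (S := S)
    (d1 := A.length + B.length + 2) (d2 := 0) (d3 := B.length)
    (fun t => h1 _ (by simp; ring)) (fun _ => h2 _ (by simp)) (fun _ => h3 _ (by simp))
    (fun R => by
      obtain ⟨P, hP, hP'⟩ := g4_pd (A ++ 1 :: 1 :: B) [0] (by
        simp only [List.length_append, List.length_nil, List.length_cons]
        obtain ⟨a, ha⟩ := hA
        obtain ⟨b, hb⟩ := hB
        exact ⟨a + b + 2, by omega⟩) R
      refine ⟨P, ?_, hP'⟩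
      simp only [List.length_append, List.length_nil, List.length_cons] at hP
      omega)
    (fun R => g4_const _ R)
    (fun R => by
      obtain ⟨P, hP, hP'⟩ := g4_pd (B.map (fun x => x⁻¹)) [0] (by
        simp only [List.length_nil, List.length_cons, List.length_map]
        obtain ⟨a, ha⟩ := hB
        exact ⟨a + 1, by omega⟩) R
      refine ⟨P, ?_, hP'⟩
      simp only [List.length_nil, List.length_cons, List.length_map] at hP
      omega)
  refine ⟨P, by omega, fun t ht => ?_, ?_⟩
  · rw [← hP' t]
    have e := Psi_inv0 t (B.map (fun x => x⁻¹)) ht (by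
      rw [List.length_map]; exact hB)
    rw [List.length_map] at e
    rw [e, g4_smul_right, g4_pair_smul]
    unfold GR2 up1
    simp only [List.length_append, List.length_cons, List.length_nil, List.map_append, List.map_cons,
      List.map_nil, List.append_assoc, List.cons_append, List.nil_append]
  · rw [← hP' 0]
    have r1 := Psi_rec (A ++ 1 :: 1 :: B) [] 0 (by
      simp only [List.length_append, List.length_nil, List.length_cons]
      obtain ⟨a, ha⟩ := hA
      obtain ⟨b, hb⟩ := hB
      exact ⟨a + b + 1, by omega⟩)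
    have r2 := Psi_rec (B.map (fun x => x⁻¹)) [] 0 (by
      simp only [List.length_nil, List.length_map]
      exact hB)
    rw [mul_zero, List.append_nil] at r1 r2
    rw [r1, r2]
    classical
    rw [g4_tri (A.length + 1) (A.length + 2 + (B.length + 1)) (A.length / 2 + 1) _ _ _
      (subset_refl _) (subset_refl _) (subset_refl _)]
    refine Finset.sum_eq_zero (fun R hR => Finset.sum_eq_zero (fun R1 _ => Finset.sum_eq_zero
      (fun R2 hR2 => ?_)))
    have hR' : ∃ T : St, R = St.ins (A ++ 1 :: 1 :: B).length T := by
      have := Finsupp.support_smul hR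
      have := Finsupp.mapDomain_support this
      rw [Finset.mem_image] at this
      obtain ⟨T, _, hT⟩ := this
      exact ⟨T, hT.symm⟩
    have hR2' : ∃ T : St, R2 = St.ins (B.map (fun x => x⁻¹)).length T := by
      have := Finsupp.support_smul hR2
      have := Finsupp.mapDomain_support this
      rw [Finset.mem_image] at this
      obtain ⟨T, _, hT⟩ := this
      exact ⟨T, hT.symm⟩
    obtain ⟨T, rfl⟩ := hR'
    obtain ⟨T2, rfl⟩ := hR2'
    have hz : g4c (A.length + 1) (A.length + 2 + (B.length + 1)) (A.length / 2 + 1)
        (St.ins (A ++ 1 :: 1 :: B).length T) R1 (St.ins (B.map (fun x => x⁻¹)).length T2) = 0 := by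
      unfold g4c
      rw [if_neg]
      obtain ⟨a, ha⟩ := hA
      have hk : A.length / 2 + 1 = a + 1 := by omega
      rw [hk]
      refine g4_isol (by omega) _ _ ?_ ?_
      · intro x hx
        have hx' : x = A.length + 2 + (B.length + 1) ∨ (x % 2 = 1 ∧
          (A.length + 2 + (B.length + 1)) % 2 = 1 ∧ x ≠ (A ++ 1 :: 1 :: B).length + 1 ∧
          A.length + 2 + (B.length + 1) ≠ (A ++ 1 :: 1 :: B).length + 1 ∧ _) := hx
        rcases hx' with h | ⟨_, _, _, h, _⟩
        · exact h
        · exfalso
          apply h
          simp only [List.length_append, List.length_cons]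
          ring
      · intro x hx
        have hx' : x = A.length + 2 + (B.length + 1) ∨
          (x < 2 * (a + 1) ∧ A.length + 2 + (B.length + 1) < 2 * (a + 1) ∧
            R1.rel x (A.length + 2 + (B.length + 1))) ∨
          (2 * (a + 1) ≤ x ∧ 2 * (a + 1) ≤ A.length + 2 + (B.length + 1) ∧
            (St.ins (B.map (fun x => x⁻¹)).length T2).rel (x - 2 * (a + 1))
              (A.length + 2 + (B.length + 1) - 2 * (a + 1))) := hx
        rcases hx' with h | ⟨_, h, _⟩ | ⟨h1, h2, h⟩
        · exact h
        · omega
        · have h' : x - 2 * (a + 1) = A.length + 2 + (B.length + 1) - 2 * (a + 1) ∨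
            ((x - 2 * (a + 1)) % 2 = 1 ∧ (A.length + 2 + (B.length + 1) - 2 * (a + 1)) % 2 = 1 ∧
              x - 2 * (a + 1) ≠ (B.map (fun x => x⁻¹)).length + 1 ∧
              A.length + 2 + (B.length + 1) - 2 * (a + 1) ≠ (B.map (fun x => x⁻¹)).length + 1 ∧ _) := h
          rcases h' with h | ⟨_, _, _, h, _⟩
          · omega
          · exfalso
            apply h
            rw [List.length_map]
            omega
    rw [hz, mul_zero]

end Pool.Agent.H981R2.TP
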