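import Pool.Agent.H981R2.TP.Stubs
import Pool.Agent.H492C.G5

/-! task A8: the smallest case (helper28) -/

set_option autoImplicit false

namespace Pool.Agent.H981R2.TP

open Pool.Agent.H988R2.Perc hiding X
open Pool.Agent.H988R2.Perc.T18
open Pool.Agent.H492C
open Finset Polynomial

theorem t_A8 : S_A8 := by
  intro y _
  have h1 : GR2 [] [y] = pairG 1 3 (Psi [1, 1, y, 0]) (comb2 1 (Psi []) (Psi [y⁻¹, 0])) := rfl
  have h2 : (Finsupp.single St.bot 1 : St →₀ ℂ) = Finsupp.single J 0 + Finsupp.single St.bot 1 := by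
    rw [Finsupp.single_zero, zero_add]
  have h4 : GR2 [] [y] = (1 - q^2)^2 * (q * y) * (- q^2) := by
    rw [h1, G5_pairG, Psi_nil, Psi_two, G5_comb2, h2, Psi_four _ rfl, pair_four, f_formula]
    ring
  have h5 : RH [] [y] = 3 * q^2 * y := by
    unfold RH
    have e1 : ([] ++ [1, 0] : List ℂ) = [1, 0] := rfl
    have e2 : ([y] ++ [1] : List ℂ) = [y, 1] := rfl
    have e3 : ([] ++ 1 :: [y] : List ℂ) = [1, y] := rfl
    rw [e1, e2, e3, Z_two, Z_two, Z_two]
    simp
  rw [h4, h5]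
  have h := q_spec
  have h3 := q_cube
  linear_combination (-(q^4) * y + q^3 * y + 3 * q^2 * y) * h3 + (-(q^4) * y) * h

end Pool.Agent.H981R2.TP
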