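import Pool.Agent.H981R2.TP.Stubs
import Pool.Agent.H492C.G5
import Pool.Agent.H988R2.Perc.T14

/-! task A9: a cup with the tip -/

set_option autoImplicit false

namespace Pool.Agent.H981R2.TP

open Pool.Agent.H988R2.Perc hiding X
open Pool.Agent.H988R2.Perc.T18
open Pool.Agent.H492C
open Finset Polynomial

theorem A9_comb_bot : comb 2 St.bot St.bot = St.bot := by
  ext a b
  show (a = b ∨ (a < 2*2 ∧ b < 2*2 ∧ a = b) ∨ (2*2 ≤ a ∧ 2*2 ≤ b ∧ a - 2*2 = b - 2*2)) ↔ a = b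
  omega

theorem A9_comb2 : comb2 2 (Finsupp.single St.bot 1) (Finsupp.single St.bot 1) =
    Finsupp.single St.bot 1 := by
  unfold comb2
  rw [Finsupp.sum_single_index, Finsupp.sum_single_index, A9_comb_bot, mul_one]
  · rw [mul_zero, Finsupp.single_zero]
  · simp [Finsupp.sum]

theorem A9_jnJ : jn 3 5 (St.ins 1 J) St.bot := by
  refine Relation.EqvGen.rel _ _ (Or.inl (Or.inr ⟨rfl, rfl, by norm_num, by norm_num, ?_⟩))
  show J.rel 1 3
  exact (rel_J 1 3).2 (Or.inr (Or.inl ⟨rfl, rfl⟩))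

theorem A9_jnbot : ¬ jn 3 5 (St.ins 1 St.bot) St.bot := by
  intro h
  have key : ∀ a b, Relation.EqvGen (fun a b => (St.ins 1 St.bot).rel a b ∨ St.bot.rel a b) a b →
      (a = 5 ↔ b = 5) := by
    intro a b hab
    induction hab with
    | rel a b h =>
      rcases h with (h | ⟨h1, h2, h3, h4, h5⟩) | h
      · rw [h]
      · have h6 : St.low 1 a = St.low 1 b := h5
        unfold St.low at h6
        split_ifs at h6 <;> omega
      · have h6 : a = b := h
        rw [h6]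
    | refl a => rfl
    | symm a b _ ih => exact ih.symm
    | trans a b c _ _ i1 i2 => exact i1.trans i2
  have := key 3 5 h
  omega

theorem A9_pair (c f0 g0 : ℂ) :
    pairG 3 5 (c • Finsupp.mapDomain (St.ins 1) (Finsupp.single J f0 + Finsupp.single St.bot g0))
      (Finsupp.single St.bot 1) = c * f0 := by
  classical
  have hs : ∀ F : St →₀ ℂ, pairG 3 5 F (Finsupp.single St.bot 1) =
      F.sum fun R a => a * (if jn 3 5 R St.bot then 1 else 0) := by
    intro F
    unfold pairG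
    refine Finsupp.sum_congr fun R _ => ?_
    rw [Finsupp.sum_single_index]
    · simp
    · simp
  rw [hs, Finsupp.sum_smul_index' (by simp)]
  simp only [smul_eq_mul]
  rw [Finsupp.mapDomain_add, Finsupp.mapDomain_single, Finsupp.mapDomain_single,
    Finsupp.sum_add_index' (by simp) (by intro R b1 b2; ring)]
  rw [Finsupp.sum_single_index (by simp), Finsupp.sum_single_index (by simp)]
  rw [if_pos A9_jnJ, if_neg A9_jnbot]
  ring

theorem A9_alg (x y : ℂ) : fac q [x, 1, y, 0] *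
    ((1 - q^2 * x) * (x * 1 - q^2) * ((q * y - q^2 * 0) * (q * y * 0 - q^2))) =
    3 * q^2 * y * fac q [x, 0] * fac q [x, y] := by
  have h := q_spec
  unfold fac
  simp only [List.map_cons, List.map_nil, List.prod_cons, List.prod_nil]
  linear_combination ((q - q^2 * x) * (q * x - q^2)) * ((q - q^2 * y) * (q * y - q^2)) *
    ((q - q^2 * 0) * (q * 0 - q^2)) * y * (-3*q^4*x + 3*q^5 + 2*q^5*x + 3*q^5*x^2 - 3*q^6 -
      3*q^6*x^2 + q^7 - 3*q^7*x + q^7*x^2 + 3*q^8*x - q^9*x) * h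

theorem A9_h1 (x y : ℂ) : GR2 [x, q] [y] = pairG 3 5 (Psi [x, q, 1, 1, y, 0])
    (comb2 2 (Psi [x⁻¹, q⁻¹]) (Psi [y⁻¹, 0])) := by
  have e1 : ([x, q] : List ℂ).length = 2 := rfl
  have e2 : ([y] : List ℂ).length = 1 := rfl
  have e3 : (2 + 2 + 1 : ℕ) = 5 := rfl
  have e4 : (2 / 2 + 1 : ℕ) = 2 := rfl
  have e5 : ([x, q] : List ℂ).map (fun x => x⁻¹) = [x⁻¹, q⁻¹] := rfl
  have e6 : up1 [y] = Psi [y⁻¹, 0] := rfl
  have e7 : ([x, q] ++ 1 :: 1 :: ([y] ++ [0]) : List ℂ) = [x, q, 1, 1, y, 0] := rfl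
  unfold GR2
  rw [e1, e2, e3, e4, e5, e6, e7]

theorem t_A9 : S_A9 := by
  intro x y hx hy
  have h3 := q_cube
  have hq2 : q^2 * q = 1 := by linear_combination h3
  have h1 := A9_h1 x y
  have h2 : Psi [x, q, 1, 1, y, 0] = fac q [x, 1, y, 0] •
      Finsupp.mapDomain (St.ins 1) (Psi [x, 1, y, 0]) := by
    have := Psi_rec [x] [1, y, 0] q ⟨2, rfl⟩
    rw [hq2] at this
    exact this
  have h4 : GR2 [x, q] [y] = fac q [x, 1, y, 0] * f [x, 1, y, 0] := by
    rw [h1, h2, Psi_two, Psi_two, A9_comb2, Psi_four _ rfl, A9_pair]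
  have r1 : Z [x, q, 1, 0] = fac q [x, 0] := by
    have := Z_rec [x] [0] q ⟨1, rfl⟩
    rw [hq2] at this
    have e : ([x] ++ [0] : List ℂ) = [x, 0] := rfl
    rw [e, Z_two, mul_one] at this
    exact this
  have r2 : Z [x, q, 1, y] = fac q [x, y] := by
    have := Z_rec [x] [y] q ⟨1, rfl⟩
    rw [hq2] at this
    have e : ([x] ++ [y] : List ℂ) = [x, y] := rfl
    rw [e, Z_two, mul_one] at this
    exact this
  have h5 : RH [x, q] [y] = 3 * q^2 * y * fac q [x, 0] * fac q [x, y] := by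
    unfold RH
    have e1 : ([x, q] ++ [1, 0] : List ℂ) = [x, q, 1, 0] := rfl
    have e2 : ([y] ++ [1] : List ℂ) = [y, 1] := rfl
    have e3 : ([x, q] ++ 1 :: [y] : List ℂ) = [x, q, 1, y] := rfl
    rw [e1, e2, e3, r1, r2, Z_two]
    simp
  rw [h4, h5, f_formula]
  exact A9_alg x y

end Pool.Agent.H981R2.TP
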