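import Pool.Agent.H981R2.TP.Stubs

/-!
Project TP, task B21: the case `(2,1)` of the uniqueness lemma.
-/

namespace Pool.Agent.H981R2.TP

open Pool.Agent.H988R2.Perc hiding X
open Finset Polynomial

namespace B21

theorem generic (D : List ℂ → List ℂ → ℂ) (hD : Good D) (h0 : ∀ y : ℂ, y ≠ 0 → D [] [y] = 0)
    (h1 : ∀ x y : ℂ, x ≠ 0 → y ≠ 0 → D [x, q] [y] = 0)
    (x' y : ℂ) (hx' : x' ≠ 0) (hy : y ≠ 0) (h6 : x'^6 ≠ 1) :
    ∀ t : ℂ, t ≠ 0 → D [t, x'] [y] = 0 := by
  have hq0 := q_ne_zero
  have hq3 := q_cube
  have hq1 := q_ne_one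
  have nz : ∀ a b : ℂ, a ≠ 0 → b ≠ 0 → ∀ z ∈ [a] ++ [b], z ≠ 0 := by
    intro a b ha hb z hz
    simp only [List.cons_append, List.nil_append, List.mem_cons, List.not_mem_nil, or_false] at hz
    rcases hz with rfl | rfl
    · exact ha
    · exact hb
  obtain ⟨P, hPd, hP⟩ := hD.polyA [x'] [y] (by simp) (by simp) (nz x' y hx' hy)
  have hP' : ∀ t : ℂ, t ≠ 0 → P.eval t = D [t, x'] [y] := by
    intro t ht
    have := hP t ht
    simpa using this
  -- swap
  have sw : ∀ a b : ℂ, a ≠ 0 → b ≠ 0 → D [a, b] [y] = D [b, a] [y] := by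
    intro a b ha hb
    have := hD.swA [] [] [y] b a (by simp) (by simp) hb ha (by
      intro z hz
      simp only [List.append_nil, List.nil_append, List.mem_singleton] at hz
      rw [hz]; exact hy)
    simpa using this
  -- inversion
  have inv : ∀ t : ℂ, t ≠ 0 → D [t, x'] [y] = 0 → D [t⁻¹, x'] [y] = 0 := by
    intro t ht h
    have := hD.invA [x'] [y] t (by simp) (by simp) ht (nz x' y hx' hy)
    rw [h] at this
    have h2 : t ^ ([y].length + 3) ≠ 0 := pow_ne_zero _ ht
    rcases mul_eq_zero.mp this.symm with h3 | h3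
    · exact absurd h3 h2
    · exact h3
  -- pair recursion
  have pr : ∀ x : ℂ, x ≠ 0 → D [x, q^2 * x] [y] = 0 := by
    intro x hx
    have := hD.pairA [] [y] x (by simp) (by simp) hx (by
      intro z hz
      simp only [List.nil_append, List.mem_singleton] at hz
      rw [hz]; exact hy)
    rw [this, h0 y hy, mul_zero]
  have hz1 : D [q * x', x'] [y] = 0 := by
    have := pr (q * x') (mul_ne_zero hq0 hx')
    have h : q^2 * (q * x') = x' := by rw [← mul_assoc, ← pow_succ, hq3, one_mul]
    rwa [h] at this
  have hz2 : D [q^2 * x', x'] [y] = 0 := by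
    rw [sw _ _ (mul_ne_zero (pow_ne_zero 2 hq0) hx') hx']
    exact pr x' hx'
  have hz3 : D [(q * x')⁻¹, x'] [y] = 0 := inv _ (mul_ne_zero hq0 hx') hz1
  have hz4 : D [(q^2 * x')⁻¹, x'] [y] = 0 := inv _ (mul_ne_zero (pow_ne_zero 2 hq0) hx') hz2
  have hz5 : D [q, x'] [y] = 0 := by
    rw [sw _ _ hq0 hx']
    exact h1 x' y hx' hy
  -- five distinct zeros
  have hinj : Function.Injective (![q * x', q^2 * x', (q * x')⁻¹, (q^2 * x')⁻¹, q] : Fin 5 → ℂ) := by
    have e12 : q * x' ≠ q^2 * x' := by
      intro h
      have h2 := mul_right_cancel₀ hx' h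
      have h3 : q * 1 = q * q := by rw [mul_one, ← pow_two]; exact h2
      exact hq1 (mul_left_cancel₀ hq0 h3).symm
    have c1 : (q * x')^3 = x'^3 := by rw [mul_pow, hq3, one_mul]
    have c2 : (q^2 * x')^3 = x'^3 := by
      rw [mul_pow, ← pow_mul, mul_comm 2 3, pow_mul, hq3, one_pow, one_mul]
    have c3 : ((q * x')⁻¹)^3 = (x'^3)⁻¹ := by rw [inv_pow, c1]
    have c4 : ((q^2 * x')⁻¹)^3 = (x'^3)⁻¹ := by rw [inv_pow, c2]
    have hx3 : x'^3 ≠ 0 := pow_ne_zero 3 hx'
    have n1 : x'^3 ≠ (x'^3)⁻¹ := by
      intro h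
      apply h6
      have : x'^3 * x'^3 = 1 := by
        nth_rewrite 2 [h]
        exact mul_inv_cancel₀ hx3
      rw [← this]; ring
    have n2 : x'^3 ≠ 1 := by
      intro h
      apply h6
      have : x'^6 = x'^3 * x'^3 := by ring
      rw [this, h, one_mul]
    have n3 : (x'^3)⁻¹ ≠ 1 := by
      intro h
      exact n2 (inv_eq_one.mp h)
    have e13 : q * x' ≠ (q * x')⁻¹ := fun h => n1 (by
      have := congrArg (fun z => z^3) h
      simp only [c1, c3] at this
      exact this)
    have e14 : q * x' ≠ (q^2 * x')⁻¹ := fun h => n1 (by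
      have := congrArg (fun z => z^3) h
      simp only [c1, c4] at this
      exact this)
    have e15 : q * x' ≠ q := fun h => n2 (by
      have := congrArg (fun z => z^3) h
      simp only [c1, hq3] at this
      exact this)
    have e23 : q^2 * x' ≠ (q * x')⁻¹ := fun h => n1 (by
      have := congrArg (fun z => z^3) h
      simp only [c2, c3] at this
      exact this)
    have e24 : q^2 * x' ≠ (q^2 * x')⁻¹ := fun h => n1 (by
      have := congrArg (fun z => z^3) h
      simp only [c2, c4] at this
      exact this)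
    have e25 : q^2 * x' ≠ q := fun h => n2 (by
      have := congrArg (fun z => z^3) h
      simp only [c2, hq3] at this
      exact this)
    have e34 : (q * x')⁻¹ ≠ (q^2 * x')⁻¹ := fun h => e12 (inv_injective h)
    have e35 : (q * x')⁻¹ ≠ q := fun h => n3 (by
      have := congrArg (fun z => z^3) h
      simp only [c3, hq3] at this
      exact this)
    have e45 : (q^2 * x')⁻¹ ≠ q := fun h => n3 (by
      have := congrArg (fun z => z^3) h
      simp only [c4, hq3] at this
      exact this)
    intro i j hij
    fin_cases i <;> fin_cases j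
    · rfl
    · exact absurd hij e12
    · exact absurd hij e13
    · exact absurd hij e14
    · exact absurd hij e15
    · exact absurd hij e12.symm
    · rfl
    · exact absurd hij e23
    · exact absurd hij e24
    · exact absurd hij e25
    · exact absurd hij e13.symm
    · exact absurd hij e23.symm
    · rfl
    · exact absurd hij e34
    · exact absurd hij e35
    · exact absurd hij e14.symm
    · exact absurd hij e24.symm
    · exact absurd hij e34.symm
    · rfl
    · exact absurd hij e45
    · exact absurd hij e15.symm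
    · exact absurd hij e25.symm
    · exact absurd hij e35.symm
    · exact absurd hij e45.symm
    · rfl
  have hP0 : P = 0 := by
    refine Polynomial.eq_zero_of_natDegree_lt_card_of_eval_eq_zero P hinj ?_ ?_
    · intro i
      fin_cases i
      · show P.eval (q * x') = 0
        rw [hP' _ (mul_ne_zero hq0 hx'), hz1]
      · show P.eval (q^2 * x') = 0
        rw [hP' _ (mul_ne_zero (pow_ne_zero 2 hq0) hx'), hz2]
      · show P.eval ((q * x')⁻¹) = 0
        rw [hP' _ (inv_ne_zero (mul_ne_zero hq0 hx')), hz3]
      · show P.eval ((q^2 * x')⁻¹) = 0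
        rw [hP' _ (inv_ne_zero (mul_ne_zero (pow_ne_zero 2 hq0) hx')), hz4]
      · show P.eval q = 0
        rw [hP' _ hq0, hz5]
    · rw [Fintype.card_fin]
      simp only [List.length_singleton] at hPd
      omega
  intro t ht
  rw [← hP' t ht, hP0, Polynomial.eval_zero]

end B21

theorem t_B21 : S_B21 := by
  intro D hD h0 h1 x x' y hx hx' hy
  have gen := B21.generic D hD h0 h1
  have sw : ∀ a b : ℂ, a ≠ 0 → b ≠ 0 → D [a, b] [y] = D [b, a] [y] := by
    intro a b ha hb
    have := hD.swA [] [] [y] b a (by simp) (by simp) hb ha (by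
      intro z hz
      simp only [List.append_nil, List.nil_append, List.mem_singleton] at hz
      rw [hz]; exact hy)
    simpa using this
  obtain ⟨P, hPd, hP⟩ := hD.polyA [x'] [y] (by simp) (by simp) (by
    intro z hz
    simp only [List.cons_append, List.nil_append, List.mem_cons, List.not_mem_nil, or_false] at hz
    rcases hz with rfl | rfl
    · exact hx'
    · exact hy)
  have hP' : ∀ t : ℂ, t ≠ 0 → P.eval t = D [t, x'] [y] := by
    intro t ht
    have := hP t ht
    simpa using this
  have hP0 : P = 0 := by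
    refine Polynomial.eq_zero_of_infinite_isRoot P ?_
    have hfin : ({t : ℂ | t^6 = 1} ∪ {0}).Finite := by
      refine Set.Finite.union ?_ (Set.finite_singleton 0)
      have hne : (X^6 - 1 : ℂ[X]) ≠ 0 := by
        have := Polynomial.X_pow_sub_C_ne_zero (R := ℂ) (n := 6) (by norm_num) 1
        simpa using this
      refine (Polynomial.finite_setOfPred_isRoot hne).subset ?_
      intro t ht
      show Polynomial.IsRoot _ t
      simp only [Set.mem_ofPred_eq] at ht
      simp [Polynomial.IsRoot, ht]
    refine Set.Infinite.mono ?_ hfin.infinite_compl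
    intro t ht
    simp only [Set.mem_compl_iff, Set.mem_union, Set.mem_ofPred_eq, Set.mem_singleton_iff,
      not_or] at ht
    show Polynomial.IsRoot P t
    rw [Polynomial.IsRoot, hP' t ht.2, sw t x' ht.2 hx']
    exact gen t y ht.2 hy ht.1 x' hx'
  rw [← hP' x hx, hP0, Polynomial.eval_zero]

end Pool.Agent.H981R2.TP
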