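import Pool.Agent.H981R2.TP.Stubs

/-! Project TP, task C1: the upper left state, `a` even (no wired wall). -/

set_option autoImplicit false

namespace Pool.Agent.H981R2.TP

open Pool.Agent.H988R2.Perc hiding X
open Pool.Agent.H980R3.Slit (GP)
open Relation

namespace C1

open Pool.Agent.H988R2.Perc.T21

/-- adjacency by the open tiles of a set `S` of tiles, no wiring -/
def SA0 (o : ℕ → ℕ → Bool) (S : ℕ → ℕ → Prop) (a b : ℕ × ℕ) : Prop :=
  ∃ i k, S i k ∧ o k i = true ∧
    (((i + k) % 2 = 1 ∧ a = (i, k) ∧ b = (i-1, k+1)) ∨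
     ((i + k) % 2 = 0 ∧ a = (i-1, k) ∧ b = (i, k+1)))

theorem SA0_add (o : ℕ → ℕ → Bool) (S S' : ℕ → ℕ → Prop) (i k : ℕ) (p p' : ℕ × ℕ)
    (hS : ∀ i' k', S' i' k' ↔ (S i' k' ∨ (i' = i ∧ k' = k)))
    (hp : ((i + k) % 2 = 1 ∧ p = (i, k) ∧ p' = (i-1, k+1)) ∨
      ((i + k) % 2 = 0 ∧ p = (i-1, k) ∧ p' = (i, k+1))) (a b : ℕ × ℕ) :
    (SA0 o S a b ∨ (o k i = true ∧ a = p ∧ b = p')) ↔ SA0 o S' a b := by
  unfold SA0
  constructor
  · rintro (⟨i', k', h1, h2, h3⟩ | ⟨h1, h2, h3⟩)
    · exact ⟨i', k', (hS _ _).2 (Or.inl h1), h2, h3⟩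
    · refine ⟨i, k, (hS _ _).2 (Or.inr ⟨rfl, rfl⟩), h1, ?_⟩
      subst h2; subst h3; exact hp
  · rintro ⟨i', k', h1, h2, h3⟩
    rcases (hS _ _).1 h1 with h1 | ⟨rfl, rfl⟩
    · exact Or.inl ⟨i', k', h1, h2, h3⟩
    · refine Or.inr ⟨h2, ?_⟩
      rcases hp with ⟨hp, rfl, rfl⟩ | ⟨hp, rfl, rfl⟩ <;>
        rcases h3 with ⟨h3, h4, h5⟩ | ⟨h3, h4, h5⟩ <;>
        first
        | exact ⟨h4, h5⟩
        | (exfalso; omega)

theorem SA0_iso (o : ℕ → ℕ → Bool) (S : ℕ → ℕ → Prop) (v : ℕ × ℕ)
    (hS : ∀ i k, 1 ≤ i → S i k →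
      ((i + k) % 2 = 1 → v ≠ (i, k) ∧ v ≠ (i-1, k+1)) ∧
      ((i + k) % 2 = 0 → v ≠ (i-1, k) ∧ v ≠ (i, k+1)))
    (hS1 : ∀ i k, S i k → 1 ≤ i) :
    (∀ a, ¬ SA0 o S v a) ∧ (∀ a, ¬ SA0 o S a v) := by
  constructor
  · rintro a ⟨i, k, h1, _, ⟨h3, h4, h5⟩ | ⟨h3, h4, h5⟩⟩
    · exact ((hS i k (hS1 i k h1) h1).1 h3).1 h4
    · exact ((hS i k (hS1 i k h1) h1).2 h3).1 h4
  · rintro a ⟨i, k, h1, _, ⟨h3, h4, h5⟩ | ⟨h3, h4, h5⟩⟩
    · exact ((hS i k (hS1 i k h1) h1).1 h3).2 h5
    · exact ((hS i k (hS1 i k h1) h1).2 h3).2 h5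

theorem rep_ins {L t : ℕ} (ht : t % 2 = 0) {o : ℕ → ℕ → Bool} {R : St}
    (h : Rep L R (SA0 o (fun j k => 1 ≤ j ∧ j ≤ L ∧ k < t)) (fun a => (a, t))) :
    Rep (L+2) (R.ins 0) (SA0 o (SF L t 0)) (fF t 0) := by
  have hE : ∀ a b, SA0 o (fun j k => 1 ≤ j ∧ j ≤ L ∧ k < t) a b ↔ SA0 o (SF L t 0) a b := by
    intro a b
    have : (fun j k => 1 ≤ j ∧ j ≤ L ∧ k < t) = SF L t 0 := by
      funext j k
      apply propext
      unfold SF
      constructor
      · rintro ⟨h1, h2, h3⟩; exact ⟨h1, h2, Or.inl h3⟩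
      · rintro ⟨h1, h2, h3 | ⟨_, h3⟩⟩
        · exact ⟨h1, h2, h3⟩
        · omega
    rw [this]
  have hv := SA0_iso o (SF L t 0) (0, t+1)
    (by
      rintro i k hi ⟨h1, h2, h3⟩
      refine ⟨fun _ => ⟨?_, ?_⟩, fun _ => ⟨?_, ?_⟩⟩ <;>
      · intro h
        simp only [Prod.mk.injEq] at h
        omega)
    (by rintro i k ⟨h, _⟩; exact h)
  intro a b ha hb haL hbL
  by_cases ha1 : a = 1
  · by_cases hb1 : b = 1
    · subst ha1; subst hb1
      simp [EqvGen.refl, rel_refl]
    · constructor
      · rintro (h | ⟨_, _, h, _⟩)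
        · omega
        · exact absurd ha1 h
      · intro h
        exfalso
        rcases eqvGen_iso _ _ hv.1 hv.2 h with h | ⟨h, _⟩
        · simp only [fF] at h
          split_ifs at h <;> simp only [Prod.mk.injEq] at h <;> omega
        · apply h
          simp [fF, ha1]
  · by_cases hb1 : b = 1
    · constructor
      · rintro (h | ⟨_, _, _, h, _⟩)
        · omega
        · exact absurd hb1 h
      · intro h
        exfalso
        rcases eqvGen_iso _ _ hv.1 hv.2 h with h | ⟨_, h⟩
        · simp only [fF] at h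
          split_ifs at h <;> simp only [Prod.mk.injEq] at h <;> omega
        · apply h
          simp [fF, hb1]
    · have e1 : fF t 0 a = (a-2, t) := by
        unfold fF; rw [if_neg (by omega)]
      have e2 : fF t 0 b = (b-2, t) := by
        unfold fF; rw [if_neg (by omega)]
      rw [e1, e2]
      have := h (a-2) (b-2) (by omega) (by omega) (by omega) (by omega)
      simp only at this
      rw [← eqvGen_congr hE, ← this]
      have e3 : St.low 0 a = a - 2 := by
        unfold St.low; rw [if_neg (by omega)]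
      have e4 : St.low 0 b = b - 2 := by
        unfold St.low; rw [if_neg (by omega)]
      constructor
      · rintro (h | ⟨_, _, _, _, h⟩)
        · subst h; exact rel_refl R _
        · rw [e3, e4] at h; exact h
      · intro h
        refine Or.inr ⟨ha, hb, by omega, by omega, ?_⟩
        rw [e3, e4]; exact h

theorem rep_fwd {L t : ℕ} (ht : t % 2 = 0) {o : ℕ → ℕ → Bool} {R : St}
    (h : Rep (L+2) R (SA0 o (SF L t 0)) (fF t 0)) (i : ℕ) (hi : i ≤ L) :
    Rep (L+2) (fwdS i (actBit o t) R) (SA0 o (SF L t i)) (fF t i) := by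
  induction i with
  | zero => simpa [fwdS] using h
  | succ i ih =>
    have ih := ih (by omega)
    simp only [fwdS]
    have hSadd : ∀ i' k', SF L t (i+1) i' k' ↔ (SF L t i i' k' ∨ (i' = i+1 ∧ k' = t)) := by
      intro i' k'; unfold SF; omega
    by_cases hodd : (i+1) % 2 = 1
    · have hact : actBit o t (i+1) = o t (i+1) := by
        unfold actBit; rw [if_pos hodd]
      rw [hact]
      have key := ih.join (i := i+1) hodd (by omega) (o t (i+1)) (i+1, t) (i+1-1, t+1)
        (by
          right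
          constructor
          · unfold fF; rw [if_neg (by omega)]; simp
          · unfold fF; rw [if_pos (by omega)])
      refine key.congr ?_ ?_
      · intro a b
        exact SA0_add o (SF L t i) (SF L t (i+1)) (i+1) t _ _ hSadd
          (Or.inl ⟨by omega, rfl, rfl⟩) a b
      · intro a ha haL
        unfold fF
        by_cases h1 : a ≤ i + 1
        · rw [if_pos h1, if_pos (by omega)]
        · rw [if_neg h1, if_neg (by omega)]
    · have hact : actBit o t (i+1) = !(o t (i+1)) := by
        unfold actBit; rw [if_neg hodd]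
      rw [hact]
      have hv := SA0_iso o (SF L t i) (i+1, t+1)
        (by
          rintro i' k hi ⟨h1, h2, h3⟩
          refine ⟨fun _ => ⟨?_, ?_⟩, fun _ => ⟨?_, ?_⟩⟩ <;>
          · intro h
            simp only [Prod.mk.injEq] at h
            omega)
        (by rintro i k ⟨h, _⟩; exact h)
      have key := ih.move (i := i+1) (α' := fF t (i+1)) (by omega) (o t (i+1))
        (i+1, t+1) hv.1 hv.2
        (by unfold fF; rw [if_pos (by omega)]; simp)
        (by
          intro a ha haL hai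
          unfold fF
          by_cases h1 : a ≤ i + 1
          · rw [if_pos h1, if_pos (by omega)]
          · rw [if_neg h1, if_neg (by omega)])
        (by
          intro a ha haL h
          unfold fF at h
          split_ifs at h <;> simp only [Prod.mk.injEq] at h <;> omega)
      refine key.congr ?_ ?_
      · intro a b
        have e : fF t i (i+1+1) = (i+1-1, t) := by
          unfold fF; rw [if_neg (by omega)]; simp
        rw [e]
        exact SA0_add o (SF L t i) (SF L t (i+1)) (i+1) t _ _ hSadd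
          (Or.inr ⟨by omega, rfl, rfl⟩) a b
      · intro a ha haL; rfl

theorem rep_turn {L t : ℕ} (hL : L % 2 = 0) {o : ℕ → ℕ → Bool} {R : St}
    (h : Rep (L+2) R (SA0 o (SF L t L)) (fF t L)) :
    Rep (L+2) R (SA0 o (SB L t L)) (fB t L) := by
  have hE : SF L t L = SB L t L := by
    funext j k
    apply propext
    unfold SF SB
    omega
  rw [hE] at h
  refine h.congr (fun _ _ => Iff.rfl) ?_
  intro a ha haL
  unfold fF fB
  rw [if_pos (by omega), if_pos (by omega)]

theorem rep_bwd {L t : ℕ} (ht : t % 2 = 0) {o : ℕ → ℕ → Bool} (i : ℕ)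
    (hi : i ≤ L) : ∀ {R : St}
    (_ : Rep (L+2) R (SA0 o (SB L t i)) (fB t i)),
    Rep (L+2) (bwdS i (actBit o (t+1)) R) (SA0 o (SB L t 0)) (fB t 0) := by
  induction i with
  | zero => intro R h; simpa [bwdS] using h
  | succ i ih =>
    intro R h
    simp only [bwdS]
    apply ih (by omega)
    have hSadd : ∀ i' k', SB L t i i' k' ↔ (SB L t (i+1) i' k' ∨ (i' = i+1 ∧ k' = t+1)) := by
      intro i' k'; unfold SB; omega
    by_cases hodd : (i+1) % 2 = 1
    · have hact : actBit o (t+1) (i+1) = o (t+1) (i+1) := by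
        unfold actBit; rw [if_pos hodd]
      rw [hact]
      have key := h.join (i := i+1) hodd (by omega) (o (t+1) (i+1)) (i+1-1, t+1) (i+1, t+1+1)
        (by
          left
          constructor
          · unfold fB; rw [if_pos (by omega)]
          · unfold fB; rw [if_neg (by omega)]; simp)
      refine key.congr ?_ ?_
      · intro a b
        exact SA0_add o (SB L t (i+1)) (SB L t i) (i+1) (t+1) _ _ hSadd
          (Or.inr ⟨by omega, rfl, rfl⟩) a b
      · intro a ha haL
        unfold fB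
        by_cases h1 : a ≤ i + 1
        · rw [if_pos (by omega), if_pos (by omega)]
        · rw [if_neg (by omega), if_neg (by omega)]
    · have hact : actBit o (t+1) (i+1) = !(o (t+1) (i+1)) := by
        unfold actBit; rw [if_neg hodd]
      rw [hact]
      have hv := SA0_iso o (SB L t (i+1)) (i, t+2)
        (by
          rintro i' k hi ⟨h1, h2, h3⟩
          refine ⟨fun _ => ⟨?_, ?_⟩, fun _ => ⟨?_, ?_⟩⟩ <;>
          · intro h
            simp only [Prod.mk.injEq] at h
            omega)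
        (by rintro i k ⟨h, _⟩; exact h)
      have key := h.move (i := i+1) (α' := fB t i) (by omega) (o (t+1) (i+1))
        (i, t+2) hv.1 hv.2
        (by unfold fB; rw [if_neg (by omega)]; simp)
        (by
          intro a ha haL hai
          unfold fB
          by_cases h1 : a ≤ i + 1
          · rw [if_pos h1, if_pos (by omega)]
          · rw [if_neg h1, if_neg (by omega)])
        (by
          intro a ha haL h
          unfold fB at h
          split_ifs at h <;> simp only [Prod.mk.injEq] at h <;> omega)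
      refine key.congr ?_ ?_
      · intro a b
        have e : fB t (i+1) (i+1+1) = (i+1, t+1) := by
          unfold fB; rw [if_pos (by omega)]; simp
        rw [e]
        exact SA0_add o (SB L t (i+1)) (SB L t i) (i+1) (t+1) _ _ hSadd
          (Or.inl ⟨by omega, rfl, by simp⟩) a b
      · intro a ha haL; rfl

theorem rep_cap {L t : ℕ} {o : ℕ → ℕ → Bool} {R : St}
    (h : Rep (L+2) R (SA0 o (SB L t 0)) (fB t 0)) :
    Rep L (R.cap 0) (SA0 o (fun j k => 1 ≤ j ∧ j ≤ L ∧ k < t+2)) (fun a => (a, t+2)) := by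
  intro a b ha hb haL hbL
  have hE : SB L t 0 = (fun j k => 1 ≤ j ∧ j ≤ L ∧ k < t+2) := by
    funext j k
    apply propext
    unfold SB
    omega
  rw [hE] at h
  have h1 := h (a+2) (b+2) (by omega) (by omega) (by omega) (by omega)
  have e1 : fB t 0 (a+2) = (a, t+2) := by
    unfold fB; rw [if_neg (by omega)]; simp
  have e2 : fB t 0 (b+2) = (b, t+2) := by
    unfold fB; rw [if_neg (by omega)]; simp
  rw [e1, e2] at h1
  rw [← h1]
  change (R.act 0).rel (St.up 0 a) (St.up 0 b) ↔ _
  rw [up_zero a ha, up_zero b hb, act_rel_even R 0 _ _ rfl (by omega) (by omega)]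
  constructor
  · rintro (h | ⟨_, _, h⟩)
    · rw [h]; exact rel_refl R _
    · exact h
  · intro h
    exact Or.inr ⟨by omega, by omega, h⟩

theorem rep_X (L : ℕ) (hL : L % 2 = 0) (o : ℕ → ℕ → Bool) (M : ℕ) :
    Rep L (Pool.Agent.H988R2.Perc.X L (actBit o) M) (SA0 o (fun j k => 1 ≤ j ∧ j ≤ L ∧ k < 2*M))
      (fun a => (a, 2*M)) := by
  induction M with
  | zero =>
    intro a b ha hb haL hbL
    change a = b ↔ _
    constructor
    · rintro rfl; exact EqvGen.refl _
    · intro h
      have key : ∀ x y : ℕ × ℕ, EqvGen (SA0 o (fun j k => 1 ≤ j ∧ j ≤ L ∧ k < 2*0)) x y →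
          x = y := by
        intro x y h
        induction h with
        | rel a b h =>
          obtain ⟨i, k, ⟨_, _, h⟩, _⟩ := h
          omega
        | refl a => rfl
        | symm a b _ ih => exact ih.symm
        | trans a b d _ _ ih1 ih2 => exact ih1.trans ih2
      have := key _ _ h
      simpa using this
  | succ M ih =>
    simp only [Pool.Agent.H988R2.Perc.X]
    have h1 := rep_ins (t := 2*M) (by omega) ih
    have h2 := rep_fwd (t := 2*M) (by omega) h1 L le_rfl
    have h3 := rep_turn (t := 2*M) hL h2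
    have h4 := rep_bwd (t := 2*M) (by omega) L le_rfl h3
    have h5 := rep_cap h4
    exact h5

theorem X_sem0 (L : ℕ) (hL : Even L) (M : ℕ) (o : ℕ → ℕ → Bool) (a b : ℕ) (ha : a % 2 = 1)
    (hb : b % 2 = 1) (haL : a ≤ L) (hbL : b ≤ L) :
    (Pool.Agent.H988R2.Perc.X L (actBit o) M).rel a b ↔
      EqvGen (StripAdj L (2*M) o) (a, 2*M) (b, 2*M) := by
  have h := rep_X L (Nat.even_iff.mp hL) o M a b ha hb haL hbL
  rw [h]
  apply eqvGen_congr
  intro x y
  unfold SA0 StripAdj
  constructor
  · rintro ⟨i, k, ⟨h1, h2, h3⟩, h4, h5⟩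
    exact ⟨i, k, h1, h2, h3, h4, h5⟩
  · rintro ⟨i, k, h1, h2, h3, h4, h5⟩
    exact ⟨i, k, ⟨h1, h2, h3⟩, h4, h5⟩

/-- faces beyond `L` are isolated (no parity assumption) -/
theorem X_supp0 (L : ℕ) (M : ℕ) (c : ℕ → ℕ → Bool) (a b : ℕ)
    (h : (Pool.Agent.H988R2.Perc.X L c M).rel a b) : a = b ∨ (a ≤ L ∧ b ≤ L) := by
  induction M generalizing a b with
  | zero => exact Or.inl h
  | succ M ih =>
    simp only [Pool.Agent.H988R2.Perc.X] at h
    have h1 : ∀ a b, ((Pool.Agent.H988R2.Perc.X L c M).ins 0).rel a b →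
        a = b ∨ (a ≤ L+2 ∧ b ≤ L+2) := by
      rintro a b (h | ⟨ha, hb, _, _, h⟩)
      · exact Or.inl h
      · have := ih _ _ h
        unfold St.low at this
        rw [if_neg (by omega), if_neg (by omega)] at this
        omega
    have h2 := T21.supp_fwd (c (2*M)) L le_rfl h1
    have h3 := T21.supp_bwd (c (2*M+1)) L le_rfl h2
    have h4 := T21.supp_act (i := 0) (by omega) h3
    have h5 := h4 _ _ h
    unfold St.up at h5
    split_ifs at h5 <;> omega

end C1

/-- task C1 -/
theorem t_C1 : S_C1 := by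
  intro L M ω a b hL ha hb haL hbL
  rw [C1.X_sem0 L hL M (oFut ω M) a b ha hb haL hbL]
  constructor
  · intro h
    have := T22.eqvGen_map (F := F1 L M ω)
      (fun p : ℕ × ℕ => (((p.1 : ℤ), 2 * M - (p.2 : ℤ)) : ℤ × ℤ)) ?_ h
    · simpa using this
    · rintro p p' ⟨i, k, h1, h2, h3, h4, h5⟩
      apply Relation.EqvGen.symm
      refine Relation.EqvGen.rel _ _ ⟨i, 2 * M - 1 - k, by omega, by omega, by omega,
        by omega, h4, ?_⟩
      rcases h5 with ⟨e1, e2, e3⟩ | ⟨e1, e2, e3⟩
      · right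
        subst e2 e3
        refine ⟨by omega, ?_, ?_⟩
        · apply Prod.ext <;> simp <;> omega
        · apply Prod.ext <;> simp <;> omega
      · left
        subst e2 e3
        refine ⟨by omega, ?_, ?_⟩
        · apply Prod.ext <;> simp <;> omega
        · apply Prod.ext <;> simp <;> omega
  · intro h
    have := T22.eqvGen_map (F := StripAdj L (2*M) (oFut ω M))
      (fun p : ℤ × ℤ => ((p.1.toNat, (2 * M - p.2).toNat) : ℕ × ℕ)) ?_ h
    · have e : (2 * (M : ℤ) - 0).toNat = 2 * M := by omega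
      simp only [Int.toNat_natCast, e] at this
      exact this
    · rintro p p' ⟨i, r, h1, h2, h3, h4, h5, h6⟩
      apply Relation.EqvGen.symm
      refine Relation.EqvGen.rel _ _ ⟨i.toNat, (2 * M - 1 - r).toNat, by omega, by omega,
        by omega, ?_, ?_⟩
      · unfold oFut
        have e1 : ((i.toNat : ℕ) : ℤ) = i := by omega
        have e2 : 2 * (M : ℤ) - 1 - (((2 * (M : ℤ) - 1 - r).toNat : ℕ) : ℤ) = r := by omega
        rw [e1, e2]; exact h5
      · rcases h6 with ⟨e1, e2, e3⟩ | ⟨e1, e2, e3⟩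
        · right
          subst e2 e3
          refine ⟨by omega, ?_, ?_⟩
          · apply Prod.ext <;> simp <;> omega
          · apply Prod.ext <;> simp <;> omega
        · left
          subst e2 e3
          refine ⟨by omega, ?_, ?_⟩
          · apply Prod.ext <;> simp <;> omega
          · apply Prod.ext <;> simp <;> omega

end Pool.Agent.H981R2.TP
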