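import Pool.Agent.H981R2.TP.Stubs

/-! C10: probability of the window event of the slit strip with the tip (adapted from helper605). -/

namespace Pool.Agent.H981R2.TP

open Pool.Agent.H988R2.Perc hiding X
open MeasureTheory Finset

namespace C10

/-- the state map of the strip -/

theorem X_futR (a b M : ℕ) (ω : Conf) :
    Pool.Agent.H988R2.Perc.X b (actBit (oFutR2 a ω M)) M = Pool.Agent.H988R2.Perc.X b (actBit (T23.bits (tR2 a b M ω))) M := by
  apply T23.X_congr
  intro k i hk h1 h2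
  have : oFutR2 a ω M k i = T23.bits (tR2 a b M ω) k i := by
    have hm : (k, i) ∈ T23.SS b M := by rw [T23.mem_SS]; exact ⟨hk, h1, h2⟩
    simp only [oFutR2, T23.bits, tR2, mem_filter, hm, true_and]
    cases ω (edgeOf ((i : ℤ) + (a + 2)) (2 * (M : ℤ) - 1 - k)) <;> simp
  simp only [actBit, this]

abbrev Tr := Finset (ℕ × ℕ) × (Finset (ℕ × ℕ) × Finset (ℕ × ℕ))

open Classical in
/-- the good cells -/
noncomputable def good4 (a b M : ℕ) : Finset Tr :=
  ((T23.SS (a+b+2) M).powerset ×ˢ ((T23.SS a M).powerset ×ˢ (T23.SS b M).powerset)).filter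
    (fun p => conn4 a b (Pool.Agent.H988R2.Perc.X (a+b+2) (actBit (T23.bits p.1)) M) (Pool.Agent.H988R2.Perc.X a (actBit (T23.bits p.2.1)) M)
      (Pool.Agent.H988R2.Perc.X b (actBit (T23.bits p.2.2)) M))

theorem mem_good4 {a b M : ℕ} {p : Tr} :
    p ∈ good4 a b M ↔ (p.1 ⊆ T23.SS (a+b+2) M ∧ p.2.1 ⊆ T23.SS a M ∧ p.2.2 ⊆ T23.SS b M) ∧
      conn4 a b (Pool.Agent.H988R2.Perc.X (a+b+2) (actBit (T23.bits p.1)) M) (Pool.Agent.H988R2.Perc.X a (actBit (T23.bits p.2.1)) M)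
        (Pool.Agent.H988R2.Perc.X b (actBit (T23.bits p.2.2)) M) := by
  classical
  unfold good4
  rw [Finset.mem_filter, Finset.mem_product, Finset.mem_product, Finset.mem_powerset,
    Finset.mem_powerset, Finset.mem_powerset]

theorem winT_eq (a b M : ℕ) :
    WinT a b M = ⋃ p ∈ good4 a b M, cell4 a b M p.1 p.2.1 p.2.2 := by
  ext ω
  simp only [WinT, Set.mem_ofPred_eq, Set.mem_iUnion, exists_prop]
  rw [T23.X_past, T23.X_fut, X_futR]
  constructor
  · intro h
    refine ⟨(T23.tP (a+b+2) M ω, T23.tF a M ω, tR2 a b M ω), ?_, rfl, rfl, rfl⟩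
    rw [mem_good4]
    exact ⟨⟨filter_subset _ _, filter_subset _ _, filter_subset _ _⟩, h⟩
  · rintro ⟨⟨p1, p2, p3⟩, hp, h1, h2, h3⟩
    simp only at h1 h2 h3
    subst h1 h2 h3
    rw [mem_good4] at hp
    exact hp.2

open Classical in
theorem sum_good4 (a b M : ℕ) :
    (∑ t0 ∈ (T23.SS (a+b+2) M).powerset, ∑ t1 ∈ (T23.SS a M).powerset,
        ∑ t2 ∈ (T23.SS b M).powerset,
        (if conn4 a b (Pool.Agent.H988R2.Perc.X (a+b+2) (actBit (T23.bits t0)) M) (Pool.Agent.H988R2.Perc.X a (actBit (T23.bits t1)) M)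
          (Pool.Agent.H988R2.Perc.X b (actBit (T23.bits t2)) M) then (1 : ℂ) else 0)) = ((good4 a b M).card : ℂ) := by
  unfold good4
  rw [Finset.natCast_card_filter, Finset.sum_product]
  refine Finset.sum_congr rfl fun t0 _ => ?_
  rw [Finset.sum_product]

end C10

open C10 in
theorem t_C10 (h8 : S_C8) (h9 : S_C9) : S_C10 := by
  intro a b M _ _
  have hc : ∀ p ∈ good4 a b M, MeasurableSet (cell4 a b M p.1 p.2.1 p.2.2) ∧
      perc (cell4 a b M p.1 p.2.1 p.2.2) = (1/2) ^ (2*M*(a+b+2) + 2*M*a + 2*M*b) := by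
    intro p hp
    obtain ⟨⟨h1, h2, h3⟩, _⟩ := mem_good4.1 hp
    exact h8 a b M p.1 p.2.1 p.2.2 h1 h2 h3
  rw [T23.law_eq, T23.law_eq, T23.law_eq, h9, winT_eq, measureReal_biUnion_finset]
  · have h1 : ∀ p ∈ good4 a b M, perc.real (cell4 a b M p.1 p.2.1 p.2.2) =
        (1/2 : ℝ)^(2*M*(a+b+2) + 2*M*a + 2*M*b) := by
      intro p hp
      rw [measureReal_def, (hc p hp).2]
      simp
    rw [Finset.sum_congr rfl h1, Finset.sum_const, nsmul_eq_mul]
    rw [sum_good4]
    push_cast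
    rw [← pow_add, ← pow_add, mul_comm]
  · intro p _ p' _ hne
    rw [Function.onFun, Set.disjoint_left]
    rintro ω ⟨h1, h2, h3⟩ ⟨h4, h5, h6⟩
    exact hne (Prod.ext (h1.symm.trans h4) (Prod.ext (h2.symm.trans h5) (h3.symm.trans h6)))
  · intro p hp
    exact (hc p hp).1

end Pool.Agent.H981R2.TP
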