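import Pool.Agent.H981R2.TP.Stubs

/-! C11 (helper596; adapted from H980R3/Slit/C11 of helper666): trilinearity and bound. -/

set_option autoImplicit false

namespace Pool.Agent.H981R2.TP

open Pool.Agent.H988R2.Perc hiding X
open Pool.Agent.H492C
open Filter Topology MeasureTheory Relation

namespace C11

theorem add1 (a b : ℕ) (f f' g h : St →₀ ℂ) :
    pair4 a b (f + f') g h = pair4 a b f g h + pair4 a b f' g h := by
  classical
  unfold pair4
  refine Finsupp.sum_add_index' (fun R => by simp) (fun R x y => ?_)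
  rw [← Finsupp.sum_add]
  refine Finsupp.sum_congr fun R1 _ => ?_
  rw [← Finsupp.sum_add]
  refine Finsupp.sum_congr fun R2 _ => ?_
  ring

theorem add2 (a b : ℕ) (f g g' h : St →₀ ℂ) :
    pair4 a b f (g + g') h = pair4 a b f g h + pair4 a b f g' h := by
  classical
  unfold pair4
  rw [← Finsupp.sum_add]
  refine Finsupp.sum_congr fun R _ => ?_
  refine Finsupp.sum_add_index' (fun R => by simp) (fun R x y => ?_)
  rw [← Finsupp.sum_add]
  refine Finsupp.sum_congr fun R2 _ => ?_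
  ring

theorem add3 (a b : ℕ) (f g h h' : St →₀ ℂ) :
    pair4 a b f g (h + h') = pair4 a b f g h + pair4 a b f g h' := by
  classical
  unfold pair4
  rw [← Finsupp.sum_add]
  refine Finsupp.sum_congr fun R _ => ?_
  rw [← Finsupp.sum_add]
  refine Finsupp.sum_congr fun R1 _ => ?_
  refine Finsupp.sum_add_index' (fun R => by simp) (fun R x y => ?_)
  ring

theorem smul1 (a b : ℕ) (c : ℂ) (f g h : St →₀ ℂ) :
    pair4 a b (c • f) g h = c * pair4 a b f g h := by
  classical
  unfold pair4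
  rw [Finsupp.sum_smul_index' (fun R => by simp), Finsupp.mul_sum]
  refine Finsupp.sum_congr fun R _ => ?_
  rw [Finsupp.mul_sum]
  refine Finsupp.sum_congr fun R1 _ => ?_
  rw [Finsupp.mul_sum]
  refine Finsupp.sum_congr fun R2 _ => ?_
  simp only [smul_eq_mul]
  ring

theorem smul2 (a b : ℕ) (c : ℂ) (f g h : St →₀ ℂ) :
    pair4 a b f (c • g) h = c * pair4 a b f g h := by
  classical
  unfold pair4
  rw [Finsupp.mul_sum]
  refine Finsupp.sum_congr fun R _ => ?_
  rw [Finsupp.sum_smul_index' (fun R => by simp), Finsupp.mul_sum]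
  refine Finsupp.sum_congr fun R1 _ => ?_
  rw [Finsupp.mul_sum]
  refine Finsupp.sum_congr fun R2 _ => ?_
  simp only [smul_eq_mul]
  ring

theorem smul3 (a b : ℕ) (c : ℂ) (f g h : St →₀ ℂ) :
    pair4 a b f g (c • h) = c * pair4 a b f g h := by
  classical
  unfold pair4
  rw [Finsupp.mul_sum]
  refine Finsupp.sum_congr fun R _ => ?_
  rw [Finsupp.mul_sum]
  refine Finsupp.sum_congr fun R1 _ => ?_
  rw [Finsupp.sum_smul_index' (fun R => by simp), Finsupp.mul_sum]
  refine Finsupp.sum_congr fun R2 _ => ?_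
  simp only [smul_eq_mul]
  ring

theorem bound (a b : ℕ) (f g h : St →₀ ℂ) :
    ‖pair4 a b f g h‖ ≤ T24.nrm f * T24.nrm g * T24.nrm h := by
  classical
  unfold pair4 T24.nrm
  rw [mul_assoc, Finsupp.sum, Finsupp.sum, Finset.sum_mul]
  refine (norm_sum_le _ _).trans (Finset.sum_le_sum fun R _ => ?_)
  rw [Finsupp.sum, Finsupp.sum, Finset.sum_mul, Finset.mul_sum]
  refine (norm_sum_le _ _).trans (Finset.sum_le_sum fun R1 _ => ?_)
  rw [Finsupp.sum, Finsupp.sum, Finset.mul_sum, Finset.mul_sum]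
  refine (norm_sum_le _ _).trans (Finset.sum_le_sum fun R2 _ => ?_)
  rw [norm_mul, norm_mul, norm_mul]
  have : ‖(if conn4 a b R R1 R2 then (1:ℂ) else 0)‖ ≤ 1 := by
    split_ifs <;> simp
  calc ‖f R‖ * ‖g R1‖ * ‖h R2‖ * ‖(if conn4 a b R R1 R2 then (1:ℂ) else 0)‖
      ≤ ‖f R‖ * ‖g R1‖ * ‖h R2‖ * 1 :=
        mul_le_mul_of_nonneg_left this (by positivity)
    _ = ‖f R‖ * (‖g R1‖ * ‖h R2‖) := by ring

end C11

theorem t_C11 : S_C11 :=
  ⟨C11.add1, C11.add2, C11.add3, C11.smul1, C11.smul2, C11.smul3, C11.bound⟩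

end Pool.Agent.H981R2.TP
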