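import Pool.Agent.H981R2.TP.Stubs
import Pool.Agent.H988R2.Perc.T16
import Pool.Agent.H988R2.Perc.T19
import Pool.Agent.H988R2.Perc.T20
import Pool.Agent.H988R2.Perc.T25

/-! Project TP, task C12: the law of the even strip converges. -/

namespace Pool.Agent.H981R2.TP

open Pool.Agent.H988R2.Perc hiding X
open Pool.Agent.H988R2.Perc.T24
open Finset Filter Topology

namespace C12

theorem gT_bot' {L : ℕ} (hL : Even L) {R : St} (hR : Bd (L+1) R) : gT L R = St.bot := by
  have hL2 : L % 2 = 0 := Nat.even_iff.mp hL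
  have h1 : gfwd L (St.ins 0 R) = St.bot := by
    apply St.ext
    funext a b
    apply propext
    constructor
    · intro h
      change a = b
      rcases gfwd_rel L _ a b h with h | ⟨h1, h2⟩
      · exact h
      · rcases h1 with h | ⟨o1, o2, n1, n2, h⟩
        · exact h
        · rcases hR _ _ h with h | ⟨l1, l2⟩
          · unfold St.low at h
            split_ifs at h <;> omega
          · exfalso
            unfold St.low at l1
            have := (h2 (a - 1) (by omega) (by split_ifs at l1 <;> omega) (by omega)).1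
            omega
    · intro h
      change a = b at h
      subst h
      exact (gfwd L (St.ins 0 R)).eqv.refl a
  unfold gT
  rw [h1, gbwd_bot]
  apply St.ext
  funext a b
  apply propext
  constructor
  · intro h
    change (St.act 0 St.bot).rel (St.up 0 a) (St.up 0 b) at h
    rw [act_even_bot (by norm_num)] at h
    change St.up 0 a = St.up 0 b at h
    change a = b
    unfold St.up at h
    split_ifs at h <;> omega
  · intro h
    change a = b at h
    subst h
    exact (St.cap 0 St.bot).eqv.refl a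

theorem mapDomain_gT' {L : ℕ} (hL : Even L) {f : St →₀ ℂ} (hf : BdV (L+1) f) :
    Finsupp.mapDomain (gT L) f = Finsupp.single St.bot (mass f) := by
  unfold Finsupp.mapDomain mass
  rw [Finsupp.sum, Finsupp.sum, Finsupp.single_finsetSum]
  refine Finset.sum_congr rfl fun R hR => ?_
  rw [gT_bot' hL (hf R hR)]

theorem contract' {L : ℕ} (hL : Even L) {f : St →₀ ℂ} (hf : BdV (L+1) f) (hm : mass f = 0) :
    nrm (Tvec L f) ≤ (1 - (1/2)^L * (1/2)^L) * nrm f := by
  have h := (dob_Tvec L).dec f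
  rw [mapDomain_gT' hL hf, hm, Finsupp.single_zero, smul_zero, sub_zero] at h
  exact h

theorem iter_bound' {L : ℕ} (hL : Even L) {f : St →₀ ℂ} (hf : BdV (L+1) f) (hm : mass f = 0)
    (M : ℕ) : nrm ((Tvec L)^[M] f) ≤ (1 - (1/2)^L * (1/2)^L)^M * nrm f ∧
      BdV (L+1) ((Tvec L)^[M] f) ∧ mass ((Tvec L)^[M] f) = 0 := by
  induction M with
  | zero => simp [hf, hm]
  | succ M ih =>
    obtain ⟨h1, h2, h3⟩ := ih
    rw [Function.iterate_succ_apply']
    refine ⟨(contract' hL h2 h3).trans ?_, h2.Tvec, by rw [(dob_Tvec L).mass, h3]⟩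
    rw [pow_succ, mul_comm ((1 - (1/2)^L * (1/2)^L)^M) (1 - (1/2)^L * (1/2)^L), mul_assoc]
    exact mul_le_mul_of_nonneg_left h1 (by linarith [(dob_Tvec L).le])

theorem law_tendsto (L : ℕ) (hL : Even L) (v : St →₀ ℂ) (hT : Tvec L v = v)
    (hs : ∀ R ∈ v.support, ∀ a b, R.rel a b → a = b ∨ (a < L + 1 ∧ b < L + 1))
    (hm : mass v ≠ 0) :
    Tendsto (fun M => nrm (law L M + (-1 : ℂ) • ((mass v)⁻¹ • v))) atTop (𝓝 0) := by
  set w : St →₀ ℂ := (mass v)⁻¹ • v with hw
  have hwT : Tvec L w = w := by rw [hw, (dob_Tvec L).smul, hT]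
  have hwm : mass w = 1 := by rw [hw, T24.mass_smul, inv_mul_cancel₀ hm]
  have hwB : BdV (L+1) w := BdV.smul (fun R hR => hs R hR) _
  set u : St →₀ ℂ := Finsupp.single St.bot 1 + (-1 : ℂ) • w with hu
  have huB : BdV (L+1) u := by
    refine BdV.add ?_ (hwB.smul _)
    intro R hR a b h
    have : R = St.bot := by
      have := Finsupp.support_single_subset hR
      simpa using this
    subst this
    exact Or.inl h
  have hum : mass u = 0 := by
    rw [hu, T24.mass_add, T24.mass_smul, T24.mass_single, hwm]; ring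
  have hlaw : ∀ M, law L M + (-1 : ℂ) • w = (Tvec L)^[M] u := by
    intro M
    have e : (Finsupp.single St.bot 1 : St →₀ ℂ) = u + w := by
      rw [hu]; simp
    rw [law, e, iter_add, iter_fix L M w hwT]
    simp
  set ρ : ℝ := 1 - (1/2)^L * (1/2)^L with hρ
  have hρ0 : 0 ≤ ρ := by have := (dob_Tvec L).le; linarith
  have hρ1 : ρ < 1 := by
    have : (0:ℝ) < (1/2)^L * (1/2)^L := by positivity
    linarith
  have hlim : Tendsto (fun M : ℕ => ρ^M * nrm u) atTop (𝓝 0) := by
    have := (tendsto_pow_atTop_nhds_zero_of_lt_one hρ0 hρ1).mul_const (nrm u)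
    simpa using this
  refine squeeze_zero (fun _ => nrm_nonneg _) (fun M => ?_) hlim
  rw [hlaw M]
  exact (iter_bound' hL huB hum M).1

theorem law_tendsto_odd (L : ℕ) (hL : Odd L) (v : St →₀ ℂ) (hT : Tvec L v = v)
    (hs : ∀ R ∈ v.support, ∀ a b, R.rel a b → a = b ∨ (a < L + 1 ∧ b < L + 1))
    (hm : mass v ≠ 0) :
    Tendsto (fun M => nrm (law L M + (-1 : ℂ) • ((mass v)⁻¹ • v))) atTop (𝓝 0) := by
  set w : St →₀ ℂ := (mass v)⁻¹ • v with hw
  have hwT : Tvec L w = w := by rw [hw, (dob_Tvec L).smul, hT]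
  have hwm : mass w = 1 := by rw [hw, T24.mass_smul, inv_mul_cancel₀ hm]
  have hwB : BdV (L+1) w := BdV.smul (fun R hR => hs R hR) _
  set u : St →₀ ℂ := Finsupp.single St.bot 1 + (-1 : ℂ) • w with hu
  have huB : BdV (L+1) u := by
    refine BdV.add ?_ (hwB.smul _)
    intro R hR a b h
    have : R = St.bot := by
      have := Finsupp.support_single_subset hR
      simpa using this
    subst this
    exact Or.inl h
  have hum : mass u = 0 := by
    rw [hu, T24.mass_add, T24.mass_smul, T24.mass_single, hwm]; ring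
  have hlaw : ∀ M, law L M + (-1 : ℂ) • w = (Tvec L)^[M] u := by
    intro M
    have e : (Finsupp.single St.bot 1 : St →₀ ℂ) = u + w := by
      rw [hu]; simp
    rw [law, e, iter_add, iter_fix L M w hwT]
    simp
  set ρ : ℝ := 1 - (1/2)^L * (1/2)^L with hρ
  have hρ0 : 0 ≤ ρ := by have := (dob_Tvec L).le; linarith
  have hρ1 : ρ < 1 := by
    have : (0:ℝ) < (1/2)^L * (1/2)^L := by positivity
    linarith
  have hlim : Tendsto (fun M : ℕ => ρ^M * nrm u) atTop (𝓝 0) := by
    have := (tendsto_pow_atTop_nhds_zero_of_lt_one hρ0 hρ1).mul_const (nrm u)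
    simpa using this
  refine squeeze_zero (fun _ => nrm_nonneg _) (fun M => ?_) hlim
  rw [hlaw M]
  exact (iter_bound hL huB hum M).1

theorem mass_psi1 {N : ℕ} (hN : Odd N) : mass (psi1 N) ≠ 0 := by
  obtain ⟨m, rfl⟩ := hN
  have h : mass (psi1 (2*m+1)) = q^((m+1)*m) * (chi (2*m+1) : ℂ) := Z_ones_zero m
  rw [h]
  refine mul_ne_zero (pow_ne_zero _ q_ne_zero) ?_
  exact_mod_cast (chi_pos (2*m+1)).ne'

theorem mass_psi0 {N : ℕ} (hN : Even N) : mass (psi0 N) ≠ 0 := by
  obtain ⟨m, rfl⟩ := hN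
  have e : m + m = 2 * m := by ring
  rw [e]
  have h : mass (psi0 (2*m)) = q^(m*(m-1)) * (chi (2*m) : ℂ) := Z_ones m
  rw [h]
  refine mul_ne_zero (pow_ne_zero _ q_ne_zero) ?_
  exact_mod_cast (chi_pos (2*m)).ne'

/-- the odd widths -/
theorem odd_width (N : ℕ) (hN : Odd N) :
    Tendsto (fun M => T24.nrm (law N M + (-1 : ℂ) • ((mass (psi1 N))⁻¹ • psi1 N))) atTop (𝓝 0) := by
  refine law_tendsto_odd N hN _ (stationary N hN) ?_ (mass_psi1 hN)
  intro R hR x y h
  have := Psi_supp (List.replicate N 1 ++ [0]) (by simpa using hN.add_one) R hR x y h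
  simpa using this

end C12

/-- the mass of the three vectors -/
theorem mass_ne (a b : ℕ) (ha : Even a) (hb : Odd b) :
    mass (psi1 (a+b+2)) * mass (psi0 a) * mass (psi1 b) ≠ 0 :=
  mul_ne_zero (mul_ne_zero (C12.mass_psi1 (by
    obtain ⟨m, hm⟩ := ha
    obtain ⟨n, hn⟩ := hb
    exact ⟨m + n + 1, by omega⟩)) (C12.mass_psi0 ha)) (C12.mass_psi1 hb)

theorem t_C12 (h12a : S_C12a) : S_C12 := by
  intro a ha
  refine C12.law_tendsto a ha _ (h12a a ha) ?_ (C12.mass_psi0 ha)
  intro R hR x y h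
  have := Psi_supp (List.replicate a 1) (by simpa using ha) R hR x y h
  simp only [List.length_replicate] at this
  rcases this with h | h
  · exact Or.inl h
  · right; omega

end Pool.Agent.H981R2.TP
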