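import Pool.Agent.H981R2.TP.Stubs
import Pool.Agent.H988R2.Perc.T20

/-! Project TP, task C12a: stationarity of the even homogeneous vector (helper70). -/

namespace Pool.Agent.H981R2.TP

open Pool.Agent.H988R2.Perc hiding X
open Pool.Agent.H988R2.Perc.T20

namespace C12a

theorem fwd_eq' (L : ℕ) (hL : Even L) (k : ℕ) (hk : k ≤ L) :
    Psi ((-q^2) :: List.replicate k 1 ++ (-q) :: List.replicate (L-k) 1) =
      fwd k (Psi ((-q^2) :: (-q) :: List.replicate L 1)) := by
  induction k with
  | zero => simp [fwd]
  | succ k ih =>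
    have ih' := ih (by omega)
    simp only [fwd]
    rw [← ih']
    obtain ⟨m, hm⟩ : ∃ m, L - k = m + 1 := ⟨L - k - 1, by omega⟩
    have hm' : L - (k+1) = m := by omega
    rw [hm, hm']
    have hu : ((-q^2) :: List.replicate k (1:ℂ)).length = k + 1 := by simp
    have key := move_right ((-q^2) :: List.replicate k (1:ℂ)) (List.replicate m 1) (by
      simp only [List.length_cons, List.length_replicate]
      obtain ⟨t, ht⟩ := hL
      exact ⟨t, by omega⟩)
    rw [hu] at key
    have e1 : (-q^2) :: List.replicate (k+1) (1:ℂ) ++ (-q) :: List.replicate m 1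
        = ((-q^2) :: List.replicate k (1:ℂ)) ++ 1 :: (-q) :: List.replicate m 1 := by
      rw [List.replicate_succ']; simp
    have e2 : (-q^2) :: List.replicate k (1:ℂ) ++ (-q) :: List.replicate (m+1) 1
        = ((-q^2) :: List.replicate k (1:ℂ)) ++ (-q) :: 1 :: List.replicate m 1 := by
      rw [List.replicate_succ]
    rw [e1, e2]
    exact key

theorem bwd_eq' (L : ℕ) (hL : Even L) (k : ℕ) (hk : k ≤ L) :
    bwd k (Psi ((-q^2) :: List.replicate k 1 ++ (-q^2) :: List.replicate (L-k) 1)) =
      Psi ((-q^2) :: (-q^2) :: List.replicate L 1) := by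
  induction k with
  | zero => simp [bwd]
  | succ k ih =>
    have ih' := ih (by omega)
    simp only [bwd]
    rw [← ih']
    obtain ⟨m, hm⟩ : ∃ m, L - k = m + 1 := ⟨L - k - 1, by omega⟩
    have hm' : L - (k+1) = m := by omega
    rw [hm, hm']
    have hu : ((-q^2) :: List.replicate k (1:ℂ)).length = k + 1 := by simp
    have key := move_left ((-q^2) :: List.replicate k (1:ℂ)) (List.replicate m 1) (by
      simp only [List.length_cons, List.length_replicate]
      obtain ⟨t, ht⟩ := hL
      exact ⟨t, by omega⟩)
    rw [hu] at key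
    have e1 : (-q^2) :: List.replicate (k+1) (1:ℂ) ++ (-q^2) :: List.replicate m 1
        = ((-q^2) :: List.replicate k (1:ℂ)) ++ 1 :: (-q^2) :: List.replicate m 1 := by
      rw [List.replicate_succ']; simp
    have e2 : (-q^2) :: List.replicate k (1:ℂ) ++ (-q^2) :: List.replicate (m+1) 1
        = ((-q^2) :: List.replicate k (1:ℂ)) ++ (-q^2) :: 1 :: List.replicate m 1 := by
      rw [List.replicate_succ]
    rw [e1, e2]
    rw [key]

theorem fac_ne' (L : ℕ) : fac (-q^2) (List.replicate L 1) ≠ 0 := by
  unfold fac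
  rw [List.map_replicate, List.prod_replicate]
  have h4 := q4
  have hq := q_ne_zero
  apply pow_ne_zero
  have : (-q^2 - q^2 * 1) * (-q^2 * 1 - q^2) = 4 * q := by
    linear_combination 4 * h4
  rw [this]
  exact mul_ne_zero (by norm_num) hq

theorem stationary' (L : ℕ) (hLe : Even L) :
    Tvec L (Psi (List.replicate L 1)) = Psi (List.replicate L 1) := by
  set v0 := Psi (List.replicate L 1) with hv0
  set l0 : List ℂ := List.replicate L 1 with hl0
  have hlen : l0.length = L := by simp [hl0]
  have h4 := q4
  have h3 := q_cube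
  have hqs := q_spec
  have hq := q_ne_zero
  -- recursion at the start
  have hrec : Psi ((-q^2) :: (-q) :: l0) = fac (-q^2) l0 • Finsupp.mapDomain (St.ins 0) v0 := by
    have := Psi_rec [] l0 (-q^2) (by simpa [hlen] using hLe)
    have e : q^2 * (-q^2) = -q := by linear_combination -h4
    rw [e] at this
    simpa using this
  -- forward
  have hf := fwd_eq' L hLe L le_rfl
  rw [Nat.sub_self] at hf
  simp only [List.replicate_zero] at hf
  -- inversion of the last variable
  have hinv : Psi ((-q^2) :: List.replicate L 1 ++ [(-q)]) =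
      (-q)^L • Psi ((-q^2) :: List.replicate L 1 ++ [(-q^2)]) := by
    have := Psi_invN (-q) ((-q^2) :: List.replicate L 1) (neg_ne_zero.mpr hq)
      (by simpa using hLe.add_one)
    have e : (-q)⁻¹ = -q^2 := by
      rw [inv_eq_iff_eq_inv]
      have : (-q^2) ≠ 0 := neg_ne_zero.mpr (pow_ne_zero _ hq)
      apply mul_right_cancel₀ this
      rw [inv_mul_cancel₀ this]
      linear_combination h3
    rw [e] at this
    simpa using this
  have hb := bwd_eq' L hLe L le_rfl
  rw [Nat.sub_self] at hb
  simp only [List.replicate_zero] at hb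
  -- inversion of the first variable
  have hinv1 : Psi ((-q^2) :: (-q^2) :: l0) = (-q^2)^L • Psi ((-q) :: (-q^2) :: l0) := by
    have := Psi_inv1 (-q^2) ((-q^2) :: l0) (neg_ne_zero.mpr (pow_ne_zero _ hq))
      (by simp only [List.length_cons, hlen]; exact hLe.add_one)
    have e : (-q^2)⁻¹ = -q := by
      rw [inv_eq_iff_eq_inv]
      have : (-q) ≠ 0 := neg_ne_zero.mpr hq
      apply mul_right_cancel₀ this
      rw [inv_mul_cancel₀ this]
      linear_combination h3
    rw [e] at this
    simpa [hlen] using this
  -- exchange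
  have hexch : Psi ((-q^2) :: (-q) :: l0) =
      Finsupp.mapDomain (St.act 0) (Psi ((-q) :: (-q^2) :: l0)) := by
    have := Psi_exch [] l0 (-q) (-q^2) (by simpa [hlen] using hLe)
    have e1 : q * (-q) - q^2 * (-q^2) = -q^2 + q := by linear_combination h4
    have e2 : q * (-q^2) - q^2 * (-q) = 0 := by ring
    have e3 : (-q^2) - (-q) = -q^2 + q := by ring
    rw [e1, e2, e3, zero_smul, zero_add] at this
    have hne : -q^2 + q ≠ 0 := by
      intro h
      have h1 : q * (1 - q) = 0 := by linear_combination h
      rcases mul_eq_zero.mp h1 with h2 | h2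
      · exact hq h2
      · exact q_ne_one (by linear_combination -h2)
    have h5 := congrArg (fun f => (-q^2 + q)⁻¹ • f) this
    simp only [smul_smul, inv_mul_cancel₀ hne, one_smul] at h5
    simpa using h5
  -- cancel ins 0
  have hact : ∀ g : St →₀ ℂ, Finsupp.mapDomain (St.act 0) g =
      Finsupp.mapDomain (St.ins 0) (Finsupp.mapDomain (St.cap 0) g) := by
    intro g
    rw [← Finsupp.mapDomain_comp]
    congr 1
    funext R
    exact St.act_eq 0 R
  have hcap : Finsupp.mapDomain (St.cap 0) (Psi ((-q) :: (-q^2) :: l0)) = fac (-q^2) l0 • v0 := by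
    apply Finsupp.mapDomain_injective (St.ins_inj 0)
    rw [← hact, ← hexch, hrec, mapDomain_lin]
  -- conclusion
  have hmain : fac (-q^2) l0 • Tvec L v0 = fac (-q^2) l0 • v0 := by
    rw [← Tvec_smul]
    unfold Tvec
    rw [mapDomain_lin, ← hrec]
    rw [← hf]
    rw [hinv, bwd_smul]
    rw [hb, hinv1, smul_smul, mapDomain_lin, hcap]
    have e3 : (-q)^L * (-q^2)^L = 1 := by
      rw [← mul_pow]
      have : -q * -q^2 = 1 := by linear_combination h3
      rw [this, one_pow]
    rw [e3, one_smul]
  have hne : fac (-q^2) l0 ≠ 0 := fac_ne' L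
  have h5 := congrArg (fun f => (fac (-q^2) l0)⁻¹ • f) hmain
  simp only [smul_smul, inv_mul_cancel₀ hne, one_smul] at h5
  exact h5

end C12a

theorem t_C12a : S_C12a := by
  intro a ha
  exact C12a.stationary' a ha

end Pool.Agent.H981R2.TP
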