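import Pool.Agent.H981R2.TP.Stubs

/-!
Project TP, task C13: continuity of the trilinear pairing.
-/

namespace Pool.Agent.H981R2.TP

open Pool.Agent.H988R2.Perc hiding X
open Filter Topology

namespace C13

theorem dec (f w : St →₀ ℂ) : f = (f + (-1 : ℂ) • w) + w := by
  rw [add_assoc, neg_smul, one_smul, neg_add_cancel, add_zero]

theorem expand (h : S_C11) (a b : ℕ) (d0 d1 d2 w0 w1 w2 : St →₀ ℂ) :
    pair4 a b (d0 + w0) (d1 + w1) (d2 + w2) =
      ((pair4 a b d0 d1 d2 + pair4 a b d0 d1 w2) + (pair4 a b d0 w1 d2 + pair4 a b d0 w1 w2)) +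
      ((pair4 a b w0 d1 d2 + pair4 a b w0 d1 w2) + (pair4 a b w0 w1 d2 + pair4 a b w0 w1 w2)) := by
  obtain ⟨a1, a2, a3, -⟩ := h
  rw [a1, a2, a2, a3, a3, a3, a3]

theorem term (h : S_C11) (a b : ℕ) (x y z : ℕ → St →₀ ℂ) (l m n : ℝ)
    (hx : Tendsto (fun M => T24.nrm (x M)) atTop (𝓝 l))
    (hy : Tendsto (fun M => T24.nrm (y M)) atTop (𝓝 m))
    (hz : Tendsto (fun M => T24.nrm (z M)) atTop (𝓝 n)) (h0 : l * m * n = 0) :
    Tendsto (fun M => pair4 a b (x M) (y M) (z M)) atTop (𝓝 0) := by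
  refine squeeze_zero_norm (a := fun M => T24.nrm (x M) * T24.nrm (y M) * T24.nrm (z M)) ?_ ?_
  · intro M
    exact h.2.2.2.2.2.2 a b (x M) (y M) (z M)
  · have := (hx.mul hy).mul hz
    rwa [h0] at this

end C13

theorem t_C13 (h : S_C11) : S_C13 := by
  intro a b f0 f1 f2 w0 w1 w2 h0 h1 h2
  have c0 : Tendsto (fun _ : ℕ => T24.nrm w0) atTop (𝓝 (T24.nrm w0)) := tendsto_const_nhds
  have c1 : Tendsto (fun _ : ℕ => T24.nrm w1) atTop (𝓝 (T24.nrm w1)) := tendsto_const_nhds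
  have c2 : Tendsto (fun _ : ℕ => T24.nrm w2) atTop (𝓝 (T24.nrm w2)) := tendsto_const_nhds
  have e1 := C13.term h a b _ _ _ 0 0 0 h0 h1 h2 (by ring)
  have e2 := C13.term h a b _ _ (fun _ => w2) 0 0 _ h0 h1 c2 (by ring)
  have e3 := C13.term h a b _ (fun _ => w1) _ 0 _ 0 h0 c1 h2 (by ring)
  have e4 := C13.term h a b _ (fun _ => w1) (fun _ => w2) 0 _ _ h0 c1 c2 (by ring)
  have e5 := C13.term h a b (fun _ => w0) _ _ _ 0 0 c0 h1 h2 (by ring)
  have e6 := C13.term h a b (fun _ => w0) _ (fun _ => w2) _ 0 _ c0 h1 c2 (by ring)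
  have e7 := C13.term h a b (fun _ => w0) (fun _ => w1) _ _ _ 0 c0 c1 h2 (by ring)
  have e8 : Tendsto (fun _ : ℕ => pair4 a b w0 w1 w2) atTop (𝓝 (pair4 a b w0 w1 w2)) :=
    tendsto_const_nhds
  have e := ((e1.add e2).add (e3.add e4)).add ((e5.add e6).add (e7.add e8))
  simp only [add_zero, zero_add] at e
  refine e.congr fun M => ?_
  rw [← C13.expand h, ← C13.dec, ← C13.dec, ← C13.dec]

end Pool.Agent.H981R2.TP
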