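import Pool.Agent.H981R2.TP.Stubs
import Pool.Agent.H980R3.Slit.C14
import Pool.Agent.H980R3.Slit.C12

/-! Project TP, task C14: assembly of the percolation link of the slit tip. -/

namespace Pool.Agent.H981R2.TP

open Pool.Agent.H988R2.Perc hiding X
open Pool.Agent.H980R3.Slit (GP)
open Filter Topology MeasureTheory Relation

namespace C14

theorem FF_mono {a b M M' : ℕ} (hM : M ≤ M') {ω : Conf} {p p' : ℤ × ℤ}
    (h : FF a b M ω p p') : FF a b M' ω p p' := by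
  have hM' : (M : ℤ) ≤ M' := by exact_mod_cast hM
  rcases h with (h | h) | h | (h | h)
  · exact Or.inl (Or.inl (Pool.Agent.H980R3.Slit.GP_mono (by omega) le_rfl h))
  · exact Or.inl (Or.inr h)
  · exact Or.inr (Or.inl (Pool.Agent.H980R3.Slit.GP_mono le_rfl (by omega) h))
  · exact Or.inr (Or.inr (Or.inl (Pool.Agent.H980R3.Slit.GP_mono le_rfl (by omega) h)))
  · exact Or.inr (Or.inr (Or.inr h))

theorem winT_mono (h4 : S_C4) (h5 : S_C5) {a b : ℕ} (ha : Even a) (hb : Odd b) :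
    Monotone (WinT a b) := by
  intro M M' hM ω h
  exact h5 a b M' ω ha hb ((h4 a b M ω ha hb h).mono fun _ _ h => FF_mono hM h)

theorem iUnion_winT (h4 : S_C4) (h5 : S_C5) (h6 : S_C6) (h7 : S_C7) {a b : ℕ} (ha : Even a)
    (hb : Odd b) : ⋃ M, WinT a b M = TipArm a b := by
  ext ω
  rw [Set.mem_iUnion]
  constructor
  · rintro ⟨M, h⟩
    exact h6 a b M ω ha hb (h4 a b M ω ha hb h)
  · intro h
    obtain ⟨M, hM⟩ := h7 a b ω ha hb h
    exact ⟨M, h5 a b M ω ha hb hM⟩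

theorem psi0_mass_ne (N : ℕ) (hN : Even N) : mass (psi0 N) ≠ 0 := by
  obtain ⟨m, hm⟩ := hN.exists_two_nsmul
  rw [smul_eq_mul] at hm
  subst hm
  have h : mass (psi0 (2 * m)) = q^(m*(m-1)) * (chi (2*m) : ℂ) := Z_ones m
  rw [h]
  refine mul_ne_zero (pow_ne_zero _ q_ne_zero) ?_
  exact_mod_cast (chi_pos (2*m)).ne'

end C14

theorem t_C14 (h4 : S_C4) (h5 : S_C5) (h6 : S_C6) (h7 : S_C7) (h10 : S_C10) (h11 : S_C11)
    (h12 : S_C12) (h13 : S_C13) : S_C14 := by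
  intro a b ha hb
  have hL : Odd (a + b + 2) := (ha.add_odd hb).add_even (by decide)
  have e1 : Tendsto (fun M => perc.real (WinT a b M)) atTop (𝓝 (perc.real (TipArm a b))) := by
    have h1 : Tendsto (fun M => perc (WinT a b M)) atTop (𝓝 (perc (⋃ M, WinT a b M))) :=
      tendsto_measure_iUnion_atTop (C14.winT_mono h4 h5 ha hb)
    rw [C14.iUnion_winT h4 h5 h6 h7 ha hb] at h1
    exact (ENNReal.tendsto_toReal (measure_ne_top perc (TipArm a b))).comp h1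
  have e2 : Tendsto (fun M => ((perc.real (WinT a b M) : ℝ) : ℂ)) atTop
      (𝓝 ((perc.real (TipArm a b) : ℝ) : ℂ)) :=
    (Complex.continuous_ofReal.tendsto _).comp e1
  have l0 := Pool.Agent.H980R3.Slit.psi1_law Pool.Agent.H980R3.Slit.t_C12 (a+b+2) hL
  have l1 := h12 a ha
  have l2 := Pool.Agent.H980R3.Slit.psi1_law Pool.Agent.H980R3.Slit.t_C12 b hb
  have e3 := h13 a b (law (a+b+2)) (law a) (law b) ((mass (psi1 (a+b+2)))⁻¹ • psi1 (a+b+2))
    ((mass (psi0 a))⁻¹ • psi0 a) ((mass (psi1 b))⁻¹ • psi1 b) l0 l1 l2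
  have e4 : Tendsto (fun M => ((perc.real (WinT a b M) : ℝ) : ℂ)) atTop
      (𝓝 (pair4 a b ((mass (psi1 (a+b+2)))⁻¹ • psi1 (a+b+2)) ((mass (psi0 a))⁻¹ • psi0 a)
        ((mass (psi1 b))⁻¹ • psi1 b))) := by
    refine e3.congr fun M => ?_
    rw [h10 a b M ha hb]
  have e5 := tendsto_nhds_unique e2 e4
  obtain ⟨_, _, _, s1, s2, s3, _⟩ := h11
  rw [e5, s1, s2, s3]
  have n0 : mass (psi1 (a+b+2)) ≠ 0 := Pool.Agent.H980R3.Slit.psi1_mass_ne _ hL
  have n1 := C14.psi0_mass_ne a ha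
  have n2 : mass (psi1 b) ≠ 0 := Pool.Agent.H980R3.Slit.psi1_mass_ne b hb
  field_simp

end Pool.Agent.H981R2.TP
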