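import Pool.Agent.H981R2.TP.Stubs
import Pool.Agent.H988R2.Perc.T13

/-! C15: the trilinear pairing at the vectors of the three strips is `GR2` at ones. -/

namespace Pool.Agent.H981R2.TP

open Pool.Agent.H988R2.Perc hiding X
open Pool.Agent.H492C
open Finset Polynomial

theorem C15_eqvGen_le {α : Type*} {E F : α → α → Prop}
    (h : ∀ x y, E x y → Relation.EqvGen F x y)
    {x y : α} (hxy : Relation.EqvGen E x y) : Relation.EqvGen F x y := by
  induction hxy with
  | rel x y hh => exact h x y hh
  | refl x => exact Relation.EqvGen.refl _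
  | symm x y _ ih => exact Relation.EqvGen.symm _ _ ih
  | trans x y z _ _ ih1 ih2 => exact Relation.EqvGen.trans _ _ _ ih1 ih2

theorem C15_jn_iff {a b k : ℕ} (hk : a + 2 = 2 * k) (R R1 R2 : St)
    (h1 : ∀ x y, R1.rel x y → x = y ∨ (x < a ∧ y < a)) :
    jn (a + 1) (a + 2 + b) R (comb k R1 R2) ↔ conn4 a b R R1 R2 := by
  have e : a + 2 + b = a + b + 2 := by omega
  unfold jn conn4
  rw [e]
  constructor
  · refine C15_eqvGen_le fun x y h => ?_
    rcases h with h | h
    · exact Relation.EqvGen.rel _ _ (Or.inl h)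
    · rcases h with h | ⟨h2, h3, h4⟩ | ⟨h2, h3, h4⟩
      · subst h; exact Relation.EqvGen.refl _
      · rcases h1 x y h4 with h5 | h5
        · subst h5; exact Relation.EqvGen.refl _
        · exact Relation.EqvGen.rel _ _ (Or.inr (Or.inl ⟨h4, by omega, by omega⟩))
      · rcases R2.odd _ _ h4 with h5 | ⟨h5, h6⟩
        · have : x = y := by omega
          subst this; exact Relation.EqvGen.refl _
        · refine Relation.EqvGen.rel _ _ (Or.inr (Or.inr ⟨by omega, by omega, ?_⟩))
          rw [hk]; exact h4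
  · refine C15_eqvGen_le fun x y h => ?_
    rcases h with h | ⟨h, h2, h3⟩ | ⟨h2, h3, h⟩
    · exact Relation.EqvGen.rel _ _ (Or.inl h)
    · exact Relation.EqvGen.rel _ _ (Or.inr (Or.inr (Or.inl ⟨by omega, by omega, h⟩)))
    · refine Relation.EqvGen.rel _ _ (Or.inr (Or.inr (Or.inr ⟨by omega, by omega, ?_⟩)))
      rw [← hk]; exact h

theorem C15_pair (a b k : ℕ) (hk : a + 2 = 2 * k) (f g h : St →₀ ℂ)
    (hg : ∀ R ∈ g.support, ∀ x y, R.rel x y → x = y ∨ (x < a ∧ y < a)) :
    pairG (a + 1) (a + 2 + b) f (comb2 k g h) = pair4 a b f g h := by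
  classical
  unfold pairG comb2 pair4
  refine Finsupp.sum_congr fun R _ => ?_
  rw [Finsupp.sum_sum_index]
  · refine Finsupp.sum_congr fun R1 hR1 => ?_
    rw [Finsupp.sum_sum_index]
    · refine Finsupp.sum_congr fun R2 _ => ?_
      rw [Finsupp.sum_single_index]
      · have := C15_jn_iff (b := b) hk R R1 R2 (hg R1 hR1)
        simp only [this]
        split_ifs <;> ring
      · simp
    · intro R'; simp
    · intro R' b1 b2; ring
  · intro R'; simp
  · intro R' b1 b2; ring

theorem t_C15 : S_C15 := by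
  intro a b ha hb
  obtain ⟨m, hm⟩ := ha
  have e1 : (List.replicate a (1 : ℂ)).map (fun x => x⁻¹) = List.replicate a 1 := by
    rw [List.map_replicate, inv_one]
  have e2 : (List.replicate b (1 : ℂ)).map (fun x => x⁻¹) = List.replicate b 1 := by
    rw [List.map_replicate, inv_one]
  have e3 : List.replicate a (1 : ℂ) ++ 1 :: 1 :: (List.replicate b 1 ++ [0]) =
      List.replicate (a + b + 2) 1 ++ [0] := by
    have h1 : (1 : ℂ) :: 1 :: (List.replicate b 1 ++ [0]) = List.replicate (b + 2) 1 ++ [0] := by
      rw [List.replicate_succ, List.replicate_succ]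
      rfl
    rw [h1, ← List.append_assoc, List.replicate_append_replicate, add_assoc]
  unfold GR2 up1 psi1 psi0
  rw [e1, e2, e3, List.length_replicate, List.length_replicate]
  symm
  refine C15_pair a b (a / 2 + 1) (by omega) _ _ _ ?_
  intro R hR x y hxy
  have := Psi_supp (List.replicate a (1 : ℂ)) (by rw [List.length_replicate]; exact ⟨m, hm⟩)
    R hR x y hxy
  rwa [List.length_replicate] at this

end Pool.Agent.H981R2.TP
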