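import Pool.Agent.H981R2.TP.Stubs

/-! C2: the lower state is the connectivity in `F0`. -/

namespace Pool.Agent.H981R2.TP

open Pool.Agent.H988R2.Perc hiding X
open Pool.Agent.H492C
open Pool.Agent.H980R3.Slit (GP)
open Relation

theorem C2_edge (a b M : ℕ) (ω : Conf) (p p' : ℤ × ℤ) :
    T22.EP (a + b + 2) (-(2 * (M : ℤ))) 0 ω p p' ↔ F0 a b M ω p p' := by
  unfold T22.EP F0 T22.GPart GP
  push_cast
  exact Iff.rfl

theorem t_C2 : S_C2 := by
  intro a b M ω x y ha hb hx hy hxL hyL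
  have hL : Odd (a + b + 2) := (ha.add_odd hb).add_even (by decide)
  rw [T22.past_iff (a + b + 2) hL M ω x y hx hy hxL hyL]
  exact T21.eqvGen_congr (C2_edge a b M ω) _ _

end Pool.Agent.H981R2.TP
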