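import Pool.Agent.H981R2.TP.Stubs
import Pool.Agent.H980R3.Slit.C04

/-! TP C4: the states of the window event give a connection in the window graph
(adapted from C04 of project Slit; helper926). -/

namespace Pool.Agent.H981R2.TP

open Pool.Agent.H988R2.Perc hiding X
open Relation
open Pool.Agent.H980R3.Slit (c04_mono)

theorem t_C4 (h1 : S_C1) (h2 : S_C2) (h3 : S_C3) : S_C4 := by
  intro a b M ω ha hb hw
  have haL : Odd (a + b + 2) := (ha.add_odd hb).add_even even_two
  have ha2 : a % 2 = 0 := Nat.even_iff.mp ha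
  have hb2 : b % 2 = 1 := Nat.odd_iff.mp hb
  have key : ∀ x y : ℕ, EqvGen (J4 a (Pool.Agent.H988R2.Perc.X (a+b+2) (actBit (oPast ω M)) M)
      (Pool.Agent.H988R2.Perc.X a (actBit (oFut ω M)) M)
      (Pool.Agent.H988R2.Perc.X b (actBit (oFutR2 a ω M)) M)) x y →
      x = y ∨ EqvGen (FF a b M ω) ((x : ℤ), 0) ((y : ℤ), 0) := by
    intro x y hxy
    induction hxy with
    | rel x y h =>
      by_cases hxy : x = y
      · exact Or.inl hxy
      right
      rcases h with h | ⟨h, hx, hy⟩ | ⟨hx, hy, h⟩
      · have ho : x % 2 = 1 ∧ y % 2 = 1 := by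
          rcases (Pool.Agent.H988R2.Perc.X (a+b+2) (actBit (oPast ω M)) M).odd _ _ h with h' | h'
          · exact absurd h' hxy
          · exact h'
        have hs : x ≤ a + b + 2 ∧ y ≤ a + b + 2 := by
          rcases X_supp (a+b+2) haL M _ _ _ h with h' | h'
          · exact absurd h' hxy
          · exact h'
        exact c04_mono (fun _ _ h => Or.inl h)
          ((h2 a b M ω x y ha hb ho.1 ho.2 hs.1 hs.2).1 h)
      · have ho : x % 2 = 1 ∧ y % 2 = 1 := by
          rcases (Pool.Agent.H988R2.Perc.X a (actBit (oFut ω M)) M).odd _ _ h with h' | h'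
          · exact absurd h' hxy
          · exact h'
        exact c04_mono (fun _ _ h => Or.inr (Or.inl h))
          ((h1 a M ω x y ha ho.1 ho.2 hx hy).1 h)
      · have hne : x - (a+2) ≠ y - (a+2) := by omega
        have ho : (x - (a+2)) % 2 = 1 ∧ (y - (a+2)) % 2 = 1 := by
          rcases (Pool.Agent.H988R2.Perc.X b (actBit (oFutR2 a ω M)) M).odd _ _ h with h' | h'
          · exact absurd h' hne
          · exact h'
        have hs : x - (a+2) ≤ b ∧ y - (a+2) ≤ b := by
          rcases X_supp b hb M _ _ _ h with h' | h'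
          · exact absurd h' hne
          · exact h'
        have h4 := (h3 a b M ω (x - (a+2)) (y - (a+2)) ha hb ho.1 ho.2 hs.1 hs.2).1 h
        have e1 : ((x - (a+2) : ℕ) : ℤ) + ((a : ℤ) + 2) = x := by omega
        have e2 : ((y - (a+2) : ℕ) : ℤ) + ((a : ℤ) + 2) = y := by omega
        rw [e1, e2] at h4
        exact c04_mono (fun _ _ h => Or.inr (Or.inr h)) h4
    | refl x => exact Or.inl rfl
    | symm x y _ ih =>
      rcases ih with h | h
      · exact Or.inl h.symm
      · exact Or.inr (h.symm _ _)
    | trans x y z _ _ ih1 ih2 =>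
      rcases ih1 with h | h
      · subst h; exact ih2
      · rcases ih2 with k | k
        · subst k; exact Or.inr h
        · exact Or.inr (h.trans _ _ _ k)
  have hw' := key (a+1) (a+b+2) hw
  rcases hw' with h | h
  · omega
  · have e1 : (((a + 1 : ℕ) : ℤ)) = (a : ℤ) + 1 := by push_cast; ring
    have e : (((a + b + 2 : ℕ) : ℤ)) = (a : ℤ) + b + 2 := by push_cast; ring
    rw [e, e1] at h
    exact h

end Pool.Agent.H981R2.TP
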