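import Pool.Agent.H981R2.TP.Stubs
import Pool.Agent.H980R3.Slit.C05

/-! TP C5: gluing, the other direction (adapted from C05 of project Slit; helper926). -/

namespace Pool.Agent.H981R2.TP

open Pool.Agent.H988R2.Perc hiding X
open Relation
open Pool.Agent.H980R3.Slit (GP)
open Pool.Agent.H980R3.Slit.C05 (gp_facts eqv_V slice_eq)

namespace C5

/-- vertices of the three parts -/
def V0 (a b : ℕ) (p : ℤ × ℤ) : Prop :=
  (p.2 ≤ 0 ∧ (p.1 + p.2) % 2 = 1 ∧ 0 ≤ p.1 ∧ p.1 ≤ a + b + 2) ∨ p.1 = a + b + 2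

def V1 (a : ℕ) (p : ℤ × ℤ) : Prop :=
  0 ≤ p.2 ∧ p.1 ≤ a ∧ (p.1 + p.2) % 2 = 1 ∧ 0 ≤ p.1

def V2 (a b : ℕ) (p : ℤ × ℤ) : Prop :=
  (0 ≤ p.2 ∧ (p.1 + p.2) % 2 = 1 ∧ a + 2 ≤ p.1 ∧ p.1 ≤ a + b + 2) ∨ p.1 = a + b + 2

theorem f0_V {a b M : ℕ} {ω : Conf} {p p' : ℤ × ℤ} (h : F0 a b M ω p p') :
    V0 a b p ∧ V0 a b p' := by
  rcases h with h | ⟨h1, h2⟩
  · obtain ⟨f1, f2, f3, f4, f5, f6, f7, f8, f9⟩ := gp_facts h
    exact ⟨Or.inl ⟨by omega, f4, by omega, f7⟩, Or.inl ⟨by omega, f5, by omega, f9⟩⟩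
  · exact ⟨Or.inr h1, Or.inr h2⟩

theorem f1_V {a M : ℕ} {ω : Conf} {p p' : ℤ × ℤ} (h : F1 a M ω p p') :
    V1 a p ∧ V1 a p' := by
  obtain ⟨f1, f2, f3, f4, f5, f6, f7, f8, f9⟩ := gp_facts h
  exact ⟨⟨by omega, f7, f4, by omega⟩, ⟨by omega, f9, f5, by omega⟩⟩

theorem f2_V {a b M : ℕ} {ω : Conf} {p p' : ℤ × ℤ} (h : F2 a b M ω p p') :
    V2 a b p ∧ V2 a b p' := by
  rcases h with h | ⟨h1, h2⟩
  · obtain ⟨f1, f2, f3, f4, f5, f6, f7, f8, f9⟩ := gp_facts h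
    exact ⟨Or.inl ⟨by omega, f4, by omega, f7⟩, Or.inl ⟨by omega, f5, by omega, f9⟩⟩
  · exact ⟨Or.inr h1, Or.inr h2⟩

end C5

open C5 in
theorem t_C5 (h1 : S_C1) (h2 : S_C2) (h3 : S_C3) : S_C5 := by
  intro a b M ω ha hb hEE
  have ha1 : a % 2 = 0 := Nat.even_iff.mp ha
  have hb1 : b % 2 = 1 := Nat.odd_iff.mp hb
  show EqvGen (J4 a (Pool.Agent.H988R2.Perc.X (a+b+2) (actBit (oPast ω M)) M)
    (Pool.Agent.H988R2.Perc.X a (actBit (oFut ω M)) M)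
    (Pool.Agent.H988R2.Perc.X b (actBit (oFutR2 a ω M)) M)) (a+1) (a+b+2)
  set R := Pool.Agent.H988R2.Perc.X (a+b+2) (actBit (oPast ω M)) M with hR
  set R1 := Pool.Agent.H988R2.Perc.X a (actBit (oFut ω M)) M with hR1
  set R2 := Pool.Agent.H988R2.Perc.X b (actBit (oFutR2 a ω M)) M with hR2
  set J := J4 a R R1 R2 with hJ
  -- the three gluing rules
  have g0 : ∀ x y : ℕ, x % 2 = 1 → y % 2 = 1 → x ≤ a + b + 2 → y ≤ a + b + 2 →
      EqvGen (F0 a b M ω) ((x : ℤ), 0) ((y : ℤ), 0) → EqvGen J (a+1) x → EqvGen J (a+1) y := by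
    intro x y hx hy hxL hyL h hJx
    have h' := (h2 a b M ω x y ha hb hx hy hxL hyL).2 h
    exact hJx.trans _ _ _ (EqvGen.rel _ _ (Or.inl h'))
  have g1 : ∀ x y : ℕ, x % 2 = 1 → y % 2 = 1 → x ≤ a → y ≤ a →
      EqvGen (F1 a M ω) ((x : ℤ), 0) ((y : ℤ), 0) → EqvGen J (a+1) x → EqvGen J (a+1) y := by
    intro x y hx hy hxL hyL h hJx
    have h' := (h1 a M ω x y ha hx hy hxL hyL).2 h
    exact hJx.trans _ _ _ (EqvGen.rel _ _ (Or.inr (Or.inl ⟨h', hxL, hyL⟩)))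
  have g2 : ∀ x y : ℕ, x % 2 = 1 → y % 2 = 1 → a + 3 ≤ x → a + 3 ≤ y → x ≤ a + b + 2 →
      y ≤ a + b + 2 →
      EqvGen (F2 a b M ω) ((x : ℤ), 0) ((y : ℤ), 0) → EqvGen J (a+1) x → EqvGen J (a+1) y := by
    intro x y hx hy hax hay hxL hyL h hJx
    have ex : (((x - (a + 2) : ℕ) : ℤ) + (a + 2)) = x := by omega
    have ey : (((y - (a + 2) : ℕ) : ℤ) + (a + 2)) = y := by omega
    have h' := (h3 a b M ω (x - (a + 2)) (y - (a + 2)) ha hb (by omega) (by omega) (by omega)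
      (by omega)).2 (by rw [ex, ey]; exact h)
    exact hJx.trans _ _ _ (EqvGen.rel _ _ (Or.inr (Or.inr ⟨hax, hay, h'⟩)))
  -- walls
  have w0 : ∀ p q : ℤ × ℤ, p.1 = a + b + 2 → q.1 = a + b + 2 → EqvGen (F0 a b M ω) p q :=
    fun p q hp hq => EqvGen.rel _ _ (Or.inr ⟨hp, hq⟩)
  have w2 : ∀ p q : ℤ × ℤ, p.1 = a + b + 2 → q.1 = a + b + 2 → EqvGen (F2 a b M ω) p q :=
    fun p q hp hq => EqvGen.rel _ _ (Or.inr ⟨hp, hq⟩)
  have hLc : ((a + b + 2 : ℕ) : ℤ) = (a : ℤ) + b + 2 := by push_cast; ring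
  -- the invariant
  let P : ℤ × ℤ → Prop := fun p => ∃ x : ℕ, x % 2 = 1 ∧ x ≤ a + b + 2 ∧ EqvGen J (a+1) x ∧
    (EqvGen (F0 a b M ω) ((x : ℤ), 0) p ∨ (x ≤ a ∧ EqvGen (F1 a M ω) ((x : ℤ), 0) p) ∨
      (a + 3 ≤ x ∧ EqvGen (F2 a b M ω) ((x : ℤ), 0) p))
  -- the vertices reached are vertices of the part
  have v0 : ∀ (x : ℕ) (p : ℤ × ℤ), x % 2 = 1 → x ≤ a + b + 2 →
      EqvGen (F0 a b M ω) ((x : ℤ), 0) p → V0 a b p := by
    intro x p hx hxL h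
    exact eqv_V (V := V0 a b) (fun _ _ h => f0_V h) h (Or.inl ⟨le_rfl, by dsimp only; omega, by dsimp only; omega,
      by dsimp only; omega⟩)
  have v1 : ∀ (x : ℕ) (p : ℤ × ℤ), x % 2 = 1 → x ≤ a →
      EqvGen (F1 a M ω) ((x : ℤ), 0) p → V1 a p := by
    intro x p hx hxL h
    exact eqv_V (V := V1 a) (fun _ _ h => f1_V h) h ⟨le_rfl, by dsimp only; omega,
      by dsimp only; omega, by dsimp only; omega⟩
  have v2 : ∀ (x : ℕ) (p : ℤ × ℤ), x % 2 = 1 → a + 3 ≤ x → x ≤ a + b + 2 →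
      EqvGen (F2 a b M ω) ((x : ℤ), 0) p → V2 a b p := by
    intro x p hx hax hxL h
    exact eqv_V (V := V2 a b) (fun _ _ h => f2_V h) h (Or.inl ⟨le_rfl, by dsimp only; omega, by dsimp only; omega,
      by dsimp only; omega⟩)
  -- change of part
  have key0 : ∀ p, P p → V0 a b p → ∃ x : ℕ, x % 2 = 1 ∧ x ≤ a + b + 2 ∧ EqvGen J (a+1) x ∧
      EqvGen (F0 a b M ω) ((x : ℤ), 0) p := by
    rintro p ⟨x, hx, hxL, hJx, h | ⟨hxa, h⟩ | ⟨hax, h⟩⟩ hV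
    · exact ⟨x, hx, hxL, hJx, h⟩
    · obtain ⟨u1, u2, u3, u4⟩ := v1 x p hx hxa h
      rcases hV with ⟨t1, t2, t3, t4⟩ | t1
      · have e := slice_eq (p := p) (by omega) t3
        rw [e] at h
        refine ⟨p.1.toNat, by omega, by omega,
          g1 x p.1.toNat hx (by omega) hxa (by omega) h hJx, ?_⟩
        rw [← e]
        exact EqvGen.refl _
      · omega
    · by_cases hp : p.1 = a + b + 2
      · refine ⟨a + b + 2, by omega, le_rfl, g2 x (a + b + 2) hx (by omega) hax (by omega) hxL le_rfl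
          (h.trans _ _ _ (w2 p _ hp ?_)) hJx, w0 _ _ ?_ hp⟩
        · exact hLc
        · exact hLc
      · have hV2 := v2 x p hx hax hxL h
        rcases hV with ⟨t1, t2, t3, t4⟩ | t1
        · rcases hV2 with ⟨u1, u2, u3, u4⟩ | u1
          · have e := slice_eq (p := p) (by omega) t3
            rw [e] at h
            refine ⟨p.1.toNat, by omega, by omega,
              g2 x p.1.toNat hx (by omega) hax (by omega) hxL (by omega) h hJx, ?_⟩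
            rw [← e]
            exact EqvGen.refl _
          · exact absurd u1 hp
        · exact absurd t1 hp
  have key1 : ∀ p, P p → V1 a p → ∃ x : ℕ, x % 2 = 1 ∧ x ≤ a ∧ EqvGen J (a+1) x ∧
      EqvGen (F1 a M ω) ((x : ℤ), 0) p := by
    rintro p ⟨x, hx, hxL, hJx, h | ⟨hxa, h⟩ | ⟨hax, h⟩⟩ ⟨u1, u2, u3, u4⟩
    · rcases v0 x p hx hxL h with ⟨t1, t2, t3, t4⟩ | t1
      · have e := slice_eq (p := p) (by omega) t3
        rw [e] at h
        refine ⟨p.1.toNat, by omega, by omega,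
          g0 x p.1.toNat hx (by omega) hxL (by omega) h hJx, ?_⟩
        rw [← e]
        exact EqvGen.refl _
      · omega
    · exact ⟨x, hx, hxa, hJx, h⟩
    · rcases v2 x p hx hax hxL h with ⟨t1, t2, t3, t4⟩ | t1
      · omega
      · omega
  have key2 : ∀ p, P p → V2 a b p → ∃ x : ℕ, x % 2 = 1 ∧ a + 3 ≤ x ∧ x ≤ a + b + 2 ∧
      EqvGen J (a+1) x ∧ EqvGen (F2 a b M ω) ((x : ℤ), 0) p := by
    rintro p ⟨x, hx, hxL, hJx, h | ⟨hxa, h⟩ | ⟨hax, h⟩⟩ hV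
    · by_cases hp : p.1 = a + b + 2
      · refine ⟨a + b + 2, by omega, by omega, le_rfl, g0 x (a + b + 2) hx (by omega) hxL le_rfl
          (h.trans _ _ _ (w0 p _ hp ?_)) hJx, w2 _ _ ?_ hp⟩
        · exact hLc
        · exact hLc
      · rcases v0 x p hx hxL h with ⟨t1, t2, t3, t4⟩ | t1
        · rcases hV with ⟨u1, u2, u3, u4⟩ | u1
          · have e := slice_eq (p := p) (by omega) t3
            rw [e] at h
            refine ⟨p.1.toNat, by omega, by omega, by omega,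
              g0 x p.1.toNat hx (by omega) hxL (by omega) h hJx, ?_⟩
            rw [← e]
            exact EqvGen.refl _
          · exact absurd u1 hp
        · exact absurd t1 hp
    · obtain ⟨u1, u2, u3, u4⟩ := v1 x p hx hxa h
      rcases hV with ⟨t1, t2, t3, t4⟩ | t1
      · omega
      · omega
    · exact ⟨x, hx, hax, hxL, hJx, h⟩
  -- the steps
  have st0 : ∀ p p', V0 a b p → EqvGen (F0 a b M ω) p p' → P p → P p' := by
    intro p p' hV he hP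
    obtain ⟨x, hx, hxL, hJx, h⟩ := key0 p hP hV
    exact ⟨x, hx, hxL, hJx, Or.inl (h.trans _ _ _ he)⟩
  have st1 : ∀ p p', V1 a p → EqvGen (F1 a M ω) p p' → P p → P p' := by
    intro p p' hV he hP
    obtain ⟨x, hx, hxa, hJx, h⟩ := key1 p hP hV
    exact ⟨x, hx, by omega, hJx, Or.inr (Or.inl ⟨hxa, h.trans _ _ _ he⟩)⟩
  have st2 : ∀ p p', V2 a b p → EqvGen (F2 a b M ω) p p' → P p → P p' := by
    intro p p' hV he hP
    obtain ⟨x, hx, hax, hxL, hJx, h⟩ := key2 p hP hV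
    exact ⟨x, hx, hxL, hJx, Or.inr (Or.inr ⟨hax, h.trans _ _ _ he⟩)⟩
  have main : P ((a : ℤ) + 1, 0) ↔ P ((a : ℤ) + b + 2, 0) := by
    refine T22.eqvGen_iff P ?_ hEE
    rintro p p' (h | h | h)
    · obtain ⟨hV, hV'⟩ := f0_V h
      exact ⟨st0 p p' hV (EqvGen.rel _ _ h), st0 p' p hV' (EqvGen.symm _ _ (EqvGen.rel _ _ h))⟩
    · obtain ⟨hV, hV'⟩ := f1_V h
      exact ⟨st1 p p' hV (EqvGen.rel _ _ h), st1 p' p hV' (EqvGen.symm _ _ (EqvGen.rel _ _ h))⟩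
    · obtain ⟨hV, hV'⟩ := f2_V h
      exact ⟨st2 p p' hV (EqvGen.rel _ _ h), st2 p' p hV' (EqvGen.symm _ _ (EqvGen.rel _ _ h))⟩
  have hac : (((a + 1 : ℕ)) : ℤ) = (a : ℤ) + 1 := by push_cast; ring
  have hPa : P ((a : ℤ) + 1, 0) := ⟨a + 1, by omega, by omega, EqvGen.refl _,
    Or.inl (by rw [hac]; exact EqvGen.refl _)⟩
  obtain ⟨x, hx, hxL, hJx, h⟩ := key0 _ (main.1 hPa) (Or.inr rfl)
  refine g0 x (a + b + 2) hx (by omega) hxL le_rfl ?_ hJx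
  rw [hLc]
  exact h

end Pool.Agent.H981R2.TP
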