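import Pool.Agent.H981R2.TP.Stubs

/-! C6: a window connection gives an arm of the tip. -/

namespace Pool.Agent.H981R2.TP

open Pool.Agent.H988R2.Perc hiding X
open Pool.Agent.H492C
open Pool.Agent.H980R3.Slit (GP)
open Relation

theorem C6.gp_gadj {a b M : ℕ} {ω : Conf} {p p' : ℤ × ℤ} (h : FF a b M ω p p') :
    (GAdj (a+b+2) M ω p p' ∧ ((p.1 + p.2) % 2 = 1 ∧ (p'.1 + p'.2) % 2 = 1 ∧ 0 ≤ p.1 ∧ 0 ≤ p'.1 ∧
      p.1 ≤ a + b + 2 ∧ p'.1 ≤ a + b + 2) ∧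
      ¬ (0 ≤ p.2 ∧ 0 ≤ p'.2 ∧ (p.1 = a + 1 ∨ p'.1 = a + 1))) ∨
    (p.1 = a + b + 2 ∧ p'.1 = a + b + 2) := by
  rcases h with (h | h) | h | (h | h)
  · left
    obtain ⟨i, r, h1, h2, h3, h4, h5, h6⟩ := h
    refine ⟨⟨i, r, h1, by push_cast; omega, h3, by omega, h5, h6⟩, ?_⟩
    rcases h6 with ⟨h6, rfl, rfl⟩ | ⟨h6, rfl, rfl⟩
    · dsimp only
      refine ⟨⟨by omega, by omega, by omega, by omega, by omega, by omega⟩, by omega⟩
    · dsimp only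
      refine ⟨⟨by omega, by omega, by omega, by omega, by omega, by omega⟩, by omega⟩
  · exact Or.inr h
  · left
    obtain ⟨i, r, h1, h2, h3, h4, h5, h6⟩ := h
    refine ⟨⟨i, r, h1, by push_cast; omega, by omega, by omega, h5, h6⟩, ?_⟩
    rcases h6 with ⟨h6, rfl, rfl⟩ | ⟨h6, rfl, rfl⟩
    · dsimp only
      refine ⟨⟨by omega, by omega, by omega, by omega, by omega, by omega⟩, by omega⟩
    · dsimp only
      refine ⟨⟨by omega, by omega, by omega, by omega, by omega, by omega⟩, by omega⟩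
  · left
    obtain ⟨i, r, h1, h2, h3, h4, h5, h6⟩ := h
    refine ⟨⟨i, r, by omega, by push_cast; omega, by omega, by omega, h5, h6⟩, ?_⟩
    rcases h6 with ⟨h6, rfl, rfl⟩ | ⟨h6, rfl, rfl⟩
    · dsimp only
      refine ⟨⟨by omega, by omega, by omega, by omega, by omega, by omega⟩, by omega⟩
    · dsimp only
      refine ⟨⟨by omega, by omega, by omega, by omega, by omega, by omega⟩, by omega⟩
  · exact Or.inr h

theorem C6.toZ_sum (p : ℤ × ℤ) (h : (p.1 + p.2) % 2 = 1) :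
    (T22.toZ p).1 + (T22.toZ p).2 = p.2 + 1 := by
  unfold T22.toZ; dsimp only; omega

theorem C6.tip_eq (a : ℕ) (ha : Even a) : tip a = T22.toZ ((a : ℤ) + 1, 0) := by
  obtain ⟨c, rfl⟩ := ha
  unfold tip T22.toZ
  ext
  · dsimp only; omega
  · dsimp only; omega

theorem t_C6 : S_C6 := by
  intro a b M ω ha hb h
  by_contra hc
  have ha2 : (a : ℤ) % 2 = 0 := by
    obtain ⟨c, rfl⟩ := ha
    omega
  let P : ℤ × ℤ → Prop := fun p => (p.1 + p.2) % 2 = 1 ∧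
    ReflTransGen (TipAdj a b ω) (tip a) (T22.toZ p)
  have wired : ∀ p : ℤ × ℤ, p.1 = a + b + 2 → ¬ P p := by
    rintro p hp ⟨h1, h2⟩
    exact hc ⟨T22.toZ p, by rw [T22.toZ_diff p h1, hp], h2⟩
  have step : ∀ p p' : ℤ × ℤ, OpenAdj ω (T22.toZ p) (T22.toZ p') →
      ((p.1 + p.2) % 2 = 1 ∧ (p'.1 + p'.2) % 2 = 1 ∧ 0 ≤ p.1 ∧ 0 ≤ p'.1 ∧
      p.1 ≤ a + b + 2 ∧ p'.1 ≤ a + b + 2) →
      ¬ (0 ≤ p.2 ∧ 0 ≤ p'.2 ∧ (p.1 = a + 1 ∨ p'.1 = a + 1)) →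
      P p → P p' := by
    rintro p p' ho ⟨f1, f2, f3, f4, f5, f6⟩ hs ⟨h1, h2⟩
    have d1 := T22.toZ_diff p f1
    have d2 := T22.toZ_diff p' f2
    have e1 := C6.toZ_sum p f1
    have e2 := C6.toZ_sum p' f2
    have hadj : TipAdj a b ω (T22.toZ p) (T22.toZ p') := by
      refine ⟨ho, by omega, by omega, ?_⟩
      rw [d1, d2, e1, e2]
      rintro ⟨g1, g2, g3⟩
      exact hs ⟨by omega, by omega, g3⟩
    exact ⟨f2, h2.tail hadj⟩
  have key : P ((a : ℤ) + 1, 0) ↔ P ((a : ℤ) + b + 2, 0) := by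
    refine T22.eqvGen_iff P ?_ h
    intro p p' h1
    rcases C6.gp_gadj h1 with ⟨g1, g2, g3⟩ | ⟨g1, g2⟩
    · have ho := T22.gadj_open g1
      obtain ⟨f1, f2, f3, f4, f5, f6⟩ := g2
      exact ⟨step p p' ho ⟨f1, f2, f3, f4, f5, f6⟩ g3,
        step p' p (T22.openAdj_symm ho) ⟨f2, f1, f4, f3, f6, f5⟩ (by tauto)⟩
    · exact ⟨fun h => absurd h (wired p g1), fun h => absurd h (wired p' g2)⟩
  have hP1 : P ((a : ℤ) + 1, 0) := by
    refine ⟨by dsimp only; omega, ?_⟩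
    rw [C6.tip_eq a ha]
  exact wired _ rfl (key.1 hP1)

end Pool.Agent.H981R2.TP
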