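import Pool.Agent.H981R2.TP.Stubs

/-! C7 (helper85, adapted from helper733's C07): an arm from the tip gives a window connection. -/

namespace Pool.Agent.H981R2.TP

open Pool.Agent.H988R2.Perc hiding X
open Pool.Agent.H980R3.Slit (GP)
open Relation

theorem C7.gp_mono {lo hi t0 t1 s0 s1 : ℤ} (h0 : s0 ≤ t0) (h1 : t1 ≤ s1) {ω : Conf} {p p' : ℤ × ℤ}
    (h : GP lo hi t0 t1 ω p p') : GP lo hi s0 s1 ω p p' := by
  obtain ⟨i, r, h1, h2, h3, h4, h5, h6⟩ := h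
  exact ⟨i, r, h1, h2, by omega, by omega, h5, h6⟩

theorem C7.ff_mono {a b M M' : ℕ} (hM : M ≤ M') {ω : Conf} {p p' : ℤ × ℤ}
    (h : FF a b M ω p p') : FF a b M' ω p p' := by
  rcases h with (h | h) | h | (h | h)
  · exact Or.inl (Or.inl (C7.gp_mono (by omega) (le_refl _) h))
  · exact Or.inl (Or.inr h)
  · exact Or.inr (Or.inl (C7.gp_mono (le_refl _) (by omega) h))
  · exact Or.inr (Or.inr (Or.inl (C7.gp_mono (le_refl _) (by omega) h)))
  · exact Or.inr (Or.inr (Or.inr h))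

theorem C7.gadj_ff {a b M : ℕ} {ω : Conf} {p p' : ℤ × ℤ} (h : GAdj (a+b+2) M ω p p')
    (hs : ¬ (0 ≤ p.2 ∧ 0 ≤ p'.2 ∧ (p.1 = a + 1 ∨ p'.1 = a + 1))) :
    FF a b M ω p p' := by
  obtain ⟨i, r, h1, h2, h3, h4, h5, h6⟩ := h
  push_cast at h2
  by_cases hr : r < 0
  · exact Or.inl (Or.inl ⟨i, r, h1, h2, h3, hr, h5, h6⟩)
  · have hi : i ≠ a + 1 := by
      rintro rfl
      apply hs
      rcases h6 with ⟨h6, rfl, rfl⟩ | ⟨h6, rfl, rfl⟩
      · dsimp only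
        exact ⟨by omega, by omega, Or.inl rfl⟩
      · dsimp only
        exact ⟨by omega, by omega, Or.inr rfl⟩
    have hi2 : i ≠ a + 2 := by
      rintro rfl
      apply hs
      rcases h6 with ⟨h6, rfl, rfl⟩ | ⟨h6, rfl, rfl⟩
      · dsimp only
        exact ⟨by omega, by omega, Or.inr (by omega)⟩
      · dsimp only
        exact ⟨by omega, by omega, Or.inl (by omega)⟩
    by_cases hia : i ≤ a
    · exact Or.inr (Or.inl ⟨i, r, h1, hia, by omega, h4, h5, h6⟩)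
    · exact Or.inr (Or.inr (Or.inl ⟨i, r, by omega, h2, by omega, h4, h5, h6⟩))

/-- an open edge inside the slit strip belongs to a large window -/
theorem C7.open_ff (a b : ℕ) (ω : Conf) (x y : ℤ × ℤ) (h : TipAdj a b ω x y) (M : ℕ)
    (hM : |x.1 + x.2| + |y.1 + y.2| + 1 ≤ M) :
    EqvGen (FF a b M ω) (x.1 - x.2, x.1 + x.2 - 1) (y.1 - y.2, y.1 + y.2 - 1) := by
  obtain ⟨h, ⟨hx0, hx⟩, ⟨hy0, hy⟩, hs⟩ := h
  have hb1 := abs_le.mp (le_refl |x.1 + x.2|)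
  have hb2 := abs_le.mp (le_refl |y.1 + y.2|)
  obtain ⟨x1, x2⟩ := x
  obtain ⟨y1, y2⟩ := y
  dsimp only at *
  rcases h with ⟨e, h⟩ | ⟨e, h⟩ | ⟨e, h⟩ | ⟨e, h⟩
  · simp only [Prod.mk.injEq] at e
    obtain ⟨rfl, rfl⟩ := e
    refine EqvGen.rel _ _ (C7.gadj_ff (T22.gadj_h (a+b+2) M ω _ _ h (by omega)
      (by push_cast; omega) (by omega) (by omega)) ?_)
    dsimp only
    omega
  · simp only [Prod.mk.injEq] at e
    obtain ⟨rfl, rfl⟩ := e
    refine EqvGen.symm _ _ (EqvGen.rel _ _ (C7.gadj_ff (T22.gadj_h (a+b+2) M ω _ _ h (by omega)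
      (by push_cast; omega) (by omega) (by omega)) ?_))
    dsimp only
    omega
  · simp only [Prod.mk.injEq] at e
    obtain ⟨rfl, rfl⟩ := e
    refine EqvGen.rel _ _ (C7.gadj_ff (T22.gadj_v (a+b+2) M ω _ _ h (by omega)
      (by push_cast; omega) (by omega) (by omega)) ?_)
    dsimp only
    omega
  · simp only [Prod.mk.injEq] at e
    obtain ⟨rfl, rfl⟩ := e
    refine EqvGen.symm _ _ (EqvGen.rel _ _ (C7.gadj_ff (T22.gadj_v (a+b+2) M ω _ _ h (by omega)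
      (by push_cast; omega) (by omega) (by omega)) ?_))
    dsimp only
    omega

theorem t_C7 : S_C7 := by
  rintro a b ω ha hb ⟨y, hy, h⟩
  have key : ∃ M : ℕ, EqvGen (FF a b M ω) ((tip a).1 - (tip a).2, (tip a).1 + (tip a).2 - 1)
      (y.1 - y.2, y.1 + y.2 - 1) := by
    clear hy
    induction h with
    | refl => exact ⟨0, EqvGen.refl _⟩
    | tail _ hs ih =>
      rename_i y z _
      obtain ⟨M, ih⟩ := ih
      obtain ⟨M', hM'⟩ : ∃ M' : ℕ, M ≤ M' ∧ |y.1 + y.2| + |z.1 + z.2| + 1 ≤ (M' : ℤ) := by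
        refine ⟨M + (|y.1 + y.2| + |z.1 + z.2| + 1).toNat, by omega, ?_⟩
        have := Int.self_le_toNat (|y.1 + y.2| + |z.1 + z.2| + 1)
        push_cast
        push_cast at this
        omega
      exact ⟨M', EqvGen.trans _ _ _ (ih.mono (fun _ _ => C7.ff_mono hM'.1))
        (C7.open_ff a b ω y z hs M' hM'.2)⟩
  obtain ⟨M, hM⟩ := key
  have htip : ((tip a).1 - (tip a).2, (tip a).1 + (tip a).2 - 1) = ((a : ℤ) + 1, (0 : ℤ)) := by
    obtain ⟨k, hk⟩ := ha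
    unfold tip
    ext
    · dsimp only; omega
    · dsimp only; omega
  rw [htip] at hM
  refine ⟨M, EqvGen.trans _ _ _ hM (EqvGen.rel _ _ (Or.inl (Or.inr ⟨?_, ?_⟩)))⟩
  · exact hy
  · rfl

end Pool.Agent.H981R2.TP
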