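import Pool.Agent.H981R2.TP.Stubs

/-! C8 (helper596; adapted from H980R3/Slit/C08 of helper687): cells of the bits. -/

namespace Pool.Agent.H981R2.TP

open Pool.Agent.H988R2.Perc hiding X
open Pool.Agent.H492C
open MeasureTheory Finset

namespace C8

/-- a cylinder given by finitely many distinct edges -/
theorem perc_cyl {J : Type*} [Fintype J] (e : J → Edge) (he : Function.Injective e)
    (b : J → Bool) :
    perc (⋂ j : J, (fun ω : Conf => ω (e j)) ⁻¹' {b j}) = (1/2) ^ (Fintype.card J) := by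
  have hind : ProbabilityTheory.iIndepFun (fun (e : Edge) (ω : Conf) => ω e) perc := by
    unfold perc
    exact ProbabilityTheory.iIndepFun_infinitePi (X := fun _ b => b) (fun _ => measurable_id)
  have hind2 := hind.precomp he
  have h3 := hind2.measure_inter_preimage_eq_mul (Finset.univ : Finset J)
    (sets := fun j => {b j}) (fun j _ => measurableSet_singleton _)
  simp only [Finset.mem_univ, Set.iInter_true] at h3
  have h4 : ∀ j : J, perc ((fun ω : Conf => ω (e j)) ⁻¹' {b j}) = 1/2 := by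
    intro j
    have := (measurePreserving_eval_infinitePi (fun _ : Edge => coin) (e j)).measure_preimage
      (measurableSet_singleton (b j)).nullMeasurableSet
    unfold perc
    rw [← T23.coin_singleton (b j), ← this]
  rw [h3]
  simp only [h4]
  rw [Finset.prod_const, Finset.card_univ]

theorem measurableSet_cyl {J : Type*} [Fintype J] (e : J → Edge) (b : J → Bool) :
    MeasurableSet (⋂ j : J, (fun ω : Conf => ω (e j)) ⁻¹' {b j}) :=
  MeasurableSet.iInter (fun j => (measurable_pi_apply (e j)) (measurableSet_singleton _))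

/-- edge of a coordinate of the upper right window -/
def eR (a M : ℕ) (j : ℕ × ℕ) : Edge :=
  edgeOf ((j.2 : ℤ) + (a + 2)) (2 * (M : ℤ) - 1 - j.1)

/-- index set of the coordinates -/
abbrev J3' (a b M : ℕ) := (↥(T23.SS (a+b+2) M) ⊕ ↥(T23.SS a M)) ⊕ ↥(T23.SS b M)

/-- the edges -/
def ee3 (a b M : ℕ) : J3' a b M → Edge
  | Sum.inl (Sum.inl j) => T23.eP M j
  | Sum.inl (Sum.inr j) => T23.eF M j
  | Sum.inr j => eR a M j

theorem ee3_inj (a b M : ℕ) : Function.Injective (ee3 a b M) := by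
  rintro ((⟨⟨k, i⟩, h⟩ | ⟨⟨k, i⟩, h⟩) | ⟨⟨k, i⟩, h⟩) ((⟨⟨k', i'⟩, h'⟩ | ⟨⟨k', i'⟩, h'⟩) | ⟨⟨k', i'⟩, h'⟩) hh
  all_goals
    simp only [ee3, T23.eP, T23.eF, eR] at hh
    have := T23.edgeOf_inj hh
    rw [T23.mem_SS] at h h'
    simp only at h h'
    try simp only [Sum.inl.injEq, Sum.inr.injEq, Subtype.mk.injEq, Prod.mk.injEq]
    omega

/-- the bit prescribed by a triple of sets -/
def bb3 (a b M : ℕ) (p0 p1 p2 : Finset (ℕ × ℕ)) : J3' a b M → Bool
  | Sum.inl (Sum.inl j) => decide (j.1 ∈ p0)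
  | Sum.inl (Sum.inr j) => decide (j.1 ∈ p1)
  | Sum.inr j => decide (j.1 ∈ p2)

theorem filter_eq_iff (S p : Finset (ℕ × ℕ)) (f : ℕ × ℕ → Bool) (hp : p ⊆ S) :
    S.filter (fun j => f j = true) = p ↔ ∀ j : ↥S, f j.1 = decide (j.1 ∈ p) := by
  constructor
  · rintro rfl ⟨j, hj⟩
    simp only [mem_filter, hj, true_and]
    cases f j <;> simp
  · intro h
    ext j
    rw [mem_filter]
    constructor
    · rintro ⟨hj, ho⟩
      have := h ⟨j, hj⟩
      simp only [ho] at this
      simpa using this.symm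
    · intro hj
      refine ⟨hp hj, ?_⟩
      have := h ⟨j, hp hj⟩
      simp only [hj, decide_true] at this
      exact this

theorem cell4_eq (a b M : ℕ) (p0 p1 p2 : Finset (ℕ × ℕ)) (h0 : p0 ⊆ T23.SS (a+b+2) M)
    (h1 : p1 ⊆ T23.SS a M) (h2 : p2 ⊆ T23.SS b M) :
    cell4 a b M p0 p1 p2 =
      ⋂ j : J3' a b M, (fun ω : Conf => ω (ee3 a b M j)) ⁻¹' {bb3 a b M p0 p1 p2 j} := by
  ext ω
  simp only [cell4, T23.tP, T23.tF, tR2, Set.mem_ofPred_eq, Set.mem_iInter, Set.mem_preimage,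
    Set.mem_singleton_iff]
  rw [filter_eq_iff _ _ (fun j => ω (T23.eP M j)) h0,
    filter_eq_iff _ _ (fun j => ω (T23.eF M j)) h1,
    filter_eq_iff _ _ (fun j => ω (edgeOf ((j.2 : ℤ) + (a + 2)) (2 * (M : ℤ) - 1 - j.1))) h2]
  constructor
  · rintro ⟨e0, e1, e2⟩ ((j | j) | j)
    · exact e0 j
    · exact e1 j
    · exact e2 j
  · intro h
    exact ⟨fun j => h (Sum.inl (Sum.inl j)), fun j => h (Sum.inl (Sum.inr j)),
      fun j => h (Sum.inr j)⟩

theorem card_J3 (a b M : ℕ) :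
    Fintype.card (J3' a b M) = 2*M*(a+b+2) + 2*M*a + 2*M*b := by
  have h : ∀ L, (T23.SS L M).card = 2*M*L := by
    intro L
    rw [T23.SS, card_product, card_range, Nat.card_Icc, Nat.add_sub_cancel]
  rw [Fintype.card_sum, Fintype.card_sum, Fintype.card_coe, Fintype.card_coe, Fintype.card_coe,
    h, h, h]

end C8

open C8 in
theorem t_C8 : S_C8 := by
  intro a b M p0 p1 p2 h0 h1 h2
  rw [cell4_eq a b M p0 p1 p2 h0 h1 h2]
  refine ⟨measurableSet_cyl _ _, ?_⟩
  rw [perc_cyl _ (ee3_inj a b M), card_J3]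

end Pool.Agent.H981R2.TP
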