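import Pool.Agent.H981R2.TP.Main

/-! Project TP: the closed form and its asymptotics. -/

namespace Pool.Agent.H981R2.TP

open Pool.Agent.H988R2.Perc hiding X
open Filter Topology MeasureTheory Finset

/-- rising factorial -/
noncomputable def rising (s : ℝ) (k : ℕ) : ℝ := ∏ i ∈ range k, (s + i)

theorem rising_pos {s : ℝ} (hs : 0 < s) (k : ℕ) : 0 < rising s k :=
  prod_pos fun i _ => by positivity

theorem rising_succ (s : ℝ) (k : ℕ) : rising s (k+1) = rising s k * (s + k) := by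
  unfold rising; rw [prod_range_succ]

/-- the closed form -/
theorem closed_form (m n : ℕ) : tipFormula (2*m) (2*n+1) =
    rising (2/3) (2*m+1) * rising (1/3) (2*n+2) * rising (1/2) (2*m+2*n+3) /
      (rising (1/2) (2*m+1) * rising (1/2) (2*n+2) * rising (2/3) (2*m+2*n+3)) := by
  have c1 : chi (2*m+1) = chi (2*m) * t25r (2*m) := t25_succ (2*m)
  have c2 : chi (2*n+1+1) = chi (2*n+1) * t25r (2*n+1) := t25_succ (2*n+1)
  have c3 : chi (2*(m+n+1)+1) = chi (2*(m+n+1)) * t25r (2*(m+n+1)) := t25_succ (2*(m+n+1))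
  unfold tipFormula
  have i1 : 2*m + (2*n+1) + 1 = 2*(m+n+1) := by ring
  have i2 : 2*m + (2*n+1) + 2 = 2*(m+n+1)+1 := by ring
  rw [i1, i2, c1, c2, c3, D2_even, D2_odd, D2_even]
  have p1 := (chi_pos (2*m)).ne'
  have p2 := (chi_pos (2*n+1)).ne'
  have p3 := (chi_pos (2*(m+n+1))).ne'
  have e1 : ∏ j ∈ range (2*m), (((2/3 : ℝ) + j) / ((1/2 : ℝ) + j)) =
      rising (2/3) (2*m) / rising (1/2) (2*m) := by
    unfold rising; rw [prod_div_distrib]
  have e2 : ∏ j ∈ range (2*n+1), (((1/3 : ℝ) + j) / ((1/2 : ℝ) + j)) =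
      rising (1/3) (2*n+1) / rising (1/2) (2*n+1) := by
    unfold rising; rw [prod_div_distrib]
  have e3 : ∏ j ∈ range (2*(m+n+1)), (((2/3 : ℝ) + j) / ((1/2 : ℝ) + j)) =
      rising (2/3) (2*(m+n+1)) / rising (1/2) (2*(m+n+1)) := by
    unfold rising; rw [prod_div_distrib]
  rw [e1, e2, e3]
  have i3 : 2*m+2*n+3 = 2*(m+n+1)+1 := by ring
  have i4 : 2*n+2 = 2*n+1+1 := by ring
  rw [i3, i4, rising_succ (2/3) (2*m), rising_succ (1/3) (2*n+1), rising_succ (1/2) (2*(m+n+1)),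
    rising_succ (1/2) (2*m), rising_succ (1/2) (2*n+1), rising_succ (2/3) (2*(m+n+1))]
  have r1 := (rising_pos (by norm_num : (0:ℝ) < 2/3) (2*m)).ne'
  have r2 := (rising_pos (by norm_num : (0:ℝ) < 1/3) (2*n+1)).ne'
  have r3 := (rising_pos (by norm_num : (0:ℝ) < 1/2) (2*(m+n+1))).ne'
  have r4 := (rising_pos (by norm_num : (0:ℝ) < 1/2) (2*m)).ne'
  have r5 := (rising_pos (by norm_num : (0:ℝ) < 1/2) (2*n+1)).ne'
  have r6 := (rising_pos (by norm_num : (0:ℝ) < 2/3) (2*(m+n+1))).ne'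
  have hp : ((81/16 : ℝ)^(m+n+1)) = (81/16)^m * (81/16)^n * (81/16) := by
    rw [pow_succ, pow_add]
  rw [hp]
  have q1 : ((81/16 : ℝ))^m ≠ 0 := by positivity
  have q2 : ((81/16 : ℝ))^n ≠ 0 := by positivity
  generalize ((81/16 : ℝ))^m = P at *
  generalize ((81/16 : ℝ))^n = Q at *
  generalize rising (2/3) (2*m) = R1 at *
  generalize rising (1/3) (2*n+1) = R2 at *
  generalize rising (1/2) (2*(m+n+1)) = R3 at *
  generalize rising (1/2) (2*m) = R4 at *
  generalize rising (1/2) (2*n+1) = R5 at *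
  generalize rising (2/3) (2*(m+n+1)) = R6 at *
  generalize chi (2*m) = X1 at *
  generalize chi (2*n+1) = X2 at *
  generalize chi (2*(m+n+1)) = X3 at *
  push_cast
  have d1 : (4*(m:ℝ)+1) ≠ 0 := by positivity
  have d2 : (4*(n:ℝ)+3) ≠ 0 := by positivity
  have d3 : (4*((m:ℝ)+n+1)+1) ≠ 0 := by positivity
  have d4 : (3*((m:ℝ)+n+1)+1) ≠ 0 := by positivity
  have d5 : (1/2 + 2*(m:ℝ)) ≠ 0 := by positivity
  have d6 : (1/2 + (2*(n:ℝ)+1)) ≠ 0 := by positivity
  have d7 : (2/3 + 2*((m:ℝ)+n+1)) ≠ 0 := by positivity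
  field_simp
  ring

theorem ratio_tendsto (s : ℝ) (hs : 0 < s) :
    Tendsto (fun N : ℕ => rising s N / rising (1/2) N / (N:ℝ)^(s - 1/2)) atTop
      (𝓝 (Real.Gamma (1/2) / Real.Gamma s)) := by
  have h1 := D2_ratio s hs
  have h2 : Tendsto (fun N : ℕ => ((1 * (N:ℝ) + 1/2) / (1 * (N:ℝ) + s))) atTop (𝓝 (1/1)) :=
    D2_lin 1 (1/2) 1 s (by norm_num)
  have h3 := h1.mul h2
  have e : Real.Gamma (1/2) / Real.Gamma s * (1/1) = Real.Gamma (1/2) / Real.Gamma s := by ring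
  rw [e] at h3
  refine h3.congr fun N => ?_
  have e1 : ∏ j ∈ range (N+1), ((s + j) / ((1/2 : ℝ) + j)) =
      rising s (N+1) / rising (1/2) (N+1) := by
    unfold rising; rw [prod_div_distrib]
  rw [e1, rising_succ, rising_succ]
  have d1 : (s + (N:ℝ)) ≠ 0 := by positivity
  have d2 : ((1/2:ℝ) + N) ≠ 0 := by positivity
  have d3 : (1 * (N:ℝ) + s) ≠ 0 := by positivity
  have d4 := (rising_pos (by norm_num : (0:ℝ) < 1/2) N).ne'
  have e2 : (1 * (N:ℝ) + s) = s + N := by ring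
  have e3 : (1 * (N:ℝ) + 1/2) = 1/2 + N := by ring
  rw [e2, e3]
  generalize (N:ℝ)^(s - 1/2) = Y
  field_simp

/-- the closed form as a function of the column `p` of the slit and of the distance `r` to the
right side -/
noncomputable def tipVal (p r : ℕ) : ℝ :=
  rising (2/3) p * rising (1/3) r * rising (1/2) (p+r) /
    (rising (1/2) p * rising (1/2) r * rising (2/3) (p+r))

theorem tipVal_asymp (p r : ℕ → ℕ) (tp : Tendsto p atTop atTop) (tr : Tendsto r atTop atTop) :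
    Tendsto (fun n => tipVal (p n) (r n) * ((r n : ℝ) * (p n + r n) / p n)^((1:ℝ)/6)) atTop
      (𝓝 (Real.sqrt Real.pi / Real.Gamma (1/3))) := by
  have ts : Tendsto (fun n => p n + r n) atTop atTop :=
    tendsto_atTop_mono (fun n => Nat.le_add_right _ _) tp
  have h1 := (ratio_tendsto (2/3) (by norm_num)).comp tp
  have h2 := (ratio_tendsto (1/3) (by norm_num)).comp tr
  have hg : Real.Gamma (1/2) / Real.Gamma (2/3) ≠ 0 :=
    (div_pos (Real.Gamma_pos_of_pos (by norm_num)) (Real.Gamma_pos_of_pos (by norm_num))).ne'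
  have h3 := ((ratio_tendsto (2/3) (by norm_num)).comp ts).inv₀ hg
  have h4 := (h1.mul h2).mul h3
  have e : Real.Gamma (1/2) / Real.Gamma (2/3) * (Real.Gamma (1/2) / Real.Gamma (1/3)) *
      (Real.Gamma (1/2) / Real.Gamma (2/3))⁻¹ = Real.sqrt Real.pi / Real.Gamma (1/3) := by
    rw [← Real.Gamma_one_half_eq]
    field_simp
  rw [e] at h4
  refine h4.congr' ?_
  filter_upwards [tp.eventually_gt_atTop 0, tr.eventually_gt_atTop 0] with n hn1 hn2
  simp only [Function.comp_apply]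
  have hp : (0:ℝ) < p n := by exact_mod_cast hn1
  have hr : (0:ℝ) < r n := by exact_mod_cast hn2
  have hs : (0:ℝ) < p n + r n := by positivity
  rw [Real.div_rpow (by positivity) hp.le, Real.mul_rpow hr.le hs.le]
  have e1 : ((2/3:ℝ) - 1/2) = 1/6 := by norm_num
  have e2 : ((1/3:ℝ) - 1/2) = -(1/6) := by norm_num
  rw [e1, e2, Real.rpow_neg hr.le]
  push_cast
  have p1 : (0:ℝ) < (p n : ℝ)^((1:ℝ)/6) := Real.rpow_pos_of_pos hp _
  have p2 : (0:ℝ) < (r n : ℝ)^((1:ℝ)/6) := Real.rpow_pos_of_pos hr _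
  have p3 : (0:ℝ) < ((p n : ℝ) + r n)^((1:ℝ)/6) := Real.rpow_pos_of_pos hs _
  unfold tipVal
  have r1 := (rising_pos (by norm_num : (0:ℝ) < 1/2) (p n)).ne'
  have r2 := (rising_pos (by norm_num : (0:ℝ) < 1/2) (r n)).ne'
  have r3 := (rising_pos (by norm_num : (0:ℝ) < 1/2) (p n + r n)).ne'
  have r4 := (rising_pos (by norm_num : (0:ℝ) < 2/3) (p n + r n)).ne'
  field_simp

end Pool.Agent.H981R2.TP
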