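import Pool.Agent.H981R2.TP.Stubs
import Pool.Agent.H988R2.Perc.T25

namespace Pool.Agent.H981R2.TP

open Pool.Agent.H988R2.Perc hiding X
open Finset Filter Topology

private theorem D1_fact (N : ℕ) : ∏ j ∈ range (2 * N), ((j : ℝ) + 1) =
    4 ^ N * (∏ j ∈ range N, ((j : ℝ) + 1)) * ∏ j ∈ range N, ((1 / 2 : ℝ) + j) := by
  induction N with
  | zero => simp
  | succ n ih =>
    rw [show 2 * (n + 1) = 2 * n + 1 + 1 by ring, prod_range_succ, prod_range_succ, ih,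
      prod_range_succ, prod_range_succ]
    push_cast
    ring

private theorem D1_ratio (s : ℝ) (hs : 0 < s) :
    Tendsto (fun N : ℕ => (∏ j ∈ range (N + 1), ((s + j) / ((1 / 2 : ℝ) + j))) /
      (N : ℝ) ^ (s - 1 / 2)) atTop (𝓝 (Real.Gamma (1 / 2) / Real.Gamma s)) := by
  have h1 : Tendsto (fun n : ℕ => Real.GammaSeq (1 / 2) n / Real.GammaSeq s n) atTop
      (𝓝 (Real.Gamma (1 / 2) / Real.Gamma s)) :=
    (Real.GammaSeq_tendsto_Gamma (1 / 2)).div (Real.GammaSeq_tendsto_Gamma s)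
      (Real.Gamma_pos_of_pos hs).ne'
  refine h1.congr' ?_
  filter_upwards [eventually_gt_atTop 0] with n hn
  have hn' : (0 : ℝ) < n := by exact_mod_cast hn
  unfold Real.GammaSeq
  have hA : 0 < ∏ j ∈ Finset.range (n + 1), ((1:ℝ)/2 + j) :=
    Finset.prod_pos fun j _ => by positivity
  have hB : 0 < ∏ j ∈ Finset.range (n + 1), (s + j) :=
    Finset.prod_pos fun j _ => by positivity
  have hf : (0 : ℝ) < n.factorial := by exact_mod_cast n.factorial_pos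
  have h9 : (n : ℝ) ^ s = (n : ℝ) ^ (s - 1 / 2) * (n : ℝ) ^ ((1:ℝ)/2) := by
    rw [← Real.rpow_add hn']
    norm_num
  rw [h9, Finset.prod_div_distrib]
  have h10 : 0 < (n : ℝ) ^ ((1:ℝ)/2) := Real.rpow_pos_of_pos hn' _
  have h11 : 0 < (n : ℝ) ^ (s - 1 / 2) := Real.rpow_pos_of_pos hn' _
  field_simp

private theorem D1_two : Tendsto (fun n : ℕ => 2 * n) atTop atTop :=
  tendsto_atTop_mono (fun n => by show n ≤ 2 * n; omega) tendsto_id

private theorem D1_lin (a b c d : ℝ) (hc : 0 < c) :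
    Tendsto (fun n : ℕ => (a * n + b) / (c * n + d)) atTop (𝓝 (a / c)) := by
  have h3 : Tendsto (fun n : ℕ => (n : ℝ)⁻¹) atTop (𝓝 0) := tendsto_inv_atTop_nhds_zero_nat
  have h4 : Tendsto (fun n : ℕ => (a + b * (n : ℝ)⁻¹) / (c + d * (n : ℝ)⁻¹)) atTop
      (𝓝 ((a + b * 0) / (c + d * 0))) :=
    (tendsto_const_nhds.add (h3.const_mul b)).div (tendsto_const_nhds.add (h3.const_mul d))
      (by simpa using hc.ne')
  have h5 : (a + b * 0) / (c + d * 0) = a / c := by simp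
  rw [h5] at h4
  refine h4.congr' ?_
  filter_upwards [eventually_gt_atTop 0] with n hn
  have hn' : (n : ℝ) ≠ 0 := by exact_mod_cast hn.ne'
  have e1 : a + b * (n : ℝ)⁻¹ = (a * n + b) / n := by field_simp
  have e2 : c + d * (n : ℝ)⁻¹ = (c * n + d) / n := by field_simp
  rw [e1, e2, div_div_div_cancel_right₀ hn']

private theorem D1_pe (N : ℕ) : ∏ j ∈ range N, (3 * ((j : ℝ) + 1) * (3 * j + 2)) =
    9 ^ N * (∏ j ∈ range N, ((j : ℝ) + 1)) * ∏ j ∈ range N, ((2 / 3 : ℝ) + j) := by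
  induction N with
  | zero => simp
  | succ n ih =>
    rw [prod_range_succ, ih, prod_range_succ, prod_range_succ]
    ring

private theorem D1_po (N : ℕ) : ∏ j ∈ range N, ((3 * (j : ℝ) + 1) * (3 * ((j : ℝ) + 1))) =
    9 ^ N * (∏ j ∈ range N, ((j : ℝ) + 1)) * ∏ j ∈ range N, ((1 / 3 : ℝ) + j) := by
  induction N with
  | zero => simp
  | succ n ih =>
    rw [prod_range_succ, ih, prod_range_succ, prod_range_succ]
    ring

private theorem D1_even (n : ℕ) : t25r (2 * n) = (3 * n + 1) / (4 * n + 1) * (81 / 16 : ℝ) ^ n *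
    ∏ j ∈ range (2 * n), (((2 / 3 : ℝ) + j) / ((1 / 2 : ℝ) + j)) := by
  rw [t25_r, t25_num_even, t25_mu_even,
    prod_range_succ (fun j : ℕ => (j : ℝ) + 1) (2 * (2 * n)), D1_fact]
  have e1 := D1_pe (2 * n)
  rw [e1, prod_div_distrib]
  have hA : 0 < ∏ j ∈ range (2 * n), ((j : ℝ) + 1) := prod_pos fun j _ => by positivity
  have hB : 0 < ∏ j ∈ range (2 * n), ((1 / 2 : ℝ) + j) := prod_pos fun j _ => by positivity
  have e2 : (81 / 16 : ℝ) ^ n = 9 ^ (2 * n) / 4 ^ (2 * n) := by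
    rw [pow_mul, pow_mul, ← div_pow]
    norm_num
  rw [e2]
  push_cast
  field_simp
  ring

private theorem D1_odd (n : ℕ) : t25r (2 * n + 1) = 9 / 4 * ((3 * n + 2) / (4 * n + 3)) *
    (81 / 16 : ℝ) ^ n * ∏ j ∈ range (2 * n + 1), (((1 / 3 : ℝ) + j) / ((1 / 2 : ℝ) + j)) := by
  rw [t25_r, t25_num_odd, t25_mu_odd,
    prod_range_succ (fun j : ℕ => (j : ℝ) + 1) (2 * (2 * n + 1)), D1_fact]
  have e1 := D1_po (2 * n + 1)
  rw [e1, prod_div_distrib]
  have hA : 0 < ∏ j ∈ range (2 * n + 1), ((j : ℝ) + 1) := prod_pos fun j _ => by positivity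
  have hB : 0 < ∏ j ∈ range (2 * n + 1), ((1 / 2 : ℝ) + j) := prod_pos fun j _ => by positivity
  have e2 : (81 / 16 : ℝ) ^ n = 9 ^ (2 * n) / 4 ^ (2 * n) := by
    rw [pow_mul, pow_mul, ← div_pow]
    norm_num
  rw [e2]
  push_cast
  field_simp
  ring

theorem t_D1 : S_D1 := by
  refine ⟨3 / 4 * (2 / 2) * (Real.Gamma (1 / 2) / Real.Gamma (2 / 3)) * (2 : ℝ) ^ ((1:ℝ)/6), ?_, ?_⟩
  · have h1 := Real.Gamma_pos_of_pos (by norm_num : (0 : ℝ) < 1 / 2)
    have h2 := Real.Gamma_pos_of_pos (by norm_num : (0 : ℝ) < 2 / 3)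
    positivity
  · have h1 := D1_lin 3 1 4 1 (by norm_num)
    have h2 := D1_lin 2 (1 / 2) 2 (2 / 3) (by norm_num)
    have h3 := (D1_ratio (2 / 3) (by norm_num)).comp D1_two
    refine (((h1.mul h2).mul h3).mul_const ((2 : ℝ) ^ ((1:ℝ)/6))).congr' ?_
    filter_upwards [eventually_gt_atTop 0] with n hn
    have hn' : (0 : ℝ) < n := by exact_mod_cast hn
    rw [t25_succ, mul_div_cancel_left₀ _ (chi_pos (2 * n)).ne', D1_even]
    simp only [Function.comp_apply]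
    rw [prod_range_succ]
    have e3 : ((2 * n : ℕ) : ℝ) ^ ((2 / 3 : ℝ) - 1 / 2) = (2 : ℝ) ^ ((1:ℝ)/6) * (n : ℝ) ^ ((1:ℝ)/6) := by
      push_cast
      rw [Real.mul_rpow (by norm_num) hn'.le]
      norm_num
    rw [e3]
    have h4 : 0 < (2 : ℝ) ^ ((1:ℝ)/6) := by positivity
    have h5 : 0 < (n : ℝ) ^ ((1:ℝ)/6) := by positivity
    push_cast
    have h6 : (0 : ℝ) < 2 * n + 2 / 3 := by positivity
    have h7 : (0 : ℝ) < 1 / 2 + 2 * n := by positivity
    field_simp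
    ring

end Pool.Agent.H981R2.TP
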