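import Pool.Agent.H981R2.TP.Stubs
import Pool.Agent.H981R2.TP.D1
import Pool.Agent.H981R2.TP.D2

/-! Project TP, task D3: conformal covariance of the tip arm from the two product asymptotics. -/

set_option autoImplicit false

namespace Pool.Agent.H981R2.TP

open Pool.Agent.H988R2.Perc hiding X
open Filter Topology

theorem D3_formula (m k : ℕ) (hm : 0 < m) (hk : 0 < k) :
    tipFormula (2 * m) (2 * k + 1) *
      (((2 * k + 1 : ℕ) : ℝ) * (((2 * m : ℕ) : ℝ) + ((2 * k + 1 : ℕ) : ℝ)) / ((2 * m : ℕ) : ℝ)) ^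
        ((1:ℝ)/6) =
    3 * (chi (2*m+1) / chi (2*m) / ((81/16 : ℝ)^m * (m:ℝ)^((1:ℝ)/6))) *
      (chi (2*k+2) / chi (2*k+1) / ((81/16 : ℝ)^k / (k:ℝ)^((1:ℝ)/6))) *
      (chi (2*(m+k+1)+1) / chi (2*(m+k+1)) /
        ((81/16 : ℝ)^(m+k+1) * ((m+k+1 : ℕ):ℝ)^((1:ℝ)/6)))⁻¹ * (16/81) *
      ((2 + 1 / (k:ℝ)) * (2 - 1 / ((m+k+1 : ℕ):ℝ)) / 2) ^ ((1:ℝ)/6) := by
  have hm' : (0:ℝ) < m := by exact_mod_cast hm
  have hk' : (0:ℝ) < k := by exact_mod_cast hk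
  have hs : (0:ℝ) < ((m+k+1 : ℕ):ℝ) := by positivity
  have e1 : (((2 * k + 1 : ℕ) : ℝ) * (((2 * m : ℕ) : ℝ) + ((2 * k + 1 : ℕ) : ℝ)) /
      ((2 * m : ℕ) : ℝ)) =
      ((k:ℝ) * ((m+k+1 : ℕ):ℝ) / (m:ℝ)) *
        ((2 + 1 / (k:ℝ)) * (2 - 1 / ((m+k+1 : ℕ):ℝ)) / 2) := by
    push_cast
    have : (m:ℝ) + k + 1 ≠ 0 := by positivity
    field_simp
    ring
  have hnn : (0:ℝ) ≤ ((2 + 1 / (k:ℝ)) * (2 - 1 / ((m+k+1 : ℕ):ℝ)) / 2) := by
    have h1 : 1 / ((m+k+1 : ℕ):ℝ) ≤ 1 := by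
      rw [div_le_one hs]
      push_cast
      linarith
    have h2 : 0 ≤ 1 / (k:ℝ) := by positivity
    have h3 : (0:ℝ) ≤ 2 - 1 / ((m+k+1 : ℕ):ℝ) := by linarith
    positivity
  rw [e1, Real.mul_rpow (by positivity) hnn, Real.div_rpow (by positivity) hm'.le,
    Real.mul_rpow hk'.le hs.le]
  have p1 : (0:ℝ) < (m:ℝ)^((1:ℝ)/6) := Real.rpow_pos_of_pos hm' _
  have p2 : (0:ℝ) < (k:ℝ)^((1:ℝ)/6) := Real.rpow_pos_of_pos hk' _
  have p3 : (0:ℝ) < ((m+k+1 : ℕ):ℝ)^((1:ℝ)/6) := Real.rpow_pos_of_pos hs _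
  have e2 : tipFormula (2 * m) (2 * k + 1) = 3 * (chi (2*m+1) / chi (2*m)) *
      (chi (2*k+2) / chi (2*k+1)) * (chi (2*(m+k+1)+1) / chi (2*(m+k+1)))⁻¹ := by
    unfold tipFormula
    rw [show 2 * m + (2 * k + 1) + 1 = 2 * (m + k + 1) by ring,
      show 2 * m + (2 * k + 1) + 2 = 2 * (m + k + 1) + 1 by ring,
      show 2 * k + 1 + 1 = 2 * k + 2 by ring, inv_div]
    simp only [div_eq_mul_inv, mul_inv]
    ring
  rw [e2]
  generalize chi (2*m+1) / chi (2*m) = x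
  generalize chi (2*k+2) / chi (2*k+1) = y
  generalize chi (2*(m+k+1)+1) / chi (2*(m+k+1)) = z
  generalize ((2 + 1 / (k:ℝ)) * (2 - 1 / ((m+k+1 : ℕ):ℝ)) / 2) ^ ((1:ℝ)/6) = w
  generalize (m:ℝ)^((1:ℝ)/6) = a at *
  generalize (k:ℝ)^((1:ℝ)/6) = b at *
  generalize ((m+k+1 : ℕ):ℝ)^((1:ℝ)/6) = c at *
  have hp : ((81/16 : ℝ)^(m+k+1)) = (81/16)^m * (81/16)^k * (81/16) := by
    rw [pow_succ, pow_add]
  rw [hp]
  have q1 : ((81/16 : ℝ))^m ≠ 0 := by positivity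
  have q2 : ((81/16 : ℝ))^k ≠ 0 := by positivity
  generalize ((81/16 : ℝ))^m = P at *
  generalize ((81/16 : ℝ))^k = Q at *
  rw [inv_div, div_eq_mul_inv _ z]
  field_simp

theorem D3_of (Ce Co : ℝ) (hCe : 0 < Ce)
    (hE : Tendsto (fun n : ℕ => chi (2*n+1) / chi (2*n) / ((81/16 : ℝ)^n * (n:ℝ)^((1:ℝ)/6)))
      atTop (𝓝 Ce))
    (hO : Tendsto (fun n : ℕ => chi (2*n+2) / chi (2*n+1) / ((81/16 : ℝ)^n / (n:ℝ)^((1:ℝ)/6)))
      atTop (𝓝 Co)) (a b : ℕ → ℕ) (ha : ∀ n, Even (a n)) (hb : ∀ n, Odd (b n))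
    (ta : Tendsto a atTop atTop) (tb : Tendsto b atTop atTop) :
    Tendsto (fun n => tipFormula (a n) (b n) * ((b n : ℝ) * (a n + b n) / a n)^((1:ℝ)/6)) atTop
      (𝓝 (3 * Ce * Co * Ce⁻¹ * (16/81) * (2:ℝ)^((1:ℝ)/6))) := by
  have tm : Tendsto (fun n => a n / 2) atTop atTop :=
    Filter.tendsto_atTop.2 fun K => by
      filter_upwards [ta.eventually_ge_atTop (2 * K)] with n hn
      omega
  have tk : Tendsto (fun n => b n / 2) atTop atTop :=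
    Filter.tendsto_atTop.2 fun K => by
      filter_upwards [tb.eventually_ge_atTop (2 * K)] with n hn
      omega
  have ts : Tendsto (fun n => a n / 2 + b n / 2 + 1) atTop atTop :=
    tendsto_atTop_mono (fun n => by omega) tm
  have l1 := hE.comp tm
  have l2 := hO.comp tk
  have l3 := (hE.comp ts).inv₀ hCe.ne'
  have l4 : Tendsto (fun n => 1 / ((b n / 2 : ℕ) : ℝ)) atTop (𝓝 0) :=
    (tendsto_one_div_atTop_nhds_zero_nat (𝕜 := ℝ)).comp tk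
  have l5 : Tendsto (fun n => 1 / ((a n / 2 + b n / 2 + 1 : ℕ) : ℝ)) atTop (𝓝 0) :=
    (tendsto_one_div_atTop_nhds_zero_nat (𝕜 := ℝ)).comp ts
  have l6 : Tendsto (fun n => ((2 + 1 / ((b n / 2 : ℕ):ℝ)) *
      (2 - 1 / ((a n / 2 + b n / 2 + 1 : ℕ):ℝ)) / 2) ^ ((1:ℝ)/6)) atTop
      (𝓝 ((2:ℝ) ^ ((1:ℝ)/6))) := by
    have h := (((tendsto_const_nhds (x := (2:ℝ))).add l4).mul
      ((tendsto_const_nhds (x := (2:ℝ))).sub l5)).div_const 2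
    have h' : (2 + 0) * (2 - 0) / 2 = (2:ℝ) := by norm_num
    rw [h'] at h
    exact h.rpow_const (Or.inl two_ne_zero)
  have l7 := (((((tendsto_const_nhds (x := (3:ℝ))).mul l1).mul l2).mul l3).mul
    (tendsto_const_nhds (x := (16/81:ℝ)))).mul l6
  refine l7.congr' ?_
  filter_upwards [tm.eventually_gt_atTop 0, tk.eventually_gt_atTop 0] with n hn1 hn2
  have hA : 2 * (a n / 2) = a n := Nat.two_mul_div_two_of_even (ha n)
  have hB : 2 * (b n / 2) + 1 = b n := Nat.two_mul_div_two_add_one_of_odd (hb n)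
  have h := D3_formula (a n / 2) (b n / 2) hn1 hn2
  rw [hA, hB] at h
  rw [h]
  simp only [Function.comp_apply]
  rw [hA, hB]

theorem t_D3 (h1 : S_D1) (h2 : S_D2) : S_D3 := by
  obtain ⟨Ce, hCe, hE⟩ := h1
  obtain ⟨Co, hCo, hO⟩ := h2
  exact ⟨3 * Ce * Co * Ce⁻¹ * (16/81) * (2:ℝ)^((1:ℝ)/6), by positivity,
    fun a b ha hb ta tb => D3_of Ce Co hCe hE hO a b ha hb ta tb⟩

/-- the asymptotics with the explicit constant -/
theorem D3_explicit (a b : ℕ → ℕ) (ha : ∀ n, Even (a n)) (hb : ∀ n, Odd (b n))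
    (ta : Tendsto a atTop atTop) (tb : Tendsto b atTop atTop) :
    Tendsto (fun n => tipFormula (a n) (b n) * ((b n : ℝ) * (a n + b n) / a n)^((1:ℝ)/6)) atTop
      (𝓝 (Real.sqrt Real.pi / Real.Gamma (1/3))) := by
  obtain ⟨Ce, hCe, hE⟩ := t_D1
  have h := D3_of Ce cO hCe hE D2_explicit a b ha hb ta tb
  have e : 3 * Ce * cO * Ce⁻¹ * (16/81) * (2:ℝ)^((1:ℝ)/6) =
      Real.sqrt Real.pi / Real.Gamma (1/3) := by
    unfold cO
    rw [Real.Gamma_one_half_eq]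
    have h2 : (2:ℝ)^((1:ℝ)/6) ≠ 0 := (Real.rpow_pos_of_pos (by norm_num) _).ne'
    have h3 : Real.Gamma (1/3) ≠ 0 := (Real.Gamma_pos_of_pos (by norm_num)).ne'
    field_simp
    norm_num
  rwa [e] at h

end Pool.Agent.H981R2.TP
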