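import Mathlib
import Pool.Agent.H988R2.Perc.Defs
import Pool.Agent.H988R2.Perc.T22
import Pool.Agent.H492C.Defs
import Pool.Agent.H980R3.Slit.Defs

/-!
Project TP (two tips): exact probability that the tip of a slit is joined to the right wall of
a strip (critical bond percolation on `ℤ²`).

`L = a + b + 2`, `a` even, `b` odd.  Coordinates: column `u - v`, time `u + v - 1`.  The strip is
`0 ≤ u - v ≤ L`; in the column `a+1` everything above the tip is cut off.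
-/

namespace Pool.Agent.H981R2.TP

open Pool.Agent.H988R2.Perc hiding X
open Pool.Agent.H492C
open Pool.Agent.H980R3.Slit (GP)
open Finset Polynomial

/-! ## Part A: the glued vectors -/

/-- the glued quantity: lower strip of width `L = a+2+b` with parameters `A, 1, 1, B`, upper left
strip of (even) width `a` with inverted parameters `A`, upper right strip of (odd) width `b`;
indicator of `{face a+1 ~ face L}`. -/
noncomputable def GR2 (A B : List ℂ) : ℂ :=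
  pairG (A.length + 1) (A.length + 2 + B.length) (Psi (A ++ 1 :: 1 :: (B ++ [0])))
    (comb2 (A.length / 2 + 1) (Psi (A.map (fun x => x⁻¹))) (up1 B))

/-- the total mass -/
noncomputable def TT2 (A B : List ℂ) : ℂ :=
  Z (A ++ 1 :: 1 :: (B ++ [0])) * Z (A.map (fun x => x⁻¹)) * Z (B.map (fun x => x⁻¹) ++ [0])

/-- the closed formula -/
noncomputable def RH (A B : List ℂ) : ℂ :=
  3 * q^(B.length + 1) * A.prod^(2 - (A.length : ℤ)) * B.prod^(2 - (B.length : ℤ)) *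
    Z (A ++ [1, 0]) * Z (B ++ [1]) * Z (A ++ 1 :: B)

/-- the four kinds of properties used by the uniqueness lemma -/
structure Good (D : List ℂ → List ℂ → ℂ) : Prop where
  swA : ∀ (u v B : List ℂ) (x y : ℂ), Even (u.length + v.length) → Odd B.length → x ≠ 0 →
      y ≠ 0 → (∀ z ∈ u ++ v ++ B, z ≠ 0) → D (u ++ y :: x :: v) B = D (u ++ x :: y :: v) B
  swB : ∀ (A u v : List ℂ) (x y : ℂ), Even A.length → Odd (u.length + v.length) → x ≠ 0 →
      y ≠ 0 → (∀ z ∈ A ++ u ++ v, z ≠ 0) → D A (u ++ y :: x :: v) = D A (u ++ x :: y :: v)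
  invA : ∀ (A B : List ℂ) (x : ℂ), Odd A.length → Odd B.length → x ≠ 0 → (∀ z ∈ A ++ B, z ≠ 0) →
      D (x :: A) B = x^(B.length + 3) * D (x⁻¹ :: A) B
  invB : ∀ (A B : List ℂ) (x : ℂ), Even A.length → Even B.length → x ≠ 0 → (∀ z ∈ A ++ B, z ≠ 0) →
      D A (B ++ [x]) = x^(A.length + 2) * D A (B ++ [x⁻¹])
  pairA : ∀ (A B : List ℂ) (x : ℂ), Even A.length → Odd B.length → x ≠ 0 → (∀ z ∈ A ++ B, z ≠ 0) →
      D (x :: (q^2 * x) :: A) B =
        fac x (A ++ 1 :: 1 :: (B ++ [0])) * fac (q^2 * x)⁻¹ (A.map (fun x => x⁻¹)) * D A B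
  pairB : ∀ (A B : List ℂ) (x : ℂ), Even A.length → Odd B.length → x ≠ 0 → (∀ z ∈ A ++ B, z ≠ 0) →
      D A (x :: (q^2 * x) :: B) =
        fac x (A ++ 1 :: 1 :: (B ++ [0])) * fac (q^2 * x)⁻¹ (B.map (fun x => x⁻¹) ++ [0]) * D A B
  polyA : ∀ (A B : List ℂ), Odd A.length → Odd B.length → (∀ z ∈ A ++ B, z ≠ 0) → ∃ P : ℂ[X],
      P.natDegree ≤ 2 * A.length + 1 + B.length ∧
        ∀ t, t ≠ 0 → P.eval t = t^(A.length - 1) * D (t :: A) B
  polyB : ∀ (A B : List ℂ), Even A.length → Even B.length → (∀ z ∈ A ++ B, z ≠ 0) → ∃ P : ℂ[X],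
      P.natDegree ≤ 2 * B.length + 2 + A.length ∧
        (∀ t, t ≠ 0 → P.eval t = t^B.length * D A (B ++ [t])) ∧ P.eval 0 = 0

/-! ## Part C: percolation -/

/-- the relation on the faces of the lower strip generated by three states -/
def J4 (a : ℕ) (R R1 R2 : St) (x y : ℕ) : Prop :=
  R.rel x y ∨ (R1.rel x y ∧ x ≤ a ∧ y ≤ a) ∨
    (a + 3 ≤ x ∧ a + 3 ≤ y ∧ R2.rel (x - (a+2)) (y - (a+2)))

/-- the tip (face `a+1`) and the right wall (face `a+b+2`) are joined -/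
def conn4 (a b : ℕ) (R R1 R2 : St) : Prop :=
  Relation.EqvGen (J4 a R R1 R2) (a+1) (a+b+2)

open Classical in
/-- the trilinear pairing -/
noncomputable def pair4 (a b : ℕ) (f g h : St →₀ ℂ) : ℂ :=
  f.sum fun R α => g.sum fun R1 β => h.sum fun R2 γ =>
    α * β * γ * (if conn4 a b R R1 R2 then 1 else 0)

/-- adjacency in the slit strip: the edges above height `1` (both ends `u + v ≥ 1`) that touch
the column `a+1` are removed -/
def TipAdj (a b : ℕ) (ω : Conf) (x y : ℤ × ℤ) : Prop :=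
  OpenAdj ω x y ∧ (0 ≤ x.1 - x.2 ∧ x.1 - x.2 ≤ a + b + 2) ∧ (0 ≤ y.1 - y.2 ∧ y.1 - y.2 ≤ a + b + 2) ∧
  ¬ (1 ≤ x.1 + x.2 ∧ 1 ≤ y.1 + y.2 ∧ (x.1 - x.2 = a + 1 ∨ y.1 - y.2 = a + 1))

/-- the tip of the slit: the vertex of the column `a+1` with `u + v = 1` (`a` even) -/
def tip (a : ℕ) : ℤ × ℤ := ((a / 2 : ℕ) + 1, -((a / 2 : ℕ) : ℤ))

/-- the tip is joined to the right wall by an open path in the slit strip -/
def TipArm (a b : ℕ) : Set Conf :=
  {ω | ∃ y : ℤ × ℤ, y.1 - y.2 = a + b + 2 ∧ Relation.ReflTransGen (TipAdj a b ω) (tip a) y}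

/-- open bits of the future window of the upper right strip (read downwards) -/
def oFutR2 (a : ℕ) (ω : Conf) (M : ℕ) (k i : ℕ) : Bool :=
  ω (edgeOf ((i : ℤ) + (a + 2)) (2 * (M : ℤ) - 1 - k))

/-- the window event -/
def WinT (a b M : ℕ) : Set Conf :=
  {ω | conn4 a b (Pool.Agent.H988R2.Perc.X (a+b+2) (actBit (oPast ω M)) M) (Pool.Agent.H988R2.Perc.X a (actBit (oFut ω M)) M)
    (Pool.Agent.H988R2.Perc.X b (actBit (oFutR2 a ω M)) M)}

/-- lower strip with wired right wall -/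
def F0 (a b M : ℕ) (ω : Conf) (p p' : ℤ × ℤ) : Prop :=
  GP 1 (a + b + 2) (-(2 * (M : ℤ))) 0 ω p p' ∨ (p.1 = a + b + 2 ∧ p'.1 = a + b + 2)

/-- upper left strip (times `≥ 0`), no wired wall -/
def F1 (a M : ℕ) (ω : Conf) (p p' : ℤ × ℤ) : Prop := GP 1 a 0 (2 * (M : ℤ)) ω p p'

/-- upper right strip with wired right wall -/
def F2 (a b M : ℕ) (ω : Conf) (p p' : ℤ × ℤ) : Prop :=
  GP (a + 3) (a + b + 2) 0 (2 * (M : ℤ)) ω p p' ∨ (p.1 = a + b + 2 ∧ p'.1 = a + b + 2)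

/-- the whole window with the wired wall -/
def FF (a b M : ℕ) (ω : Conf) (p p' : ℤ × ℤ) : Prop :=
  F0 a b M ω p p' ∨ F1 a M ω p p' ∨ F2 a b M ω p p'

/-- the limit vectors -/
noncomputable def psi1 (N : ℕ) : St →₀ ℂ := Psi (List.replicate N 1 ++ [0])
noncomputable def psi0 (N : ℕ) : St →₀ ℂ := Psi (List.replicate N 1)

/-- the exact value -/
noncomputable def tipFormula (a b : ℕ) : ℝ :=
  3 * chi (a+1) * chi (b+1) * chi (a+b+1) / (chi a * chi b * chi (a+b+2))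

end Pool.Agent.H981R2.TP
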