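import Pool.Agent.H981R2.TP.Stubs

/-! task F: the inhomogeneous formula (helper28) -/

set_option autoImplicit false

namespace Pool.Agent.H981R2.TP

open Pool.Agent.H988R2.Perc hiding X
open Pool.Agent.H492C
open Finset Polynomial

theorem t_F (hG : S_G) (hB : S_B21) (hU : S_U) (h8 : S_A8) (h9 : S_A9) : S_F := by
  intro A B hA hB' h0
  have h := hU (fun A B => GR2 A B - RH A B) hG (fun y hy => sub_eq_zero.2 (h8 y hy))
    (hB _ hG (fun y hy => sub_eq_zero.2 (h8 y hy)) (fun x y hx hy => sub_eq_zero.2 (h9 x y hx hy))) A B hA hB' h0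
  exact sub_eq_zero.1 h

end Pool.Agent.H981R2.TP
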