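import Pool.Agent.H981R2.TP.Stubs

/-! Project TP, task G: both functions are good, hence the difference is. -/

namespace Pool.Agent.H981R2.TP

open Pool.Agent.H988R2.Perc hiding X
open Pool.Agent.H492C
open Finset Polynomial

theorem good_sub {f g : List ℂ → List ℂ → ℂ} (hf : Good f) (hg : Good g) :
    Good (fun A B => f A B - g A B) where
  swA := by
    intro u v B x y h1 h2 h3 h4 h5
    change f _ _ - g _ _ = f _ _ - g _ _
    rw [hf.swA u v B x y h1 h2 h3 h4 h5, hg.swA u v B x y h1 h2 h3 h4 h5]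
  swB := by
    intro A u v x y h1 h2 h3 h4 h5
    change f _ _ - g _ _ = f _ _ - g _ _
    rw [hf.swB A u v x y h1 h2 h3 h4 h5, hg.swB A u v x y h1 h2 h3 h4 h5]
  invA := by
    intro A B x h1 h2 h3 h4
    change f _ _ - g _ _ = _ * (f _ _ - g _ _)
    rw [hf.invA A B x h1 h2 h3 h4, hg.invA A B x h1 h2 h3 h4, mul_sub]
  invB := by
    intro A B x h1 h2 h3 h4
    change f _ _ - g _ _ = _ * (f _ _ - g _ _)
    rw [hf.invB A B x h1 h2 h3 h4, hg.invB A B x h1 h2 h3 h4, mul_sub]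
  pairA := by
    intro A B x h1 h2 h3 h4
    change f _ _ - g _ _ = _ * (f _ _ - g _ _)
    rw [hf.pairA A B x h1 h2 h3 h4, hg.pairA A B x h1 h2 h3 h4, mul_sub]
  pairB := by
    intro A B x h1 h2 h3 h4
    change f _ _ - g _ _ = _ * (f _ _ - g _ _)
    rw [hf.pairB A B x h1 h2 h3 h4, hg.pairB A B x h1 h2 h3 h4, mul_sub]
  polyA := by
    intro A B h1 h2 h3
    obtain ⟨P, hP, hP'⟩ := hf.polyA A B h1 h2 h3
    obtain ⟨Q, hQ, hQ'⟩ := hg.polyA A B h1 h2 h3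
    refine ⟨P - Q, (natDegree_sub_le P Q).trans (max_le hP hQ), ?_⟩
    intro t ht
    rw [eval_sub, hP' t ht, hQ' t ht, mul_sub]
  polyB := by
    intro A B h1 h2 h3
    obtain ⟨P, hP, hP', hP0⟩ := hf.polyB A B h1 h2 h3
    obtain ⟨Q, hQ, hQ', hQ0⟩ := hg.polyB A B h1 h2 h3
    refine ⟨P - Q, (natDegree_sub_le P Q).trans (max_le hP hQ), ?_, ?_⟩
    · intro t ht
      rw [eval_sub, hP' t ht, hQ' t ht, mul_sub]
    · rw [eval_sub, hP0, hQ0, sub_zero]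

theorem t_G (a1 : S_A1) (a2 : S_A2) (a3 : S_A3) (a4 : S_A4) (a5 : S_A5) (a6 : S_A6) (a7 : S_A7)
    (r1 : S_R1) (r2 : S_R2) (r3 : S_R3) : S_G :=
  good_sub ⟨a1, a2, a3.1, a3.2, a4, a5, a6, a7⟩
    ⟨r1.1, r1.2.1, r1.2.2.1, r1.2.2.2, r2.1, r2.2, r3.1, r3.2⟩

end Pool.Agent.H981R2.TP
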