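import Pool.Agent.H981R2.TP.Stubs
import Pool.Agent.H988R2.Perc.T16
import Pool.Agent.H988R2.Perc.T25

/-! Project TP, task H: the homogeneous point. -/

namespace Pool.Agent.H981R2.TP

open Pool.Agent.H988R2.Perc hiding X

theorem t_H (hF : S_F) : S_H := by
  intro a b ha hb
  obtain ⟨m, hm⟩ := ha
  obtain ⟨n, hn⟩ := hb
  obtain rfl : a = 2 * m := by omega
  subst hn
  rw [hF (List.replicate (2*m) 1) (List.replicate (2*n+1) 1) (by simp) (by simp) (by
    intro z hz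
    rcases List.mem_append.mp hz with h | h
    · rw [List.eq_of_mem_replicate h]; exact one_ne_zero
    · rw [List.eq_of_mem_replicate h]; exact one_ne_zero)]
  have e1 : List.replicate (2*m) (1:ℂ) ++ [1, 0] = List.replicate (2*m+1) 1 ++ [0] := by
    rw [List.replicate_succ']; simp
  have e2 : List.replicate (2*n+1) (1:ℂ) ++ [1] = List.replicate (2*(n+1)) 1 := by
    rw [← List.replicate_succ']
    rfl
  have e3 : List.replicate (2*m) (1:ℂ) ++ 1 :: List.replicate (2*n+1) 1 =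
      List.replicate (2*(m+n+1)) 1 := by
    have : (1:ℂ) :: List.replicate (2*n+1) 1 = List.replicate (2*n+2) 1 := rfl
    rw [this, ← List.replicate_add]
    congr 1
    ring
  unfold RH
  rw [e1, e2, e3, Z_ones, Z_ones, Z_ones_zero]
  have m1 : mass (psi1 (2*m + (2*n+1) + 2)) = q^((m+n+1+1)*(m+n+1)) * (chi (2*(m+n+1)+1) : ℂ) := by
    have : 2*m + (2*n+1) + 2 = 2*(m+n+1)+1 := by ring
    rw [this]
    exact Z_ones_zero (m+n+1)
  have m2 : mass (psi0 (2*m)) = q^(m*(m-1)) * (chi (2*m) : ℂ) := Z_ones m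
  have m3 : mass (psi1 (2*n+1)) = q^((n+1)*n) * (chi (2*n+1) : ℂ) := Z_ones_zero n
  rw [m1, m2, m3]
  simp only [List.prod_replicate, one_pow, one_zpow, mul_one, List.length_replicate]
  unfold tipFormula
  have c1 : 2*m + (2*n+1) + 1 = 2*(m+n+1) := by ring
  have c2 : 2*m + (2*n+1) + 2 = 2*(m+n+1)+1 := by ring
  have c3 : 2*n+1+1 = 2*(n+1) := by ring
  rw [c1, c2, c3]
  have h1 : (chi (2*m) : ℂ) ≠ 0 := by exact_mod_cast (chi_pos (2*m)).ne'
  have h2 : (chi (2*n+1) : ℂ) ≠ 0 := by exact_mod_cast (chi_pos (2*n+1)).ne'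
  have h3 : (chi (2*(m+n+1)+1) : ℂ) ≠ 0 := by exact_mod_cast (chi_pos (2*(m+n+1)+1)).ne'
  push_cast
  have hq : (q^(2*(n+1)) * q^((m+1)*m) * q^((n+1)*n) * q^((m+n+1)*(m+n)) : ℂ) =
      q^((m+n+1+1)*(m+n+1)) * q^(m*(m-1)) * q^((n+1)*n) := by
    rw [← pow_add, ← pow_add, ← pow_add, ← pow_add, ← pow_add]
    congr 1
    rcases m with _ | k
    · simp; ring
    · rw [Nat.add_sub_cancel]; ring
  generalize q^(2*(n+1)) = Q1 at *
  generalize q^((m+1)*m) = Q2 at *
  generalize q^((m+n+1)*(m+n)) = Q4 at *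
  generalize q^((m+n+1+1)*(m+n+1)) = Q5 at *
  generalize q^(m*(m-1)) = Q6 at *
  generalize q^((n+1)*n) = Q7 at *
  field_simp
  linear_combination ((chi (2*m+1) : ℂ) * (chi (2*(n+1)) : ℂ) * (chi (2*(m+n+1)) : ℂ)) * hq

end Pool.Agent.H981R2.TP
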