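import Pool.Agent.H981R2.TP.Defs
import Pool.Agent.H988R2.Perc.T16

/-! Project TP, task MASS: the masses do not vanish. -/

set_option autoImplicit false

namespace Pool.Agent.H981R2.TP

open Pool.Agent.H988R2.Perc hiding X
open Finset

private theorem mass_chi_pos (N : ℕ) : 0 < chi N := by
  unfold chi
  apply mul_pos
  · apply Finset.prod_pos
    intro j _
    have : 0 < mu j := by unfold mu; omega
    have h : (0 : ℝ) < mu j := by exact_mod_cast this
    positivity
  · apply Finset.prod_pos
    intro j _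
    apply Finset.prod_pos
    intro i hi
    have hij : i < j := Finset.mem_range.1 hi
    have h1 : (mu i : ℝ) < mu j := by exact_mod_cast T16.mu_lt hij
    have h0 : (0 : ℝ) ≤ mu i := by positivity
    have h2 : (i : ℝ) + 1 < (j : ℝ) + 1 := by
      have : (i : ℝ) < j := by exact_mod_cast hij
      linarith
    have h3 : (0 : ℝ) ≤ (i : ℝ) + 1 := by positivity
    apply div_pos
    · nlinarith
    · nlinarith

private theorem mass_psi1 (n : ℕ) : mass (psi1 (2 * n + 1)) ≠ 0 := by
  have h := Z_ones_zero n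
  unfold Z at h
  unfold psi1
  rw [h]
  refine mul_ne_zero (pow_ne_zero _ q_ne_zero) ?_
  exact_mod_cast (mass_chi_pos _).ne'

private theorem mass_psi0 (n : ℕ) : mass (psi0 (2 * n)) ≠ 0 := by
  have h := Z_ones n
  unfold Z at h
  unfold psi0
  rw [h]
  refine mul_ne_zero (pow_ne_zero _ q_ne_zero) ?_
  exact_mod_cast (mass_chi_pos _).ne'

theorem t_MASS : ∀ a b : ℕ, Even a → Odd b →
    mass (psi1 (a+b+2)) * mass (psi0 a) * mass (psi1 b) ≠ 0 := by
  rintro a b ⟨m, rfl⟩ ⟨n, rfl⟩
  have e1 : m + m + (2 * n + 1) + 2 = 2 * (m + n + 1) + 1 := by ring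
  have e2 : m + m = 2 * m := by ring
  rw [e1, e2]
  exact mul_ne_zero (mul_ne_zero (mass_psi1 _) (mass_psi0 _)) (mass_psi1 _)

end Pool.Agent.H981R2.TP
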