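import Pool.Agent.H981R2.TP.Stubs
import Pool.Agent.H988R2.Perc.T14

/-! Project TP, task R1 (helper347): symmetry and inversion of the closed formula. -/

namespace Pool.Agent.H981R2.TP

open Pool.Agent.H988R2.Perc hiding X

namespace TR1

theorem RH_permA {A A' B : List ℂ} (hA : Even A.length) (hB : Odd B.length) (h : A.Perm A') :
    RH A B = RH A' B := by
  have hl : A.length = A'.length := h.length_eq
  have h1 : Z (A ++ [1, 0]) = Z (A' ++ [1, 0]) := by
    apply Z_perm
    · simp only [List.length_append, List.length_cons, List.length_nil]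
      exact hA.add (by decide)
    · exact h.append_right _
  have h2 : Z (A ++ 1 :: B) = Z (A' ++ 1 :: B) := by
    apply Z_perm
    · simp only [List.length_append, List.length_cons]
      exact hA.add hB.add_one
    · exact h.append_right _
  unfold RH
  rw [h1, h2, hl, h.prod_eq]

theorem RH_permB {A B B' : List ℂ} (hA : Even A.length) (hB : Odd B.length) (h : B.Perm B') :
    RH A B = RH A B' := by
  have hl : B.length = B'.length := h.length_eq
  have h1 : Z (B ++ [1]) = Z (B' ++ [1]) := by
    apply Z_perm
    · simp only [List.length_append, List.length_cons, List.length_nil]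
      exact hB.add_odd (by decide)
    · exact h.append_right _
  have h2 : Z (A ++ 1 :: B) = Z (A ++ 1 :: B') := by
    apply Z_perm
    · simp only [List.length_append, List.length_cons]
      exact hA.add hB.add_one
    · exact List.Perm.append_left _ (h.cons _)
  unfold RH
  rw [h1, h2, hl, h.prod_eq]

theorem RH_invA (A B : List ℂ) (x : ℂ) (hA : Odd A.length) (hB : Odd B.length) (hx : x ≠ 0)
    (hz : ∀ z ∈ A ++ B, z ≠ 0) : RH (x :: A) B = x^(B.length + 3) * RH (x⁻¹ :: A) B := by
  have h1 : Z (x :: A ++ [1, 0]) = x^(A.length + 1) * Z (x⁻¹ :: A ++ [1, 0]) := by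
    have := Z_inv x (A ++ [1, 0]) hx (by
      simp only [List.length_append, List.length_cons, List.length_nil]
      exact hA.add_even (by decide))
    simpa [List.length_append] using this
  have h2 : Z (x :: A ++ 1 :: B) = x^(A.length + B.length) * Z (x⁻¹ :: A ++ 1 :: B) := by
    have := Z_inv x (A ++ 1 :: B) hx (by
      simp only [List.length_append, List.length_cons]
      exact hA.add_even hB.add_one)
    simpa [List.length_append, ← add_assoc] using this
  have hP : A.prod ≠ 0 := by
    rw [Ne, List.prod_eq_zero_iff]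
    intro h0
    exact hz 0 (by simp [h0]) rfl
  unfold RH
  rw [h1, h2]
  simp only [List.length_cons, List.prod_cons, Nat.cast_add, Nat.cast_one]
  rw [mul_zpow, mul_zpow, inv_zpow]
  set a : ℤ := (A.length : ℤ) with ha
  have e1 : x ^ (A.length + 1) = x ^ (a + 1) := by
    rw [ha]; norm_cast
  have e2 : x ^ (A.length + B.length) = x ^ (a + (B.length : ℤ)) := by
    rw [ha]; norm_cast
  have e3 : x ^ (B.length + 3) = x ^ ((B.length : ℤ) + 3) := by
    norm_cast
  have key : x ^ (2 - (a + 1)) * x ^ (a + 1) * x ^ (a + (B.length : ℤ)) =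
      x ^ ((B.length : ℤ) + 3) * (x ^ (2 - (a + 1)))⁻¹ := by
    rw [← zpow_neg, ← zpow_add₀ hx, ← zpow_add₀ hx, ← zpow_add₀ hx]
    congr 1; ring
  rw [e1, e2, e3]
  linear_combination (3 * q ^ (B.length + 1) * A.prod ^ (2 - (a + 1)) * B.prod ^ (2 - (B.length : ℤ)) *
    Z (x⁻¹ :: A ++ [1, 0]) * Z (B ++ [1]) * Z (x⁻¹ :: A ++ 1 :: B)) * key

theorem RH_invB (A B : List ℂ) (x : ℂ) (hA : Even A.length) (hB : Even B.length) (hx : x ≠ 0) :
    RH A (B ++ [x]) = x^(A.length + 2) * RH A (B ++ [x⁻¹]) := by
  have hp : ∀ y : ℂ, RH A (B ++ [y]) = RH A (y :: B) := by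
    intro y
    apply RH_permB hA
    · simp only [List.length_append, List.length_cons, List.length_nil]
      exact hB.add_one
    · exact List.perm_append_singleton y B
  rw [hp, hp]
  have h1 : Z (x :: B ++ [1]) = x^(B.length) * Z (x⁻¹ :: B ++ [1]) := by
    have := Z_inv x (B ++ [1]) hx (by
      simp only [List.length_append, List.length_cons, List.length_nil]
      exact hB.add_one)
    simpa [List.length_append] using this
  have hq : ∀ y : ℂ, Z (A ++ 1 :: y :: B) = Z (y :: (A ++ 1 :: B)) := by
    intro y
    apply Z_perm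
    · simp only [List.length_append, List.length_cons]
      exact hA.add (by rw [Nat.even_add_one, Nat.not_even_iff_odd]; exact hB.add_one)
    · have e : (A ++ 1 :: y :: B) = (A ++ [1]) ++ y :: B := by simp
      have e' : (y :: (A ++ 1 :: B)) = y :: ((A ++ [1]) ++ B) := by simp
      rw [e, e']
      exact List.perm_middle
  have h2 : Z (A ++ 1 :: x :: B) = x^(A.length + B.length) * Z (A ++ 1 :: x⁻¹ :: B) := by
    rw [hq, hq]
    have := Z_inv x (A ++ 1 :: B) hx (by
      simp only [List.length_append, List.length_cons]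
      exact hA.add_odd hB.add_one)
    simpa [List.length_append, ← add_assoc] using this
  unfold RH
  rw [h1, h2]
  simp only [List.length_cons, List.prod_cons, Nat.cast_add, Nat.cast_one]
  rw [mul_zpow, mul_zpow, inv_zpow]
  set b : ℤ := (B.length : ℤ) with hb
  have e1 : x ^ (B.length) = x ^ b := by
    rw [hb]; norm_cast
  have e2 : x ^ (A.length + B.length) = x ^ ((A.length : ℤ) + b) := by
    rw [hb]; norm_cast
  have e3 : x ^ (A.length + 2) = x ^ ((A.length : ℤ) + 2) := by
    norm_cast
  have key : x ^ (2 - (b + 1)) * x ^ b * x ^ ((A.length : ℤ) + b) =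
      x ^ ((A.length : ℤ) + 2) * (x ^ (2 - (b + 1)))⁻¹ := by
    rw [← zpow_neg, ← zpow_add₀ hx, ← zpow_add₀ hx, ← zpow_add₀ hx]
    congr 1; ring
  rw [e1, e2, e3]
  linear_combination (3 * q ^ (B.length + 1 + 1) * A.prod ^ (2 - (A.length : ℤ)) * B.prod ^ (2 - (b + 1)) *
    Z (A ++ [1, 0]) * Z (x⁻¹ :: B ++ [1]) * Z (A ++ 1 :: x⁻¹ :: B)) * key

end TR1

/-- S_R1 : symmetry and inversion of the closed formula. -/
theorem t_R1 : S_R1 := by
  refine ⟨?_, ?_, ?_, ?_⟩
  · intro u v B x y hA hB _ _ _
    apply TR1.RH_permA _ hB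
    · exact List.Perm.append_left _ (List.Perm.swap _ _ _)
    · simp only [List.length_append, List.length_cons]
      rw [← add_assoc, ← add_assoc, Nat.even_add_one, Nat.even_add_one, not_not]
      exact hA
  · intro A u v x y hA hB _ _ _
    apply TR1.RH_permB hA
    · simp only [List.length_append, List.length_cons]
      rw [← add_assoc, ← add_assoc, Nat.odd_add_one, Nat.odd_add_one, not_not]
      exact hB
    · exact List.Perm.append_left _ (List.Perm.swap _ _ _)
  · intro A B x hA hB hx hz
    exact TR1.RH_invA A B x hA hB hx hz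
  · intro A B x hA hB hx _
    exact TR1.RH_invB A B x hA hB hx

end Pool.Agent.H981R2.TP
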