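import Pool.Agent.H981R2.TP.Stubs
import Pool.Agent.H988R2.Perc.T14

/-! Project TP, task R2: recursions of the closed formula. -/

namespace Pool.Agent.H981R2.TP

open Pool.Agent.H988R2.Perc hiding X
open Pool.Agent.H492C
open Finset Polynomial

namespace R2aux

theorem inv_q2x (x : ℂ) : (q^2 * x)⁻¹ = q * x⁻¹ := by
  have hq3 := q_cube
  rw [mul_inv]
  congr 1
  have : q^2 * q = 1 := by rw [← hq3]; ring
  exact inv_eq_of_mul_eq_one_right this

theorem key (x y : ℂ) (hx : x ≠ 0) (hy : y ≠ 0) :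
    (((q^2 * x)⁻¹ - q^2 * y⁻¹) * ((q^2 * x)⁻¹ * y⁻¹ - q^2)) * (x^2 * y^2) =
        q * ((x - q^2 * y) * (x * y - q^2)) := by
  have hq3 := q_cube
  rw [inv_q2x]
  have e1 : ((q * x⁻¹ - q^2 * y⁻¹) * (q * x⁻¹ * y⁻¹ - q^2)) * (x^2 * y^2) =
      (q * y - q^2 * x) * (q - q^2 * (x * y)) := by
    field_simp
  rw [e1]
  linear_combination (q * x^2 * y - q^2 * y) * hq3

/-- inversion of `fac` -/
theorem fac_inv (x : ℂ) (hx : x ≠ 0) : ∀ l : List ℂ, (∀ z ∈ l, z ≠ 0) →
    fac (q^2 * x)⁻¹ (l.map (fun x => x⁻¹)) * (x^(2 * l.length) * l.prod^2) =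
      q^l.length * fac x l := by
  intro l
  induction l with
  | nil => intro _; simp [fac]
  | cons y l ih =>
    intro h
    have hy : y ≠ 0 := h y (by simp)
    have ih := ih (fun z hz => h z (by simp [hz]))
    rw [List.map_cons, fac_cons, fac_cons, List.length_cons, List.prod_cons]
    have key := key x y hx hy
    calc _ = ((((q^2 * x)⁻¹ - q^2 * y⁻¹) * ((q^2 * x)⁻¹ * y⁻¹ - q^2)) * (x^2 * y^2)) *
        (fac (q^2 * x)⁻¹ (l.map (fun x => x⁻¹)) * (x^(2 * l.length) * l.prod^2)) := by ring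
      _ = _ := by rw [key, ih]; ring

theorem prod_ne (l : List ℂ) (h : ∀ z ∈ l, z ≠ 0) : l.prod ≠ 0 := by
  refine List.prod_ne_zero ?_
  intro h0
  exact h 0 h0 rfl

theorem qpow (n : ℕ) : q^(3 * n) = 1 := by
  rw [pow_mul, q_cube, one_pow]

/-- the power in front of the product -/
theorem pw_aux (x P : ℂ) (hx : x ≠ 0) (hP : P ≠ 0) (n : ℕ) :
    (x * (q^2 * x * P))^(2 - ((n + 2 : ℕ) : ℤ)) * (x^(2 * n) * P^2) = q^n * P^(2 - (n : ℤ)) := by
  have hq := q_ne_zero
  have e1 : (2 - ((n + 2 : ℕ) : ℤ)) = -(n : ℤ) := by push_cast; ring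
  have e2 : P^(2 - (n : ℤ)) = P^2 * (P^n)⁻¹ := by
    rw [sub_eq_add_neg, zpow_add₀ hP, zpow_neg, zpow_natCast]
    norm_cast
  rw [e1, e2, zpow_neg, zpow_natCast]
  have e3 : (x * (q^2 * x * P))^n = q^(2 * n) * x^(2 * n) * P^n := by
    rw [show x * (q^2 * x * P) = q^2 * x^2 * P by ring, mul_pow, mul_pow, ← pow_mul, ← pow_mul]
  rw [e3]
  have h3 : q^(2*n) * q^n = 1 := by
    rw [← pow_add, ← qpow n]
    congr 1
    ring
  have hPn : P^n ≠ 0 := pow_ne_zero _ hP
  have hxn : x^(2*n) ≠ 0 := pow_ne_zero _ hx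
  have hqn : q^(2*n) ≠ 0 := pow_ne_zero _ hq
  rw [mul_inv, mul_inv]
  field_simp
  exact h3.symm

end R2aux

open R2aux in
theorem t_R2 : S_R2 := by
  constructor
  · intro A B x hA hB hx h0
    have hA0 : ∀ z ∈ A, z ≠ 0 := fun z hz => h0 z (by simp [hz])
    have hP := prod_ne A hA0
    have hz1 : Z (x :: (q^2 * x) :: (A ++ [1, 0])) = fac x (A ++ [1, 0]) * Z (A ++ [1, 0]) := by
      have := Z_rec [] (A ++ [1, 0]) x (by
        simp only [List.length_nil, List.length_append, List.length_cons, zero_add]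
        exact hA.add (by decide))
      simpa using this
    have hz2 : Z (x :: (q^2 * x) :: (A ++ 1 :: B)) = fac x (A ++ 1 :: B) * Z (A ++ 1 :: B) := by
      have := Z_rec [] (A ++ 1 :: B) x (by
        simp only [List.length_nil, List.length_append, List.length_cons, zero_add]
        exact hA.add (hB.add_odd (by decide)))
      simpa using this
    have hpw := pw_aux x A.prod hx hP A.length
    have hfi := fac_inv x hx A hA0
    unfold RH
    simp only [List.cons_append, List.length_cons, List.prod_cons]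
    rw [hz1, hz2]
    have hc : x^(2 * A.length) * A.prod^2 ≠ 0 :=
      mul_ne_zero (pow_ne_zero _ hx) (pow_ne_zero _ hP)
    have e1 : fac x (A ++ [1, 0]) * fac x (A ++ 1 :: B) =
        fac x (A ++ 1 :: 1 :: (B ++ [0])) * fac x A := by
      simp only [fac_append, fac_cons, fac_nil]
      ring
    apply mul_right_cancel₀ hc
    calc _ = 3 * q^(B.length + 1) * ((x * (q^2 * x * A.prod))^(2 - ((A.length + 2 : ℕ) : ℤ)) *
          (x^(2 * A.length) * A.prod^2)) * B.prod^(2 - (B.length : ℤ)) *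
          (fac x (A ++ [1, 0]) * fac x (A ++ 1 :: B)) *
          (Z (A ++ [1, 0]) * Z (B ++ [1]) * Z (A ++ 1 :: B)) := by
            push_cast
            ring_nf
      _ = 3 * q^(B.length + 1) * (A.prod^(2 - (A.length : ℤ))) * B.prod^(2 - (B.length : ℤ)) *
          (fac x (A ++ 1 :: 1 :: (B ++ [0])) * (q^A.length * fac x A)) *
          (Z (A ++ [1, 0]) * Z (B ++ [1]) * Z (A ++ 1 :: B)) := by
            rw [hpw, e1]; ring
      _ = _ := by rw [← hfi]; ring
  · intro A B x hA hB hx h0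
    have hB0 : ∀ z ∈ B, z ≠ 0 := fun z hz => h0 z (by simp [hz])
    have hP := prod_ne B hB0
    have hz1 : Z (x :: (q^2 * x) :: (B ++ [1])) = fac x (B ++ [1]) * Z (B ++ [1]) := by
      have := Z_rec [] (B ++ [1]) x (by
        simp only [List.length_nil, List.length_append, List.length_cons, zero_add]
        exact hB.add_odd (by decide))
      simpa using this
    have hz2 : Z (A ++ 1 :: x :: (q^2 * x) :: B) = fac x (A ++ 1 :: B) * Z (A ++ 1 :: B) := by
      have := Z_rec (A ++ [1]) B x (by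
        simp only [List.length_nil, List.length_append, List.length_cons, zero_add]
        rw [add_assoc]
        exact hA.add ((by decide : Odd 1).add_odd hB))
      simpa using this
    have hpw := pw_aux x B.prod hx hP B.length
    have hfi := fac_inv x hx B hB0
    unfold RH
    simp only [List.cons_append, List.length_cons, List.prod_cons]
    rw [hz1, hz2]
    have hc : x^(2 * B.length) * B.prod^2 ≠ 0 :=
      mul_ne_zero (pow_ne_zero _ hx) (pow_ne_zero _ hP)
    have e0 : fac x [0] * fac (q^2 * x)⁻¹ [0] = q^2 := by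
      simp only [fac_cons, fac_nil]
      rw [inv_q2x]
      have hxx : x * x⁻¹ = 1 := mul_inv_cancel₀ hx
      linear_combination (q^5) * hxx + (q^2) * q_cube
    have e1 : fac x (B ++ [1]) * fac x (A ++ 1 :: B) * fac x [0] =
        fac x (A ++ 1 :: 1 :: (B ++ [0])) * fac x B := by
      simp only [fac_append, fac_cons, fac_nil]
      ring
    have hf0 : fac x [0] ≠ 0 := by
      simp only [fac_cons, fac_nil]
      have := q_ne_zero
      simp [hx, this]
    rw [fac_append (q^2 * x)⁻¹]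
    apply mul_right_cancel₀ hc
    apply mul_right_cancel₀ hf0
    have h33 : q^(B.length + 3) = q^(B.length + 1) * q^2 := by ring
    calc _ = 3 * q^(B.length + 3) * A.prod^(2 - (A.length : ℤ)) *
          ((x * (q^2 * x * B.prod))^(2 - ((B.length + 2 : ℕ) : ℤ)) *
          (x^(2 * B.length) * B.prod^2)) *
          (fac x (B ++ [1]) * fac x (A ++ 1 :: B) * fac x [0]) *
          (Z (A ++ [1, 0]) * Z (B ++ [1]) * Z (A ++ 1 :: B)) := by
            push_cast
            ring_nf
      _ = 3 * (q^(B.length + 1) * (fac x [0] * fac (q^2 * x)⁻¹ [0])) * A.prod^(2 - (A.length : ℤ)) *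
          (B.prod^(2 - (B.length : ℤ))) *
          (fac x (A ++ 1 :: 1 :: (B ++ [0])) * (q^B.length * fac x B)) *
          (Z (A ++ [1, 0]) * Z (B ++ [1]) * Z (A ++ 1 :: B)) := by
            rw [hpw, e1, e0, h33]; ring
      _ = _ := by rw [← hfi]; ring

end Pool.Agent.H981R2.TP
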