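import Pool.Agent.H981R2.TP.Stubs
import Pool.Agent.H492C.U1

/-! Task U: uniqueness. -/

namespace Pool.Agent.H981R2.TP

open Pool.Agent.H988R2.Perc hiding X
open Pool.Agent.H492C Pool.Agent.H492C.U1
open Finset Polynomial

theorem t_U : S_U := by
  intro D hD base01 base21
  have main : ∀ N : ℕ, ∀ A B : List ℂ, A.length + B.length = N → Even A.length → Odd B.length →
      (∀ z ∈ A ++ B, z ≠ 0) → D A B = 0 := by
    intro N
    induction N using Nat.strong_induction_on with
    | _ N IH =>
    intro A B hN hA hB h0
    have hA0 : ∀ z ∈ A, z ≠ 0 := fun z hz => h0 z (List.mem_append.2 (Or.inl hz))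
    have hB0 : ∀ z ∈ B, z ≠ 0 := fun z hz => h0 z (List.mem_append.2 (Or.inr hz))
    by_cases h1 : A.length + 4 ≤ 2 * B.length
    · -- B side
      have hperm : ∀ l l' : List ℂ, l.Perm l' → l.length = B.length → (∀ z ∈ l, z ≠ 0) →
          D A l = D A l' := by
        intro l l' hp hl hl0
        have := perm_gen (D A) B.length (by
          intro u v x y huv hx hy hz
          refine hD.swB A u v x y hA ?_ hx hy ?_
          · have h3 : u.length + v.length + 2 = B.length := huv
            rw [← h3] at hB
            rcases hB with ⟨k, hk⟩
            exact ⟨k - 1, by omega⟩
          · intro z hz'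
            rw [List.append_assoc] at hz'
            rcases List.mem_append.1 hz' with hz' | hz'
            · exact hA0 z hz'
            · exact hz z hz') l l' hp [] (by simpa using hl) (by simpa using hl0)
        simpa using this
      have hAl : ∀ l : List ℂ, (∀ z ∈ l, z ≠ 0) → ∀ z ∈ A ++ l, z ≠ 0 := by
        intro l hl z hz
        rcases List.mem_append.1 hz with hz | hz
        · exact hA0 z hz
        · exact hl z hz
      refine side B.length (2 * (B.length - 1) + 2 + A.length) 1 le_rfl (D A)
        (by rcases hB with ⟨k, hk⟩; omega) hperm ?_ ?_ ?_ ?_ B rfl hB0
      · intro l x hl hl0 hx h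
        have hlE : Even l.length := by
          rcases hB with ⟨k, hk⟩; exact ⟨k, by omega⟩
        have e1 : D A (x⁻¹ :: l) = D A (l ++ [x⁻¹]) :=
          hperm _ _ (List.perm_append_singleton _ _).symm (by simpa using hl) (by
            intro z hz
            rcases List.mem_cons.1 hz with rfl | hz
            · exact inv_ne_zero hx
            · exact hl0 z hz)
        have e2 : D A (x :: l) = D A (l ++ [x]) :=
          hperm _ _ (List.perm_append_singleton _ _).symm (by simpa using hl) (by
            intro z hz
            rcases List.mem_cons.1 hz with rfl | hz
            · exact hx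
            · exact hl0 z hz)
        rw [e2, hD.invB A l x hA hlE hx (hAl l hl0), ← e1, h, mul_zero]
      · intro l x hl hl0 hx
        have hlO : Odd l.length := by
          rcases hB with ⟨k, hk⟩; exact ⟨k - 1, by omega⟩
        rw [hD.pairB A l x hA hlO hx (hAl l hl0),
          IH (A.length + l.length) (by omega) A l rfl hA hlO (hAl l hl0), mul_zero]
      · intro l hl hl0
        have hlE : Even l.length := by
          rcases hB with ⟨k, hk⟩; exact ⟨k, by omega⟩
        obtain ⟨P, hPd, hPe, hP0⟩ := hD.polyB A l hA hlE (hAl l hl0)
        refine ⟨P, ?_, ?_, fun _ => hP0⟩
        · have : l.length = B.length - 1 := by omega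
          rw [this] at hPd; exact hPd
        · intro t ht
          have : l.length = B.length - 1 := by omega
          rw [hPe t ht, this]
          congr 1
          exact (hperm _ _ (List.perm_append_singleton _ _).symm (by simpa using hl) (by
            intro z hz
            rcases List.mem_cons.1 hz with rfl | hz
            · exact ht
            · exact hl0 z hz)).symm
      · omega
    · by_cases h2 : A.length = 0
      · have hA' : A = [] := List.length_eq_zero_iff.1 h2
        subst hA'
        have h3 : B.length = 1 := by
          rcases hB with ⟨k, hk⟩
          simp only [List.length_nil] at h1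
          omega
        obtain ⟨y, rfl⟩ := List.length_eq_one_iff.1 h3
        exact base01 y (hB0 y (by simp))
      · by_cases h3 : A.length = 2 ∧ B.length = 1
        · obtain ⟨y, rfl⟩ := List.length_eq_one_iff.1 h3.2
          obtain ⟨x, x', rfl⟩ := List.length_eq_two.1 h3.1
          exact base21 x x' y (hA0 x (by simp)) (hA0 x' (by simp)) (hB0 y (by simp))
        · -- A side
          have hperm : ∀ l l' : List ℂ, l.Perm l' → l.length = A.length → (∀ z ∈ l, z ≠ 0) →
              D l B = D l' B := by
            intro l l' hp hl hl0
            have := perm_gen (fun l => D l B) A.length (by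
              intro u v x y huv hx hy hz
              refine hD.swA u v B x y ?_ hB hx hy ?_
              · have h3 : u.length + v.length + 2 = A.length := huv
                rw [← h3] at hA
                rcases hA with ⟨k, hk⟩
                exact ⟨k - 1, by omega⟩
              · intro z hz'
                rcases List.mem_append.1 hz' with hz' | hz'
                · exact hz z hz'
                · exact hB0 z hz') l l' hp [] (by simpa using hl) (by simpa using hl0)
            simpa using this
          have hlB : ∀ l : List ℂ, (∀ z ∈ l, z ≠ 0) → ∀ z ∈ l ++ B, z ≠ 0 := by
            intro l hl z hz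
            rcases List.mem_append.1 hz with hz | hz
            · exact hl z hz
            · exact hB0 z hz
          have hA2 : 2 ≤ A.length := by
            rcases hA with ⟨k, hk⟩; omega
          refine side A.length (2 * (A.length - 1) + 1 + B.length + 1) 1 le_rfl
            (fun l => D l B) (by omega) hperm ?_ ?_ ?_ ?_ A rfl hA0
          · intro l x hl hl0 hx h
            have hlO : Odd l.length := by
              rcases hA with ⟨k, hk⟩; exact ⟨k - 1, by omega⟩
            show D (x :: l) B = 0
            rw [hD.invA l B x hlO hB hx (hlB l hl0), h, mul_zero]
          · intro l x hl hl0 hx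
            have hlE : Even l.length := by
              rcases hA with ⟨k, hk⟩; exact ⟨k - 1, by omega⟩
            show D (x :: (q^2 * x) :: l) B = 0
            rw [hD.pairA l B x hlE hB hx (hlB l hl0),
              IH (l.length + B.length) (by omega) l B rfl hlE hB (hlB l hl0), mul_zero]
          · intro l hl hl0
            have hlO : Odd l.length := by
              rcases hA with ⟨k, hk⟩; exact ⟨k - 1, by omega⟩
            obtain ⟨P, hPd, hPe⟩ := hD.polyA l B hlO hB (hlB l hl0)
            have hll : l.length = A.length - 1 := by omega
            refine ⟨X * P, ?_, ?_, fun _ => by simp⟩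
            · refine natDegree_mul_le.trans ?_
              rw [natDegree_X]
              rw [hll] at hPd
              omega
            · intro t ht
              show (X * P).eval t = t^(A.length - 1) * D (t :: l) B
              rw [eval_mul, eval_X, hPe t ht, hll, ← mul_assoc, ← pow_succ']
              congr 2
              omega
          · rcases hA with ⟨k, hk⟩
            rcases hB with ⟨j, hj⟩
            omega
  intro A B hA hB h0
  exact main _ A B rfl hA hB h0

end Pool.Agent.H981R2.TP
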