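import Pool.Agent.H981R2.TP.A1
import Pool.Agent.H981R2.TP.A2
import Pool.Agent.H981R2.TP.A3
import Pool.Agent.H981R2.TP.A4
import Pool.Agent.H981R2.TP.A5
import Pool.Agent.H981R2.TP.A6
import Pool.Agent.H981R2.TP.A7
import Pool.Agent.H981R2.TP.A8
import Pool.Agent.H981R2.TP.A9
import Pool.Agent.H981R2.TP.R1
import Pool.Agent.H981R2.TP.R2
import Pool.Agent.H981R2.TP.R3
import Pool.Agent.H981R2.TP.G
import Pool.Agent.H981R2.TP.B21
import Pool.Agent.H981R2.TP.U
import Pool.Agent.H981R2.TP.F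
import Pool.Agent.H981R2.TP.H
import Pool.Agent.H981R2.TP.C1
import Pool.Agent.H981R2.TP.C2
import Pool.Agent.H981R2.TP.C3
import Pool.Agent.H981R2.TP.C4
import Pool.Agent.H981R2.TP.C5
import Pool.Agent.H981R2.TP.C6
import Pool.Agent.H981R2.TP.C7
import Pool.Agent.H981R2.TP.C8
import Pool.Agent.H981R2.TP.C9
import Pool.Agent.H981R2.TP.C10
import Pool.Agent.H981R2.TP.C11
import Pool.Agent.H981R2.TP.C12a
import Pool.Agent.H981R2.TP.C12
import Pool.Agent.H981R2.TP.C13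
import Pool.Agent.H981R2.TP.C14
import Pool.Agent.H981R2.TP.C15
import Pool.Agent.H981R2.TP.D3

/-! Project TP: the assembly. -/

namespace Pool.Agent.H981R2.TP

open Pool.Agent.H988R2.Perc hiding X
open Filter Topology MeasureTheory

theorem s_G : S_G := t_G t_A1 t_A2 t_A3 t_A4 t_A5 t_A6 t_A7 t_R1 t_R2 t_R3

theorem s_F : S_F := t_F s_G t_B21 t_U t_A8 t_A9

theorem s_H : S_H := t_H s_F

theorem s_C4 : S_C4 := t_C4 t_C1 t_C2 t_C3
theorem s_C5 : S_C5 := t_C5 t_C1 t_C2 t_C3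
theorem s_C10 : S_C10 := t_C10 t_C8 t_C9
theorem s_C12 : S_C12 := t_C12 t_C12a
theorem s_C13 : S_C13 := t_C13 t_C11
theorem s_C14 : S_C14 := t_C14 s_C4 s_C5 t_C6 t_C7 s_C10 t_C11 s_C12 s_C13

/-- the exact formula -/
theorem exact_tip : S_Exact := exact_of s_H s_C14 t_C15 mass_ne

/-- the asymptotics with the explicit constant -/
theorem limit_tip (a b : ℕ → ℕ) (ha : ∀ n, Even (a n)) (hb : ∀ n, Odd (b n))
    (ta : Tendsto a atTop atTop) (tb : Tendsto b atTop atTop) :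
    Tendsto (fun n => perc.real (TipArm (a n) (b n)) *
      ((b n : ℝ) * (a n + b n) / a n)^((1:ℝ)/6)) atTop
      (𝓝 (Real.sqrt Real.pi / Real.Gamma (1/3))) := by
  refine (D3_explicit a b ha hb ta tb).congr fun n => ?_
  rw [exact_tip _ _ (ha n) (hb n)]

end Pool.Agent.H981R2.TP
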