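import Pool.Agent.H981R2.TP.Closed

/-! Project TP: all widths and the slit plane. -/

namespace Pool.Agent.H981R2.TP.PL

open Pool.Agent.H988R2.Perc hiding X
open Filter Topology MeasureTheory Finset

/-- open edges of the plane slit along the column `1` above the tip `(1,0)` -/
def SlitAdj (ω : Conf) (x y : ℤ × ℤ) : Prop :=
  OpenAdj ω x y ∧ ¬ (1 ≤ x.1 + x.2 ∧ 1 ≤ y.1 + y.2 ∧ (x.1 - x.2 = 1 ∨ y.1 - y.2 = 1))

/-- the part in the columns `[1-p, 1+r]` -/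
def SAdj (p r : ℕ) (ω : Conf) (x y : ℤ × ℤ) : Prop :=
  SlitAdj ω x y ∧ 1 - (p:ℤ) ≤ x.1 - x.2 ∧ x.1 - x.2 ≤ 1 + r ∧ 1 - (p:ℤ) ≤ y.1 - y.2 ∧
    y.1 - y.2 ≤ 1 + r

def StripArm (p r : ℕ) : Set Conf :=
  {ω | ∃ y : ℤ × ℤ, y.1 - y.2 = 1 + r ∧ Relation.ReflTransGen (SAdj p r ω) (1, 0) y}

def PlaneArm (r : ℕ) : Set Conf :=
  {ω | ∃ y : ℤ × ℤ, y.1 - y.2 = 1 + r ∧ Relation.ReflTransGen (SlitAdj ω) (1, 0) y}

theorem rtg_mono {R S : ℤ × ℤ → ℤ × ℤ → Prop} (h : ∀ x y, R x y → S x y) {a b : ℤ × ℤ}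
    (hab : Relation.ReflTransGen R a b) : Relation.ReflTransGen S a b := by
  induction hab with
  | refl => exact Relation.ReflTransGen.refl
  | tail _ hbc ih => exact ih.tail (h _ _ hbc)

theorem col_step {ω : Conf} {x y : ℤ × ℤ} (h : OpenAdj ω x y) :
    y.1 - y.2 ≤ x.1 - x.2 + 1 ∧ x.1 - x.2 ≤ y.1 - y.2 + 1 := by
  rcases h with ⟨h, _⟩ | ⟨h, _⟩ | ⟨h, _⟩ | ⟨h, _⟩ <;> rw [h] <;> simp <;> omega

theorem sadj_mono {p p' : ℕ} (h : p ≤ p') {r : ℕ} {ω : Conf} {x y : ℤ × ℤ}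
    (hx : SAdj p r ω x y) : SAdj p' r ω x y := by
  obtain ⟨e1, e2, e3, e4, e5⟩ := hx
  have : (p:ℤ) ≤ p' := by exact_mod_cast h
  exact ⟨e1, by linarith, e3, by linarith, e5⟩

theorem strip_mono_left {p p' : ℕ} (h : p ≤ p') (r : ℕ) : StripArm p r ⊆ StripArm p' r := by
  rintro ω ⟨y, h3, h4⟩
  exact ⟨y, h3, rtg_mono (fun _ _ hh => sadj_mono h hh) h4⟩

theorem strip_succ_right (p r : ℕ) : StripArm p (r + 1) ⊆ StripArm p r := by
  rintro ω ⟨y, h3, h4⟩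
  have key : ∀ z, Relation.ReflTransGen (SAdj p (r+1) ω) (1, 0) z →
      (Relation.ReflTransGen (SAdj p r ω) (1, 0) z ∧ z.1 - z.2 ≤ 1 + r) ∨
        ∃ y : ℤ × ℤ, y.1 - y.2 = 1 + r ∧ Relation.ReflTransGen (SAdj p r ω) (1, 0) y := by
    intro z hz
    induction hz with
    | refl => left; exact ⟨Relation.ReflTransGen.refl, by simp⟩
    | tail hpq hqr ih =>
      rename_i s t
      rcases ih with ⟨i1, i2⟩ | i3
      · by_cases hq : s.1 - s.2 = 1 + r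
        · right; exact ⟨s, hq, i1⟩
        · left
          obtain ⟨e1, e2, e3, e4, e5⟩ := hqr
          have hs := (col_step e1.1).1
          have hr : t.1 - t.2 ≤ 1 + r := by omega
          exact ⟨i1.tail ⟨e1, e2, i2, e4, hr⟩, hr⟩
      · right; exact i3
  rcases key y h4 with ⟨_, h5⟩ | ⟨y', h5, h6⟩
  · exfalso
    push_cast at h3
    omega
  · exact ⟨y', h5, h6⟩

theorem strip_anti_right (p : ℕ) {r r' : ℕ} (h : r ≤ r') : StripArm p r' ⊆ StripArm p r := by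
  induction r', h using Nat.le_induction with
  | base => exact subset_rfl
  | succ n hn ih => exact (strip_succ_right p n).trans ih

theorem plane_eq (r : ℕ) : PlaneArm r = ⋃ p, StripArm p r := by
  ext ω
  rw [Set.mem_iUnion]
  constructor
  · rintro ⟨y, h3, h4⟩
    have key : ∀ z, Relation.ReflTransGen (SlitAdj ω) (1, 0) z →
        ∃ p : ℕ, (Relation.ReflTransGen (SAdj p r ω) (1, 0) z ∧ z.1 - z.2 ≤ 1 + r ∧
          1 - (p:ℤ) ≤ z.1 - z.2) ∨
          ∃ y : ℤ × ℤ, y.1 - y.2 = 1 + r ∧ Relation.ReflTransGen (SAdj p r ω) (1, 0) y := by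
      intro z hz
      induction hz with
      | refl => exact ⟨0, Or.inl ⟨Relation.ReflTransGen.refl, by simp, by simp⟩⟩
      | tail hpq hqr ih =>
        rename_i s t
        obtain ⟨p, ih⟩ := ih
        rcases ih with ⟨i1, i2, i4⟩ | i3
        · by_cases hq : s.1 - s.2 = 1 + r
          · exact ⟨p, Or.inr ⟨s, hq, i1⟩⟩
          · have hs := col_step hqr.1
            have hr : t.1 - t.2 ≤ 1 + r := by omega
            refine ⟨p + 1, Or.inl ⟨(rtg_mono (fun _ _ hh => sadj_mono (Nat.le_succ p) hh) i1).tail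
              ⟨hqr, ?_, i2, ?_, hr⟩, hr, ?_⟩⟩ <;> push_cast <;> omega
        · exact ⟨p, Or.inr i3⟩
    obtain ⟨p, hp⟩ := key y h4
    rcases hp with ⟨h5, _⟩ | ⟨y', h5, h6⟩
    · exact ⟨p, y, h3, h5⟩
    · exact ⟨p, y', h5, h6⟩
  · rintro ⟨p, y, h3, h4⟩
    exact ⟨y, h3, rtg_mono (fun _ _ hh => hh.1) h4⟩

theorem plane_anti {r r' : ℕ} (h : r ≤ r') : PlaneArm r' ⊆ PlaneArm r := by
  rw [plane_eq, plane_eq]
  exact Set.iUnion_mono fun p => strip_anti_right p h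

/-! ## translation (after helper863) -/

/-- translation of edges -/
def sh (p r : ℤ) : Edge ≃ Edge where
  toFun e := (e.1 + p, e.2.1 + r, e.2.2)
  invFun e := (e.1 - p, e.2.1 - r, e.2.2)
  left_inv e := by simp
  right_inv e := by simp

theorem perc_map (e : Edge ≃ Edge) (S : Set Conf) :
    perc.real ((fun ω : Conf => fun i => ω (e.symm i)) ⁻¹' S) = perc.real S := by
  have hmap : perc.map (MeasurableEquiv.piCongrLeft (fun _ : Edge => Bool) e) = perc := by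
    unfold perc
    exact Measure.infinitePi_map_piCongrLeft (μ := fun _ : Edge => coin) e
  have hfun : (fun ω : Conf => fun i => ω (e.symm i)) =
      (MeasurableEquiv.piCongrLeft (fun _ : Edge => Bool) e) := by
    funext ω i
    obtain ⟨j, rfl⟩ := e.surjective i
    rw [MeasurableEquiv.coe_piCongrLeft, Equiv.piCongrLeft_apply_apply, e.symm_apply_apply]
  rw [hfun, measureReal_def, measureReal_def, ← MeasurableEquiv.map_apply, hmap]

theorem openAdj_sh (p r : ℤ) (ω : Conf) (x y : ℤ × ℤ) :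
    OpenAdj (fun i => ω ((sh p r).symm i)) (x.1 + p, x.2 + r) (y.1 + p, y.2 + r) ↔ OpenAdj ω x y := by
  obtain ⟨x1, x2⟩ := x
  obtain ⟨y1, y2⟩ := y
  unfold OpenAdj sh
  simp only [Equiv.coe_fn_symm_mk, Prod.mk.injEq, add_sub_cancel_right]
  have e1 : (y1 + p = x1 + p + 1 ∧ y2 + r = x2 + r) ↔ (y1 = x1 + 1 ∧ y2 = x2) := by omega
  have e2 : (x1 + p = y1 + p + 1 ∧ x2 + r = y2 + r) ↔ (x1 = y1 + 1 ∧ x2 = y2) := by omega
  have e3 : (y1 + p = x1 + p ∧ y2 + r = x2 + r + 1) ↔ (y1 = x1 ∧ y2 = x2 + 1) := by omega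
  have e4 : (x1 + p = y1 + p ∧ x2 + r = y2 + r + 1) ↔ (x1 = y1 ∧ x2 = y2 + 1) := by omega
  rw [e1, e2, e3, e4]

theorem strip_eq (m n : ℕ) : perc.real (StripArm (2*m+1) (2*n+2)) =
    perc.real (TipArm (2*m) (2*n+1)) := by
  rw [← perc_map (sh m (-m)) (TipArm (2*m) (2*n+1))]
  congr 1
  have hc : (2*m)/2 = m := by omega
  have hstep : ∀ (ω : Conf) (x y : ℤ × ℤ), SAdj (2*m+1) (2*n+2) ω x y ↔
      TipAdj (2*m) (2*n+1) (fun i => ω ((sh m (-m)).symm i)) (x.1 + m, x.2 + (-m))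
        (y.1 + m, y.2 + (-m)) := by
    intro ω x y
    unfold SAdj SlitAdj TipAdj
    rw [openAdj_sh]
    simp only
    push_cast
    constructor
    · rintro ⟨⟨e1, e2⟩, e3, e4, e5, e6⟩
      exact ⟨e1, by omega, by omega, by omega⟩
    · rintro ⟨e1, e2, e3, e4⟩
      exact ⟨⟨e1, by omega⟩, by omega, by omega, by omega, by omega⟩
  ext ω
  constructor
  · rintro ⟨y, h3, h4⟩
    refine ⟨(y.1 + m, y.2 + (-m)), ?_, ?_⟩
    · show y.1 + m - (y.2 + (-m)) = ((2*m : ℕ) : ℤ) + ((2*n+1 : ℕ) : ℤ) + 2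
      push_cast at h3 ⊢
      omega
    · have h5 := h4.lift (fun z : ℤ × ℤ => (z.1 + (m:ℤ), z.2 + (-(m:ℤ))))
        fun p q hpq => (hstep ω p q).mp hpq
      have e : tip (2*m) = ((1:ℤ) + m, (0:ℤ) + (-m)) := by
        unfold tip
        rw [hc]
        ext <;> simp <;> ring
      rw [e]
      exact h5
  · rintro ⟨y, h3, h4⟩
    refine ⟨(y.1 - m, y.2 - (-m)), ?_, ?_⟩
    · show y.1 - m - (y.2 - (-m)) = 1 + ((2*n+2 : ℕ) : ℤ)
      push_cast at h3 ⊢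
      omega
    · have h5 : Relation.ReflTransGen (SAdj (2*m+1) (2*n+2) ω)
          ((tip (2*m)).1 - (m:ℤ), (tip (2*m)).2 - (-(m:ℤ))) (y.1 - (m:ℤ), y.2 - (-(m:ℤ))) :=
        h4.lift (p := SAdj (2*m+1) (2*n+2) ω)
        (fun z : ℤ × ℤ => (z.1 - (m:ℤ), z.2 - (-(m:ℤ)))) (fun p q hpq => by
          show SAdj (2*m+1) (2*n+2) ω (p.1 - (m:ℤ), p.2 - (-(m:ℤ))) (q.1 - (m:ℤ), q.2 - (-(m:ℤ)))
          rw [hstep]
          simpa using hpq)
      have e : ((tip (2*m)).1 - (m:ℤ), (tip (2*m)).2 - (-(m:ℤ))) = ((1:ℤ), (0:ℤ)) := by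
        unfold tip
        rw [hc]
        ext <;> simp
      rw [e] at h5
      exact h5

/-- the exact formula -/
theorem strip_exact {p r : ℕ} (hp : Odd p) (hr : Even r) (hr0 : 0 < r) :
    perc.real (StripArm p r) = tipVal p r := by
  obtain ⟨m, rfl⟩ := hp
  obtain ⟨k, hk⟩ := hr
  obtain ⟨n, rfl⟩ : ∃ n, k = n + 1 := ⟨k - 1, by omega⟩
  obtain rfl : r = 2*n+2 := by omega
  rw [strip_eq, exact_tip (2*m) (2*n+1) (even_two_mul m) ⟨n, rfl⟩, closed_form]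
  unfold tipVal
  have e : 2*m+1+(2*n+2) = 2*m+2*n+3 := by ring
  rw [e]

end Pool.Agent.H981R2.TP.PL
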