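import Pool.Agent.H981R2.TP.Plane

/-! Project TP: all widths and the slit plane, the limits. -/

namespace Pool.Agent.H981R2.TP.PL

open Pool.Agent.H988R2.Perc hiding X
open Filter Topology MeasureTheory Finset

theorem rising_add (s : ℝ) (p r : ℕ) :
    rising s (p + r) = rising s p * ∏ i ∈ range r, (s + ((p:ℝ) + i)) := by
  unfold rising
  rw [prod_range_add]
  congr 1
  refine prod_congr rfl fun i _ => ?_
  push_cast
  ring

theorem tipVal_eq (p r : ℕ) : tipVal p r = rising (1/3) r / rising (1/2) r *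
    ∏ i ∈ range r, ((1 * (p:ℝ) + (1/2 + i)) / (1 * (p:ℝ) + (2/3 + i))) := by
  unfold tipVal
  rw [rising_add, rising_add, prod_div_distrib]
  have r1 := (rising_pos (by norm_num : (0:ℝ) < 1/2) p).ne'
  have r2 := (rising_pos (by norm_num : (0:ℝ) < 2/3) p).ne'
  have r3 := (rising_pos (by norm_num : (0:ℝ) < 1/2) r).ne'
  have e1 : ∏ i ∈ range r, ((1/2:ℝ) + ((p:ℝ) + i)) = ∏ i ∈ range r, (1 * (p:ℝ) + (1/2 + i)) :=
    prod_congr rfl fun i _ => by ring
  have e2 : ∏ i ∈ range r, ((2/3:ℝ) + ((p:ℝ) + i)) = ∏ i ∈ range r, (1 * (p:ℝ) + (2/3 + i)) :=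
    prod_congr rfl fun i _ => by ring
  rw [e1, e2]
  have r4 : ∏ i ∈ range r, (1 * (p:ℝ) + (2/3 + i)) ≠ 0 :=
    prod_ne_zero_iff.mpr fun i _ => by positivity
  field_simp

/-- the value in the slit plane -/
noncomputable def planeVal (r : ℕ) : ℝ := rising (1/3) r / rising (1/2) r

theorem tipVal_lim (r : ℕ) : Tendsto (fun p : ℕ => tipVal p r) atTop (𝓝 (planeVal r)) := by
  have h : Tendsto (fun p : ℕ => ∏ i ∈ range r, ((1 * (p:ℝ) + (1/2 + i)) / (1 * (p:ℝ) + (2/3 + i))))
      atTop (𝓝 (∏ _i ∈ range r, ((1:ℝ)/1))) :=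
    tendsto_finsetProd _ fun i _ => D2_lin 1 (1/2 + i) 1 (2/3 + i) (by norm_num)
  have h2 := h.const_mul (rising (1/3) r / rising (1/2) r)
  have e : rising (1/3) r / rising (1/2) r * ∏ _i ∈ range r, ((1:ℝ)/1) = planeVal r := by
    simp [planeVal]
  rw [e] at h2
  exact h2.congr fun p => (tipVal_eq p r).symm

theorem plane_tendsto (r : ℕ) :
    Tendsto (fun p => perc.real (StripArm p r)) atTop (𝓝 (perc.real (PlaneArm r))) := by
  have h1 : Tendsto (fun p => perc (StripArm p r)) atTop (𝓝 (perc (⋃ p, StripArm p r))) :=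
    tendsto_measure_iUnion_atTop fun _ _ h => strip_mono_left h r
  rw [← plane_eq] at h1
  exact (ENNReal.tendsto_toReal (measure_ne_top perc (PlaneArm r))).comp h1

theorem odd_tendsto : Tendsto (fun m : ℕ => 2*m+1) atTop atTop :=
  tendsto_atTop_mono (fun m => by show m ≤ 2*m+1; omega) tendsto_id

/-- the exact value in the slit plane -/
theorem plane_exact {r : ℕ} (hr : Even r) (hr0 : 0 < r) : perc.real (PlaneArm r) = planeVal r := by
  have h1 := (plane_tendsto r).comp odd_tendsto
  have h2 := (tipVal_lim r).comp odd_tendsto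
  refine tendsto_nhds_unique h1 (h2.congr fun m => ?_)
  exact (strip_exact ⟨m, rfl⟩ hr hr0).symm

/-! ## all parities -/

theorem ratio_one {x x' : ℕ → ℝ} (hx : Tendsto x atTop atTop) (K : ℝ)
    (h : ∀ n, |x' n - x n| ≤ K) : Tendsto (fun n => x' n / x n) atTop (𝓝 1) := by
  have h1 : Tendsto (fun n => K / x n) atTop (𝓝 0) := hx.const_div_atTop K
  have h2 : Tendsto (fun n => (x' n - x n) / x n) atTop (𝓝 0) := by
    refine squeeze_zero_norm' ?_ h1
    filter_upwards [hx.eventually_gt_atTop 0] with n hn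
    rw [Real.norm_eq_abs, abs_div, abs_of_pos hn]
    exact div_le_div_of_nonneg_right (h n) hn.le
  have h3 := h2.add_const 1
  rw [zero_add] at h3
  refine h3.congr' ?_
  filter_upwards [hx.eventually_gt_atTop 0] with n hn
  field_simp
  ring

theorem ff_ratio {p r p' r' : ℕ → ℕ} (tp : Tendsto p atTop atTop) (tr : Tendsto r atTop atTop)
    (hp : ∀ n, |(p' n : ℝ) - p n| ≤ 1) (hr : ∀ n, |(r' n : ℝ) - r n| ≤ 1) :
    Tendsto (fun n => tipVal (p' n) (r' n) * ((r n : ℝ) * (p n + r n) / p n)^((1:ℝ)/6)) atTop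
      (𝓝 (Real.sqrt Real.pi / Real.Gamma (1/3))) := by
  have cp : Tendsto (fun n => (p n : ℝ)) atTop atTop := tendsto_natCast_atTop_atTop.comp tp
  have cr : Tendsto (fun n => (r n : ℝ)) atTop atTop := tendsto_natCast_atTop_atTop.comp tr
  have tp' : Tendsto p' atTop atTop := by
    have : Tendsto (fun n => (p' n : ℝ)) atTop atTop := by
      refine tendsto_atTop_mono (f := fun n => (p n : ℝ) + (-1)) (fun n => ?_)
        (tendsto_atTop_add_const_right _ _ cp)
      have := (abs_le.mp (hp n)).1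
      linarith
    exact tendsto_natCast_atTop_iff.mp this
  have tr' : Tendsto r' atTop atTop := by
    have : Tendsto (fun n => (r' n : ℝ)) atTop atTop := by
      refine tendsto_atTop_mono (f := fun n => (r n : ℝ) + (-1)) (fun n => ?_)
        (tendsto_atTop_add_const_right _ _ cr)
      have := (abs_le.mp (hr n)).1
      linarith
    exact tendsto_natCast_atTop_iff.mp this
  have h0 := tipVal_asymp p' r' tp' tr'
  have h1 := ratio_one cp 1 hp
  have h2 := ratio_one cr 1 hr
  have h3 : Tendsto (fun n => ((p' n : ℝ) + r' n) / (p n + r n)) atTop (𝓝 1) := by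
    refine ratio_one (x := fun n => (p n : ℝ) + r n) (x' := fun n => (p' n : ℝ) + r' n)
      (tendsto_atTop_mono (fun n => le_add_of_nonneg_right (Nat.cast_nonneg (r n))) cp) 2
      fun n => ?_
    have a1 := abs_le.mp (hp n)
    have a2 := abs_le.mp (hr n)
    rw [abs_le]
    constructor <;> linarith
  have h4 := ((h2.inv₀ one_ne_zero).mul (h3.inv₀ one_ne_zero)).mul h1
  have e4 : ((1:ℝ)⁻¹ * 1⁻¹ * 1) = 1 := by norm_num
  rw [e4] at h4
  have h5 := h4.rpow_const (p := (1:ℝ)/6) (Or.inl one_ne_zero)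
  rw [Real.one_rpow] at h5
  have h6 := h0.mul h5
  rw [mul_one] at h6
  refine h6.congr' ?_
  filter_upwards [tp.eventually_gt_atTop 0, tr.eventually_gt_atTop 0, tp'.eventually_gt_atTop 0,
    tr'.eventually_gt_atTop 0] with n n1 n2 n3 n4
  have q1 : (0:ℝ) < p n := by exact_mod_cast n1
  have q2 : (0:ℝ) < r n := by exact_mod_cast n2
  have q3 : (0:ℝ) < p' n := by exact_mod_cast n3
  have q4 : (0:ℝ) < r' n := by exact_mod_cast n4
  rw [mul_assoc, ← Real.mul_rpow (by positivity) (by positivity)]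
  congr 2
  field_simp

theorem strip_asymp (p r : ℕ → ℕ) (tp : Tendsto p atTop atTop) (tr : Tendsto r atTop atTop) :
    Tendsto (fun n => perc.real (StripArm (p n) (r n)) *
      ((r n : ℝ) * (p n + r n) / p n)^((1:ℝ)/6)) atTop
      (𝓝 (Real.sqrt Real.pi / Real.Gamma (1/3))) := by
  have hl := ff_ratio (p' := fun n => 2*((p n + 1)/2) - 1) (r' := fun n => 2*((r n+1)/2)) tp tr
    (fun n => by
      have e : |(((2*((p n + 1)/2) - 1 : ℕ) : ℤ) : ℤ) - (p n : ℤ)| ≤ 1 := by
        rw [abs_le]; omega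
      exact_mod_cast e)
    (fun n => by
      have e : |(((2*((r n + 1)/2) : ℕ) : ℤ) : ℤ) - (r n : ℤ)| ≤ 1 := by
        rw [abs_le]; omega
      exact_mod_cast e)
  have hu := ff_ratio (p' := fun n => 2*(p n /2) + 1) (r' := fun n => 2*(r n/2)) tp tr
    (fun n => by
      have e : |(((2*(p n/2) + 1 : ℕ) : ℤ) : ℤ) - (p n : ℤ)| ≤ 1 := by
        rw [abs_le]; omega
      exact_mod_cast e)
    (fun n => by
      have e : |(((2*(r n/2) : ℕ) : ℤ) : ℤ) - (r n : ℤ)| ≤ 1 := by
        rw [abs_le]; omega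
      exact_mod_cast e)
  refine tendsto_of_tendsto_of_tendsto_of_le_of_le' hl hu ?_ ?_
  · filter_upwards [tp.eventually_ge_atTop 2, tr.eventually_ge_atTop 2] with n n1 n2
    refine mul_le_mul_of_nonneg_right ?_ (by positivity)
    rw [← strip_exact (p := 2*((p n + 1)/2) - 1) (r := 2*((r n+1)/2))
      ⟨(p n + 1)/2 - 1, by omega⟩ (even_two_mul _) (by omega)]
    exact measureReal_mono ((strip_mono_left (by omega) _).trans (strip_anti_right _ (by omega)))
  · filter_upwards [tp.eventually_ge_atTop 2, tr.eventually_ge_atTop 2] with n n1 n2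
    refine mul_le_mul_of_nonneg_right ?_ (by positivity)
    rw [← strip_exact (p := 2*(p n/2) + 1) (r := 2*(r n/2))
      ⟨p n/2, rfl⟩ (even_two_mul _) (by omega)]
    exact measureReal_mono ((strip_mono_left (by omega) _).trans (strip_anti_right _ (by omega)))

theorem planeVal_asymp (r : ℕ → ℕ) (tr : Tendsto r atTop atTop) :
    Tendsto (fun n => planeVal (r n) * (r n : ℝ)^((1:ℝ)/6)) atTop
      (𝓝 (Real.sqrt Real.pi / Real.Gamma (1/3))) := by
  have h := (ratio_tendsto (1/3) (by norm_num)).comp tr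
  rw [Real.Gamma_one_half_eq] at h
  refine h.congr' ?_
  filter_upwards [tr.eventually_gt_atTop 0] with n hn
  have q2 : (0:ℝ) < r n := by exact_mod_cast hn
  simp only [Function.comp_apply]
  have e2 : ((1/3:ℝ) - 1/2) = -(1/6) := by norm_num
  rw [e2, Real.rpow_neg q2.le, div_inv_eq_mul]
  rfl

theorem plane_ff {r r' : ℕ → ℕ} (tr : Tendsto r atTop atTop)
    (hr : ∀ n, |(r' n : ℝ) - r n| ≤ 1) :
    Tendsto (fun n => planeVal (r' n) * (r n : ℝ)^((1:ℝ)/6)) atTop
      (𝓝 (Real.sqrt Real.pi / Real.Gamma (1/3))) := by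
  have cr : Tendsto (fun n => (r n : ℝ)) atTop atTop := tendsto_natCast_atTop_atTop.comp tr
  have tr' : Tendsto r' atTop atTop := by
    have : Tendsto (fun n => (r' n : ℝ)) atTop atTop := by
      refine tendsto_atTop_mono (f := fun n => (r n : ℝ) + (-1)) (fun n => ?_)
        (tendsto_atTop_add_const_right _ _ cr)
      have := (abs_le.mp (hr n)).1
      linarith
    exact tendsto_natCast_atTop_iff.mp this
  have h0 := planeVal_asymp r' tr'
  have h2 := (ratio_one cr 1 hr).inv₀ one_ne_zero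
  have h5 := h2.rpow_const (p := (1:ℝ)/6) (Or.inl (inv_ne_zero one_ne_zero))
  rw [inv_one, Real.one_rpow] at h5
  have h6 := h0.mul h5
  rw [mul_one] at h6
  refine h6.congr' ?_
  filter_upwards [tr.eventually_gt_atTop 0, tr'.eventually_gt_atTop 0] with n n2 n4
  have q2 : (0:ℝ) < r n := by exact_mod_cast n2
  have q4 : (0:ℝ) < r' n := by exact_mod_cast n4
  rw [mul_assoc, ← Real.mul_rpow (by positivity) (by positivity)]
  congr 2
  field_simp

theorem plane_asymp : Tendsto (fun r : ℕ => perc.real (PlaneArm r) * (r : ℝ)^((1:ℝ)/6)) atTop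
      (𝓝 (Real.sqrt Real.pi / Real.Gamma (1/3))) := by
  have hl := plane_ff (r := fun n => n) (r' := fun n => 2*((n+1)/2)) tendsto_id
    (fun n => by
      have e : |(((2*((n + 1)/2) : ℕ) : ℤ) : ℤ) - (n : ℤ)| ≤ 1 := by
        rw [abs_le]; omega
      exact_mod_cast e)
  have hu := plane_ff (r := fun n => n) (r' := fun n => 2*(n/2)) tendsto_id
    (fun n => by
      have e : |(((2*(n/2) : ℕ) : ℤ) : ℤ) - (n : ℤ)| ≤ 1 := by
        rw [abs_le]; omega
      exact_mod_cast e)
  refine tendsto_of_tendsto_of_tendsto_of_le_of_le' hl hu ?_ ?_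
  · filter_upwards [eventually_ge_atTop 2] with n n2
    refine mul_le_mul_of_nonneg_right ?_ (by positivity)
    rw [← plane_exact (r := 2*((n+1)/2)) (even_two_mul _) (by omega)]
    exact measureReal_mono (plane_anti (by omega))
  · filter_upwards [eventually_ge_atTop 2] with n n2
    refine mul_le_mul_of_nonneg_right ?_ (by positivity)
    rw [← plane_exact (r := 2*(n/2)) (even_two_mul _) (by omega)]
    exact measureReal_mono (plane_anti (by omega))

end Pool.Agent.H981R2.TP.PL
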